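import Mathlib

/-! Closure properties of `Computable` functions and `ComputablePred` predicates. -/

namespace Pool.Agent.Lib.MP_3eaa21_lc

open Encodable

universe u

section tools

variable {α β γ σ : Type*} [Primcodable α] [Primcodable β] [Primcodable γ] [Primcodable σ]

theorem c_ite {p : α → Prop} [DecidablePred p] {f g : α → σ}
    (hp : ComputablePred p) (hf : Computable f) (hg : Computable g) :
    Computable fun a => if p a then f a else g a := by
  simpa [Bool.cond_decide] using hp.decide.cond hf hg

theorem p_eq {f g : α → σ} (hf : Computable f) (hg : Computable g) :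
    ComputablePred fun a => f a = g a := by
  classical
  have h := (Primrec.eq (α := σ)).decide.to_comp.comp hf hg
  exact Computable.computablePred h

theorem p_le {f g : α → ℕ} (hf : Computable f) (hg : Computable g) :
    ComputablePred fun a => f a ≤ g a :=
  Computable.computablePred (Primrec.nat_le.decide.to_comp.comp hf hg)

theorem p_lt {f g : α → ℕ} (hf : Computable f) (hg : Computable g) :
    ComputablePred fun a => f a < g a :=
  Computable.computablePred (Primrec.nat_lt.decide.to_comp.comp hf hg)

theorem p_and {p q : α → Prop} (hp : ComputablePred p) (hq : ComputablePred q) :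
    ComputablePred fun a => p a ∧ q a := by
  classical
  refine Computable.computablePred ((Primrec.and.to_comp.comp hp.decide hq.decide).of_eq ?_)
  intro a; simp

theorem p_or {p q : α → Prop} (hp : ComputablePred p) (hq : ComputablePred q) :
    ComputablePred fun a => p a ∨ q a := by
  classical
  refine Computable.computablePred ((Primrec.or.to_comp.comp hp.decide hq.decide).of_eq ?_)
  intro a; simp

theorem p_not {p : α → Prop} (hp : ComputablePred p) : ComputablePred fun a => ¬ p a := hp.not

theorem p_imp {p q : α → Prop} (hp : ComputablePred p) (hq : ComputablePred q) :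
    ComputablePred fun a => p a → q a :=
  (p_or (p_not hp) hq).of_eq fun a => by tauto

theorem p_iff {p q : α → Prop} (hp : ComputablePred p) (hq : ComputablePred q) :
    ComputablePred fun a => (p a ↔ q a) :=
  (p_and (p_imp hp hq) (p_imp hq hp)).of_eq fun a => by tauto

theorem p_const (p : Prop) : ComputablePred fun _ : α => p := by
  classical
  exact Computable.computablePred (Computable.const (decide p))

theorem p_bool {f : α → Bool} (hf : Computable f) : ComputablePred fun a => f a = true := by
  refine Computable.computablePred (hf.of_eq ?_)
  intro a; simp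

theorem p_comp {p : β → Prop} (hp : ComputablePred p) {f : α → β} (hf : Computable f) :
    ComputablePred fun a => p (f a) := by
  classical
  exact Computable.computablePred (hp.decide.comp hf)

theorem c_foldl {f : α → List β} {g : α → σ} {h : α → σ × β → σ} (hf : Computable f)
    (hg : Computable g) (hh : Computable₂ h) :
    Computable fun a => (f a).foldl (fun s b => h a (s, b)) (g a) := by
  have h1 : Computable₂ (fun (a : α) (p : ℕ × σ) =>
      ((f a)[p.1]?).casesOn (motive := fun _ => σ) p.2 (fun b => h a (p.2, b))) := by
    refine Computable.option_casesOn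
      (Computable.list_getElem?.comp (hf.comp Computable.fst)
        (Computable.fst.comp Computable.snd)) (Computable.snd.comp Computable.snd) ?_
    exact hh.comp (Computable.fst.comp Computable.fst)
      (Computable.pair ((Computable.snd.comp Computable.snd).comp Computable.fst) Computable.snd)
  refine (Computable.nat_rec (Computable.list_length.comp hf) hg h1).of_eq ?_
  intro a
  have key : ∀ n, (Nat.rec (g a) (fun n s => ((f a)[n]?).casesOn (motive := fun _ => σ) s
      (fun b => h a (s, b))) n : σ) = ((f a).take n).foldl (fun s b => h a (s, b)) (g a) := by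
    intro n
    induction n with
    | zero => simp
    | succ n ih =>
      simp only [ih]
      rw [List.take_add_one]
      rcases hn : (f a)[n]? with _ | b <;> simp
  have := key (f a).length
  simpa using this

theorem c_map {f : α → List β} {h : α → β → σ} (hf : Computable f) (hh : Computable₂ h) :
    Computable fun a => (f a).map (h a) := by
  have h1 : Computable₂ (fun (a : α) (p : List σ × β) => p.1 ++ [h a p.2]) :=
    Computable.list_concat.comp (Computable.fst.comp Computable.snd)
      (hh.comp Computable.fst (Computable.snd.comp Computable.snd))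
  refine (c_foldl hf (Computable.const []) h1).of_eq ?_
  intro a
  have key : ∀ (l : List β) (acc : List σ),
      l.foldl (fun s b => s ++ [h a b]) acc = acc ++ l.map (h a) := by
    intro l
    induction l with
    | nil => simp
    | cons b l ih => intro acc; simp [ih]
  simpa using key (f a) []

theorem c_filter {f : α → List β} {p : α → β → Prop} [∀ a, DecidablePred (p a)]
    (hf : Computable f) (hp : ComputablePred fun x : α × β => p x.1 x.2) :
    Computable fun a => (f a).filter (p a) := by
  have h1 : Computable₂ (fun (a : α) (x : List β × β) =>
      if p a x.2 then x.1 ++ [x.2] else x.1) := by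
    have : ComputablePred fun y : α × (List β × β) => p y.1 y.2.2 :=
      p_comp hp (Computable.pair Computable.fst (Computable.snd.comp Computable.snd))
    exact c_ite this (Computable.list_concat.comp (Computable.fst.comp Computable.snd)
      (Computable.snd.comp Computable.snd)) (Computable.fst.comp Computable.snd)
  refine (c_foldl hf (Computable.const []) h1).of_eq ?_
  intro a
  have key : ∀ (l : List β) (acc : List β),
      l.foldl (fun s b => if p a b then s ++ [b] else s) acc = acc ++ l.filter (p a) := by
    intro l
    induction l with
    | nil => simp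
    | cons b l ih =>
      intro acc
      by_cases hb : p a b <;> simp [ih, hb]
  simpa using key (f a) []

theorem p_all {f : α → List β} {p : α → β → Prop}
    (hf : Computable f) (hp : ComputablePred fun x : α × β => p x.1 x.2) :
    ComputablePred fun a => ∀ b ∈ f a, p a b := by
  classical
  have h1 : Computable₂ (fun (a : α) (x : Bool × β) => x.1 && decide (p a x.2)) := by
    have : ComputablePred fun y : α × (Bool × β) => p y.1 y.2.2 :=
      p_comp hp (Computable.pair Computable.fst (Computable.snd.comp Computable.snd))
    exact Primrec.and.to_comp.comp (Computable.fst.comp Computable.snd) this.decide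
  refine Computable.computablePred ((c_foldl hf (Computable.const true) h1).of_eq ?_)
  intro a
  have key : ∀ (l : List β) (acc : Bool),
      l.foldl (fun s b => s && decide (p a b)) acc = (acc && decide (∀ b ∈ l, p a b)) := by
    intro l
    induction l with
    | nil => simp
    | cons b l ih =>
      intro acc
      simp only [List.foldl_cons, ih, List.forall_mem_cons, Bool.decide_and, Bool.and_assoc]
  simpa using key (f a) true

theorem p_ex {f : α → List β} {p : α → β → Prop}
    (hf : Computable f) (hp : ComputablePred fun x : α × β => p x.1 x.2) :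
    ComputablePred fun a => ∃ b ∈ f a, p a b :=
  (p_not (p_all (p := fun a b => ¬ p a b) hf (p_not hp))).of_eq fun a => by simp

theorem c_range {f : α → ℕ} (hf : Computable f) : Computable fun a => List.range (f a) :=
  Primrec.list_range.to_comp.comp hf

theorem p_all_lt {f : α → ℕ} {p : α → ℕ → Prop}
    (hf : Computable f) (hp : ComputablePred fun x : α × ℕ => p x.1 x.2) :
    ComputablePred fun a => ∀ b < f a, p a b :=
  (p_all (c_range hf) hp).of_eq fun a => by simp

theorem p_ex_lt {f : α → ℕ} {p : α → ℕ → Prop}
    (hf : Computable f) (hp : ComputablePred fun x : α × ℕ => p x.1 x.2) :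
    ComputablePred fun a => ∃ b < f a, p a b :=
  (p_ex (c_range hf) hp).of_eq fun a => by simp

theorem p_all_le {f : α → ℕ} {p : α → ℕ → Prop}
    (hf : Computable f) (hp : ComputablePred fun x : α × ℕ => p x.1 x.2) :
    ComputablePred fun a => ∀ b ≤ f a, p a b :=
  (p_all_lt (Computable.succ.comp hf) hp).of_eq fun a => by simp

theorem p_ex_le {f : α → ℕ} {p : α → ℕ → Prop}
    (hf : Computable f) (hp : ComputablePred fun x : α × ℕ => p x.1 x.2) :
    ComputablePred fun a => ∃ b ≤ f a, p a b :=
  (p_ex_lt (Computable.succ.comp hf) hp).of_eq fun a => by simp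

theorem c_add {f g : α → ℕ} (hf : Computable f) (hg : Computable g) :
    Computable fun a => f a + g a := Primrec.nat_add.to_comp.comp hf hg

theorem c_sub {f g : α → ℕ} (hf : Computable f) (hg : Computable g) :
    Computable fun a => f a - g a := Primrec.nat_sub.to_comp.comp hf hg

theorem c_mul {f g : α → ℕ} (hf : Computable f) (hg : Computable g) :
    Computable fun a => f a * g a := Primrec.nat_mul.to_comp.comp hf hg

theorem c_mod {f g : α → ℕ} (hf : Computable f) (hg : Computable g) :
    Computable fun a => f a % g a := Primrec.nat_mod.to_comp.comp hf hg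

theorem c_div {f g : α → ℕ} (hf : Computable f) (hg : Computable g) :
    Computable fun a => f a / g a := Primrec.nat_div.to_comp.comp hf hg

theorem c_max {f g : α → ℕ} (hf : Computable f) (hg : Computable g) :
    Computable fun a => max (f a) (g a) := Primrec.nat_max.to_comp.comp hf hg

theorem c_pow {f g : α → ℕ} (hf : Computable f) (hg : Computable g) :
    Computable fun a => f a ^ g a :=
  (Primrec₂.unpaired'.1 Nat.Primrec.pow : Primrec₂ ((· ^ ·) : ℕ → ℕ → ℕ)).to_comp.comp hf hg

theorem c_take {f : α → List β} {g : α → ℕ} (hf : Computable f) (hg : Computable g) :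
    Computable fun a => (f a).take (g a) := Primrec.list_take.to_comp.comp hg hf

theorem c_append {f g : α → List β} (hf : Computable f) (hg : Computable g) :
    Computable fun a => f a ++ g a := Computable.list_append.comp hf hg

theorem c_cons {f : α → β} {g : α → List β} (hf : Computable f) (hg : Computable g) :
    Computable fun a => f a :: g a := Computable.list_cons.comp hf hg

theorem c_length {f : α → List β} (hf : Computable f) :
    Computable fun a => (f a).length := Computable.list_length.comp hf

theorem c_replicate {f : α → ℕ} {g : α → β} (hf : Computable f) (hg : Computable g) :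
    Computable fun a => List.replicate (f a) (g a) := by
  refine (c_map (c_range hf) (h := fun a _ => g a) (hg.comp Computable.fst)).of_eq ?_
  intro a
  simp [List.map_const']

theorem c_set {f : α → List β} {g : α → ℕ} {h : α → β} (hf : Computable f) (hg : Computable g)
    (hh : Computable h) : Computable fun a => (f a).set (g a) (h a) :=
  Primrec.list_set.to_comp.comp hf (Computable.pair hg hh)

theorem c_getD {f : α → List β} {g : α → ℕ} {d : β} (hf : Computable f) (hg : Computable g) :
    Computable fun a => (f a).getD (g a) d := (Primrec.list_getD d).to_comp.comp hf hg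

theorem c_get? {f : α → List β} {g : α → ℕ} (hf : Computable f) (hg : Computable g) :
    Computable fun a => (f a)[g a]? := Computable.list_getElem?.comp hf hg

theorem p_even {f : α → ℕ} (hf : Computable f) : ComputablePred fun a => Even (f a) :=
  (p_eq (c_mod hf (Computable.const 2)) (Computable.const 0)).of_eq fun a => by
    rw [Nat.even_iff]

theorem c_sum {f : α → List β} {h : α → β → ℕ} (hf : Computable f) (hh : Computable₂ h) :
    Computable fun a => ((f a).map (h a)).sum := by
  have h1 : Computable₂ (fun (a : α) (p : ℕ × β) => p.1 + h a p.2) :=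
    c_add (Computable.fst.comp Computable.snd)
      (hh.comp Computable.fst (Computable.snd.comp Computable.snd))
  refine (c_foldl hf (Computable.const 0) h1).of_eq ?_
  intro a
  have key : ∀ (l : List β) (acc : ℕ),
      l.foldl (fun s b => s + h a b) acc = acc + (l.map (h a)).sum := by
    intro l
    induction l with
    | nil => simp
    | cons b l ih => intro acc; simp [ih, add_assoc]
  simpa using key (f a) 0

/-- computable search: choice of a witness of a decidable relation -/
theorem exists_computable_choice {R : α → ℕ → Prop}
    (hR : ComputablePred fun x : α × ℕ => R x.1 x.2) (h : ∀ a, ∃ n, R a n) :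
    ∃ f : α → ℕ, Computable f ∧ ∀ a, R a (f a) ∧ ∀ m < f a, ¬ R a m := by
  classical
  exact ⟨_, Computable.find hR h, fun a => ⟨Nat.find_spec (h a), fun m hm => Nat.find_min (h a) hm⟩⟩

/-- Computable dependent choice. -/
theorem exists_computable_seq {R : ℕ → σ → σ → Prop} {Inv : ℕ → σ → Prop} (a₀ : σ)
    (hR : ComputablePred fun x : (ℕ × σ) × σ => R x.1.1 x.1.2 x.2)
    (h0 : Inv 0 a₀) (hstep : ∀ s a b, Inv s a → R s a b → Inv (s + 1) b)
    (hex : ∀ s a, Inv s a → ∃ b, R s a b) :
    ∃ F : ℕ → σ, Computable F ∧ F 0 = a₀ ∧ (∀ s, R s (F s) (F (s + 1))) ∧ ∀ s, Inv s (F s) := by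
  classical
  let q : (ℕ × σ) → ℕ → Bool := fun x n =>
    (decode (α := σ) n).casesOn (motive := fun _ => Bool) false (fun b => decide (R x.1 x.2 b))
  have hR' : Computable₂ (fun (y : (ℕ × σ) × ℕ) (b : σ) => decide (R y.1.1 y.1.2 b)) :=
    (p_comp (p := fun x : (ℕ × σ) × σ => R x.1.1 x.1.2 x.2) hR
      (f := fun y : ((ℕ × σ) × ℕ) × σ => (y.1.1, y.2))
      (Computable.pair (Computable.fst.comp Computable.fst) Computable.snd)).decide
  have hd : Computable (fun y : (ℕ × σ) × ℕ => (decode y.2 : Option σ)) :=
    Computable.decode.comp Computable.snd
  have hq : Computable₂ q :=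
    Computable.option_casesOn hd (Computable.const false) hR'
  let step : (ℕ × σ) →. σ := fun x =>
    (Nat.rfind (fun n => Part.some (q x n))).bind (fun n => (decode (α := σ) n : Part σ))
  have hstep' : Partrec step := by
    refine Partrec.bind (Partrec.rfind hq.partrec₂) ?_
    exact (Computable.decode.comp Computable.snd).ofOption
  have hspec : ∀ s a, Inv s a → ∃ b, b ∈ step (s, a) ∧ R s a b := by
    intro s a hInv
    obtain ⟨b, hb⟩ := hex s a hInv
    have h1 : q (s, a) (encode b) = true := by
      simp only [q, encodek]
      exact decide_eq_true hb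
    obtain ⟨n, hn, -⟩ := Nat.rfind_min' h1
    have h2 : true ∈ (Part.some (q (s, a) n) : Part Bool) := Nat.rfind_spec hn
    have h3 : q (s, a) n = true := (Part.mem_some_iff.1 h2).symm
    rcases hd : decode (α := σ) n with _ | b'
    · simp only [q, hd] at h3
      exact absurd h3 (by simp)
    · simp only [q, hd] at h3
      refine ⟨b', ?_, of_decide_eq_true h3⟩
      simp only [step, Part.mem_bind_iff]
      exact ⟨n, hn, by simp [hd]⟩
  let G : ℕ →. σ := fun n => n.rec (Part.some a₀) (fun y IH => IH.bind fun a => step (y, a))
  have hG : Partrec G := by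
    refine Partrec.nat_rec (f := fun n : ℕ => n) (g := fun _ => Part.some a₀)
      (h := fun _ p => step p) Computable.id (Computable.const a₀) ?_
    exact hstep'.comp Computable.snd
  have hG1 : ∀ n, ∃ b, b ∈ G n ∧ Inv n b := by
    intro n
    induction n with
    | zero => exact ⟨a₀, Part.mem_some _, h0⟩
    | succ n ih =>
      obtain ⟨a, ha, hInv⟩ := ih
      obtain ⟨b, hb, hRb⟩ := hspec n a hInv
      exact ⟨b, Part.mem_bind_iff.2 ⟨a, ha, hb⟩, hstep _ _ _ hInv hRb⟩
  choose F hF hFInv using hG1
  refine ⟨F, hG.of_eq_tot hF, ?_, ?_, hFInv⟩
  · exact Part.mem_some_iff.1 (hF 0)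
  · intro s
    obtain ⟨b, hb, hRb⟩ := hspec s (F s) (hFInv s)
    have h1 : b ∈ G (s + 1) := Part.mem_bind_iff.2 ⟨F s, hF s, hb⟩
    rw [Part.mem_unique (hF (s + 1)) h1]
    exact hRb

end tools

end Pool.Agent.Lib.MP_3eaa21_lc
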