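import Pool.Agent.Lib.MP_3eaa21_lc.NormalForm
import Pool.Agent.Lib.MP_3eaa21_lc.Tools

section

/-! Simple Turing reductions. -/

namespace Pool.Agent.Lib.MP_3eaa21_lc

open Encodable

theorem charFn_nat (S : Set ℕ) (n : ℕ) [Decidable (n ∈ S)] :
    charFn S n = if n ∈ S then 1 else 0 := by
  classical
  unfold charFn
  by_cases h : n ∈ S
  · rw [if_pos, if_pos h]; exact ⟨n, h, rfl⟩
  · rw [if_neg, if_neg h]; rintro ⟨a, ha, rfl⟩; exact h ha

theorem charFn_eq_zero_iff (S : Set ℕ) (n : ℕ) : charFn S n = 0 ↔ n ∉ S := by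
  classical
  rw [charFn_nat]; by_cases h : n ∈ S <;> simp [h]

theorem charFn_eq_one_iff (S : Set ℕ) (n : ℕ) : charFn S n = 1 ↔ n ∈ S := by
  classical
  rw [charFn_nat]; by_cases h : n ∈ S <;> simp [h]

theorem charFn_encode {α : Type} [Encodable α] (S : Set α) (a : α) [Decidable (a ∈ S)] :
    charFn S (encode a) = if a ∈ S then 1 else 0 := by
  classical
  unfold charFn
  by_cases h : a ∈ S
  · rw [if_pos, if_pos h]; exact ⟨a, h, rfl⟩
  · rw [if_neg, if_neg h]; rintro ⟨b, hb, he⟩
    exact h (encode_injective he ▸ hb)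

theorem charFn_encode_eq_zero {α : Type} [Encodable α] (S : Set α) (a : α) :
    charFn S (encode a) = 0 ↔ a ∉ S := by
  classical
  rw [charFn_encode]; by_cases h : a ∈ S <;> simp [h]

theorem res_getD (A : ℕ → ℕ) {t n : ℕ} (h : n < t) (d : ℕ) : (res A t).getD n d = A n := by
  rw [List.getD_eq_getElem?_getD, res_get?, if_pos h]; rfl

theorem res_take (A : ℕ → ℕ) {t u : ℕ} (h : u ≤ t) : (res A t).take u = res A u := by
  obtain ⟨ρ, hρ⟩ := res_prefix A h
  rw [← hρ]
  conv_lhs => rw [← res_length A u]
  simp

/-- A set decided by a computable procedure which looks at a computably bounded part of the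
oracle is computable in the oracle. -/
theorem red_of_dec {α : Type} [Primcodable α] (S : Set α) (A : ℕ → ℕ) (u : α → ℕ)
    (hu : Computable u) (Dec : α → List ℕ → Prop)
    (hDec : ComputablePred fun x : α × List ℕ => Dec x.1 x.2)
    (h : ∀ a, a ∈ S ↔ Dec a (res A (u a))) :
    TuringReducible (charFn S : ℕ →. ℕ) (A : ℕ →. ℕ) := by
  classical
  let inner : (ℕ × List ℕ) → α → Option ℕ := fun x a =>
    if u a ≤ x.2.length then some (if Dec a (x.2.take (u a)) then 1 else 0) else none
  have hinner : Computable₂ inner := by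
    refine c_ite (p_le (hu.comp Computable.snd)
      (c_length (Computable.snd.comp Computable.fst))) ?_ (Computable.const none)
    refine Computable.option_some.comp (c_ite ?_ (Computable.const 1) (Computable.const 0))
    exact p_comp hDec (f := fun y : (ℕ × List ℕ) × α => (y.2, y.1.2.take (u y.2)))
      (Computable.pair Computable.snd (c_take (Computable.snd.comp Computable.fst)
        (hu.comp Computable.snd)))
  let Φ : ℕ × List ℕ → Option ℕ := fun x =>
    (decode₂ α x.1).casesOn (motive := fun _ => Option ℕ) (some 0) (fun a => inner x a)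
  have hΦ : Computable Φ :=
    Computable.option_casesOn (Primrec.decode₂.to_comp.comp Computable.fst)
      (Computable.const (some 0)) hinner
  have key : ∀ n t, (∀ a ∈ decode₂ α n, u a ≤ t) → Φ (n, res A t) = some (charFn S n) := by
    intro n t ht
    simp only [Φ]
    rcases hn : decode₂ α n with _ | a
    · simp only [Option.some.injEq]
      unfold charFn
      rw [if_neg]
      rintro ⟨a, _, rfl⟩
      simp at hn
    · have ha : encode a = n := mem_decode₂.1 hn
      have hu' : u a ≤ t := ht a hn
      simp only [inner, res_length, if_pos hu', Option.some.injEq, res_take A hu']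
      rw [← ha, charFn_encode]
      by_cases haS : a ∈ S
      · rw [if_pos ((h a).1 haS), if_pos haS]
      · rw [if_neg (fun hc => haS ((h a).2 hc)), if_neg haS]
  refine reducible_of_approx A (charFn S) Φ hΦ ?_ ?_
  · intro n t y hy
    by_cases ht : ∀ a ∈ decode₂ α n, u a ≤ t
    · rw [key n t ht] at hy
      exact (Option.some.inj hy).symm
    · push Not at ht
      obtain ⟨a, ha, hlt⟩ := ht
      have ha' : decode₂ α n = some a := ha
      simp only [Φ, ha', inner, res_length] at hy
      rw [if_neg (by omega)] at hy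
      exact absurd hy (by simp)
  · intro n
    rcases hn : decode₂ α n with _ | a
    · refine ⟨0, ?_⟩
      rw [key n 0 (by simp [hn])]; simp
    · refine ⟨u a, ?_⟩
      rw [key n (u a) ?_]
      · simp
      · intro b hb
        rw [hn] at hb
        rw [Option.mem_some_iff.1 hb]

/-- A function which can be computed after a successful search, each step of the search looking
at a finite part of the oracle, is computable in the oracle. -/
theorem reducible_of_search (A F : ℕ → ℕ) (Cond : ℕ → ℕ → List ℕ → Prop)
    (hCond : ComputablePred fun x : (ℕ × ℕ) × List ℕ => Cond x.1.1 x.1.2 x.2)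
    (G : ℕ → ℕ → ℕ) (hG : Computable₂ G)
    (h1 : ∀ n s t, Cond n s (res A t) → F n = G n s)
    (h2 : ∀ n, ∃ s t, Cond n s (res A t)) :
    TuringReducible (F : ℕ →. ℕ) (A : ℕ →. ℕ) := by
  classical
  let L : ℕ × List ℕ → List ℕ := fun x =>
    (List.range x.2.length).filter (fun m => Cond x.1 m.unpair.1 (x.2.take m.unpair.2))
  have hL : Computable L := by
    have e1 : Computable (fun y : (ℕ × List ℕ) × ℕ =>
        ((y.1.1, y.2.unpair.1), y.1.2.take y.2.unpair.2)) :=
      Computable.pair (Computable.pair (Computable.fst.comp Computable.fst)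
        (Computable.fst.comp (Computable.unpair.comp Computable.snd)))
        (c_take (Computable.snd.comp Computable.fst)
          (Computable.snd.comp (Computable.unpair.comp Computable.snd)))
    exact c_filter (p := fun (x : ℕ × List ℕ) m => Cond x.1 m.unpair.1 (x.2.take m.unpair.2))
      (c_range (c_length Computable.snd)) (p_comp hCond e1)
  let Φ : ℕ × List ℕ → Option ℕ := fun x => (L x).head?.map (fun m => G x.1 m.unpair.1)
  have hΦ : Computable Φ := by
    refine Computable.option_map (Primrec.list_head?.to_comp.comp hL) ?_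
    exact hG.comp (Computable.fst.comp Computable.fst)
      (Computable.fst.comp (Computable.unpair.comp Computable.snd))
  have hmem : ∀ n t m, m ∈ L (n, res A t) ↔ m < t ∧ Cond n m.unpair.1 (res A m.unpair.2) := by
    intro n t m
    simp only [L, List.mem_filter, List.mem_range, res_length, decide_eq_true_eq]
    constructor
    · rintro ⟨hm, h⟩
      rw [res_take A (le_trans (Nat.unpair_right_le m) hm.le)] at h
      exact ⟨hm, h⟩
    · rintro ⟨hm, h⟩
      rw [res_take A (le_trans (Nat.unpair_right_le m) hm.le)]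
      exact ⟨hm, h⟩
  refine reducible_of_approx A F Φ hΦ ?_ ?_
  · intro n t y hy
    simp only [Φ, Option.map_eq_some_iff] at hy
    obtain ⟨m, hm, rfl⟩ := hy
    have := (hmem n t m).1 (List.mem_of_mem_head? hm)
    exact (h1 _ _ _ this.2).symm
  · intro n
    obtain ⟨s, t, h⟩ := h2 n
    refine ⟨Nat.pair s t + 1, ?_⟩
    have hm : Nat.pair s t ∈ L (n, res A (Nat.pair s t + 1)) := by
      rw [hmem]
      refine ⟨by omega, ?_⟩
      rw [Nat.unpair_pair]
      exact h
    rcases hL' : L (n, res A (Nat.pair s t + 1)) with _ | ⟨m, l⟩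
    · rw [hL'] at hm
      exact absurd hm List.not_mem_nil
    · simp only [Φ, hL', List.head?_cons, Option.map_some, Option.isSome_some]

theorem deg_eq_iff {α β : Type} [Encodable α] [Encodable β] (S : Set α) (T : Set β) :
    deg S = deg T ↔ TuringReducible (charFn S : ℕ →. ℕ) (charFn T : ℕ →. ℕ) ∧
      TuringReducible (charFn T : ℕ →. ℕ) (charFn S : ℕ →. ℕ) :=
  ⟨fun h => Quotient.exact h, fun h => Quotient.sound h⟩

end Pool.Agent.Lib.MP_3eaa21_lc
end

section

/-! Stage approximations of c.e. predicates. -/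

namespace Pool.Agent.Lib.MP_3eaa21_lc

open Encodable Nat.Partrec

variable {α : Type*} [Primcodable α]

theorem exists_stage {p : α → Prop} (hp : REPred p) :
    ∃ St : ℕ → α → Prop, ComputablePred (fun x : ℕ × α => St x.1 x.2) ∧
      (∀ s t a, s ≤ t → St s a → St t a) ∧ ∀ a, p a ↔ ∃ s, St s a := by
  obtain ⟨c, hc⟩ := Code.exists_code.1 hp
  refine ⟨fun s a => (Code.evaln s c (encode a)).isSome = true, ?_, ?_, ?_⟩
  · have h1 : Computable fun x : ℕ × α => Code.evaln x.1 c (encode x.2) := by
      have h0 : Computable (fun x : ℕ × α => ((x.1, c), encode x.2)) :=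
        Computable.pair (Computable.pair Computable.fst (Computable.const c))
          (Computable.encode.comp Computable.snd)
      exact Code.primrec_evaln.to_comp.comp h0
    exact p_bool (Primrec.option_isSome.to_comp.comp h1)
  · intro s t a hst h
    rw [Option.isSome_iff_exists] at *
    obtain ⟨b, hb⟩ := h
    exact ⟨b, Code.evaln_mono hst hb⟩
  · intro a
    have h1 : p a ↔ (Code.eval c (encode a)).Dom := by
      rw [hc]
      simp [Part.assert]
    rw [h1]
    constructor
    · intro h
      obtain ⟨s, hs⟩ := Code.evaln_complete.1 (Part.get_mem h)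
      exact ⟨s, Option.isSome_iff_exists.2 ⟨_, hs⟩⟩
    · rintro ⟨s, hs⟩
      rw [Option.isSome_iff_exists] at hs
      obtain ⟨b, hb⟩ := hs
      exact (Code.evaln_sound hb).1

theorem re_of_stage {p : α → Prop} (St : α → ℕ → Prop)
    (hSt : ComputablePred (fun x : α × ℕ => St x.1 x.2)) (h : ∀ a, p a ↔ ∃ s, St a s) :
    REPred p := by
  classical
  have h1 : Partrec (fun a => Nat.rfind fun n => Part.some (decide (St a n))) :=
    Partrec.rfind (p := fun a n => Part.some (decide (St a n))) hSt.decide.partrec
  refine h1.dom_re.of_eq fun a => ?_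
  rw [h a]
  refine Nat.rfind_dom.trans ?_
  constructor
  · rintro ⟨n, hn, -⟩
    exact ⟨n, of_decide_eq_true (Part.mem_some_iff.1 hn).symm⟩
  · rintro ⟨n, hn⟩
    exact ⟨n, Part.mem_some_iff.2 (decide_eq_true hn).symm, fun _ => trivial⟩

theorem re_comp {β : Type*} [Primcodable β] {p : β → Prop} (hp : REPred p) {f : α → β}
    (hf : Computable f) : REPred fun a => p (f a) := by
  obtain ⟨St, h1, -, h3⟩ := exists_stage hp
  refine re_of_stage (fun a s => St s (f a)) ?_ (fun a => h3 (f a))
  exact p_comp h1 (f := fun x : α × ℕ => (x.2, f x.1))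
    (Computable.pair Computable.snd (hf.comp Computable.fst))

/-- existential quantification over the natural numbers -/
theorem re_exists {p : α → ℕ → Prop} (hp : REPred fun x : α × ℕ => p x.1 x.2) :
    REPred fun a => ∃ n, p a n := by
  obtain ⟨St, h1, -, h3⟩ := exists_stage hp
  refine re_of_stage (fun a s => St s.unpair.1 (a, s.unpair.2)) ?_ (fun a => ?_)
  · exact p_comp h1 (f := fun x : α × ℕ => (x.2.unpair.1, (x.1, x.2.unpair.2)))
      (Computable.pair (Computable.fst.comp (Computable.unpair.comp Computable.snd))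
        (Computable.pair Computable.fst (Computable.snd.comp (Computable.unpair.comp Computable.snd))))
  · constructor
    · rintro ⟨n, hn⟩
      obtain ⟨s, hs⟩ := (h3 (a, n)).1 hn
      exact ⟨Nat.pair s n, by simpa using hs⟩
    · rintro ⟨s, hs⟩
      exact ⟨s.unpair.2, (h3 (a, s.unpair.2)).2 ⟨s.unpair.1, hs⟩⟩

theorem re_and {p q : α → Prop} (hp : REPred p) (hq : REPred q) :
    REPred fun a => p a ∧ q a := by
  obtain ⟨S, h1, m1, h3⟩ := exists_stage hp
  obtain ⟨T, k1, m2, k3⟩ := exists_stage hq
  refine re_of_stage (fun a s => S s a ∧ T s a) ?_ (fun a => ?_)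
  · have e : Computable (fun x : α × ℕ => (x.2, x.1)) := Computable.pair Computable.snd Computable.fst
    exact p_and (p_comp h1 e) (p_comp k1 e)
  · rw [h3, k3]
    constructor
    · rintro ⟨⟨s, hs⟩, ⟨t, ht⟩⟩
      exact ⟨max s t, m1 _ _ _ (le_max_left _ _) hs, m2 _ _ _ (le_max_right _ _) ht⟩
    · rintro ⟨s, hs, ht⟩
      exact ⟨⟨s, hs⟩, ⟨s, ht⟩⟩

theorem re_or {p q : α → Prop} (hp : REPred p) (hq : REPred q) :
    REPred fun a => p a ∨ q a := by
  obtain ⟨S, h1, m1, h3⟩ := exists_stage hp
  obtain ⟨T, k1, m2, k3⟩ := exists_stage hq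
  refine re_of_stage (fun a s => S s a ∨ T s a) ?_ (fun a => ?_)
  · have e : Computable (fun x : α × ℕ => (x.2, x.1)) := Computable.pair Computable.snd Computable.fst
    exact p_or (p_comp h1 e) (p_comp k1 e)
  · rw [h3, k3]
    constructor
    · rintro (⟨s, hs⟩ | ⟨t, ht⟩)
      · exact ⟨s, Or.inl hs⟩
      · exact ⟨t, Or.inr ht⟩
    · rintro ⟨s, hs | ht⟩
      · exact Or.inl ⟨s, hs⟩
      · exact Or.inr ⟨s, ht⟩

end Pool.Agent.Lib.MP_3eaa21_lc
end
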