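import Pool.Agent.Lib.MP_3eaa21_lc.RE

/-! If `L(P)*` is finite and not complemented then `Ext(P)` computes a dominant function;
`Ext(P)` has c.e. degree. -/

namespace Pool.Agent.Lib.MP_3eaa21_lc

open Encodable Set

section tools2

variable {α β σ : Type*} [Primcodable α] [Primcodable β] [Primcodable σ]

theorem c_flatMap {f : α → List β} {h : α → β → List σ} (hf : Computable f)
    (hh : Computable₂ h) : Computable fun a => (f a).flatMap (h a) := by
  have h1 : Computable₂ (fun (a : α) (p : List σ × β) => p.1 ++ h a p.2) :=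
    c_append (Computable.fst.comp Computable.snd)
      (hh.comp Computable.fst (Computable.snd.comp Computable.snd))
  refine (c_foldl hf (Computable.const []) h1).of_eq ?_
  intro a
  have key : ∀ (l : List β) (acc : List σ),
      l.foldl (fun s b => s ++ h a b) acc = acc ++ l.flatMap (h a) := by
    intro l
    induction l with
    | nil => simp
    | cons b l ih => intro acc; simp [ih]
  simpa using key (f a) []

theorem c_count {p : α → ℕ → Prop} [∀ a, DecidablePred (p a)] {g : α → ℕ}
    (hp : ComputablePred fun x : α × ℕ => p x.1 x.2) (hg : Computable g) :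
    Computable fun a => Nat.count (p a) (g a) := by
  refine (c_length (c_filter (p := p) (c_range hg) hp)).of_eq ?_
  intro a
  induction g a with
  | zero => simp
  | succ n ih =>
    rw [List.range_succ, List.filter_append, List.length_append, ih, Nat.count_succ]
    by_cases h : p a n <;> simp [h]

end tools2

/-- the extensions of `σ` by `k` bits -/
def exts (σ : List Bool) (k : ℕ) : List (List Bool) :=
  Nat.rec [σ] (fun _ L => L.flatMap fun τ => [τ ++ [false], τ ++ [true]]) k

theorem exts_zero (σ : List Bool) : exts σ 0 = [σ] := rfl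

theorem exts_succ (σ : List Bool) (k : ℕ) :
    exts σ (k + 1) = (exts σ k).flatMap fun τ => [τ ++ [false], τ ++ [true]] := rfl

theorem mem_exts {σ τ : List Bool} {k : ℕ} :
    τ ∈ exts σ k ↔ σ <+: τ ∧ τ.length = σ.length + k := by
  induction k generalizing τ with
  | zero =>
    rw [exts_zero, List.mem_singleton]
    constructor
    · rintro rfl; exact ⟨List.prefix_rfl, rfl⟩
    · rintro ⟨h1, h2⟩
      exact (h1.eq_of_length (by simpa using h2.symm)).symm
  | succ k ih =>
    rw [exts_succ, List.mem_flatMap]
    constructor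
    · rintro ⟨ρ, hρ, h⟩
      obtain ⟨h1, h2⟩ := ih.1 hρ
      simp only [List.mem_cons, List.not_mem_nil, or_false] at h
      rcases h with rfl | rfl
      · exact ⟨h1.trans (List.prefix_append _ _), by simp [h2]; omega⟩
      · exact ⟨h1.trans (List.prefix_append _ _), by simp [h2]; omega⟩
    · rintro ⟨h1, h2⟩
      have hne : τ ≠ [] := by
        rintro rfl
        rw [List.length_nil] at h2
        omega
      refine ⟨τ.dropLast, ih.2 ⟨?_, by rw [List.length_dropLast]; omega⟩, ?_⟩
      · refine List.prefix_of_prefix_length_le h1 (List.dropLast_prefix _) ?_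
        rw [List.length_dropLast]; omega
      · have h3 := List.dropLast_append_getLast hne
        rcases hb : τ.getLast hne with _ | _
        · rw [hb] at h3; simp [h3]
        · rw [hb] at h3; simp [h3]

theorem comp_exts : Computable₂ exts := by
  have h1 : Computable₂ (fun (x : List Bool × ℕ) (q : ℕ × List (List Bool)) =>
      q.2.flatMap fun τ => [τ ++ [false], τ ++ [true]]) := by
    refine c_flatMap (h := fun _ τ => [τ ++ [false], τ ++ [true]])
      (Computable.snd.comp Computable.snd) ?_
    have e0 : Computable (fun y : ((List Bool × ℕ) × (ℕ × List (List Bool))) × List Bool =>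
        y.2 ++ [false]) := c_append Computable.snd (Computable.const [false])
    have e1 : Computable (fun y : ((List Bool × ℕ) × (ℕ × List (List Bool))) × List Bool =>
        y.2 ++ [true]) := c_append Computable.snd (Computable.const [true])
    exact c_cons e0 (c_cons e1 (Computable.const []))
  exact Computable.nat_rec Computable.snd (c_cons Computable.fst (Computable.const [])) h1

theorem pre_eq_ofFn (x : ℕ → Bool) (n : ℕ) : pre x n = List.ofFn (fun i : Fin n => x i) := by
  apply List.ext_getElem?
  intro k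
  rw [pre_get?, List.getElem?_ofFn]
  by_cases h : k < n <;> simp [h]

theorem isClosed_pre (n : ℕ) (S : Set (List Bool)) : IsClosed {x : ℕ → Bool | pre x n ∈ S} := by
  have h1 : Continuous (fun (x : ℕ → Bool) (i : Fin n) => x i) :=
    continuous_pi fun i => continuous_apply (i : ℕ)
  have h2 : IsClosed {y : Fin n → Bool | List.ofFn y ∈ S} := isClosed_discrete _
  have h3 := h2.preimage h1
  have e : {x : ℕ → Bool | pre x n ∈ S} =
      (fun (x : ℕ → Bool) (i : Fin n) => x i) ⁻¹' {y : Fin n → Bool | List.ofFn y ∈ S} := by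
    ext x
    simp only [Set.mem_ofPred_eq, Set.mem_preimage, pre_eq_ofFn]
  rw [e]
  exact h3

/-- König's lemma -/
theorem mem_ext_paths {T : Set (List Bool)} (hT : IsTree T) (σ : List Bool) :
    σ ∈ Ext (paths T) ↔ ∀ k, ∃ τ ∈ exts σ k, τ ∈ T := by
  constructor
  · rintro ⟨x, hx, hσ⟩ k
    refine ⟨pre x (σ.length + k), mem_exts.2 ⟨?_, pre_length _ _⟩, hx _⟩
    conv_lhs => rw [← hσ]
    exact pre_prefix x (by omega)
  · intro h
    let F : ℕ → Set (ℕ → Bool) := fun k =>
      {x | pre x (σ.length + k) ∈ ({τ | σ <+: τ} ∩ T : Set (List Bool))}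
    have hcl : ∀ k, IsClosed (F k) := fun k => isClosed_pre _ _
    have hmono : ∀ k, F (k + 1) ⊆ F k := by
      rintro k x ⟨h1, h2⟩
      have hp : pre x (σ.length + k) <+: pre x (σ.length + (k + 1)) := pre_prefix x (by omega)
      refine ⟨?_, hT _ _ hp h2⟩
      exact List.prefix_of_prefix_length_le h1 hp (by rw [pre_length]; omega)
    have hne : ∀ k, (F k).Nonempty := by
      intro k
      obtain ⟨τ, hτ, hτT⟩ := h k
      obtain ⟨h1, h2⟩ := mem_exts.1 hτ
      refine ⟨fun i => τ.getD i false, ?_⟩
      have : pre (fun i => τ.getD i false) (σ.length + k) = τ := by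
        apply List.ext_getElem?
        intro i
        rw [pre_get?]
        by_cases hi : i < σ.length + k
        · rw [if_pos hi, List.getD_eq_getElem?_getD, List.getElem?_eq_getElem (by omega)]
          rfl
        · rw [if_neg hi, List.getElem?_eq_none (by omega)]
      have h4 : pre (fun i => τ.getD i false) (σ.length + k) ∈
          ({τ | σ <+: τ} ∩ T : Set (List Bool)) := by
        rw [this]
        exact ⟨h1, hτT⟩
      exact h4
    have := IsCompact.nonempty_iInter_of_sequence_nonempty_isCompact_isClosed F hmono hne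
      ((hcl 0).isCompact) hcl
    obtain ⟨x, hx⟩ := this
    rw [Set.mem_iInter] at hx
    refine ⟨x, ?_, ?_⟩
    · intro n
      have h1 := (hx n).2
      exact hT _ _ (pre_prefix x (by omega)) h1
    · have h1 := (hx 0).1
      have h2 : σ <+: pre x (σ.length + 0) := h1
      have := h2.eq_of_length (by rw [pre_length]; omega)
      simpa using this.symm

/-- removing a c.e. open set from a `Π⁰₁` class -/
theorem IsPi01.minus {P : Set (ℕ → Bool)} (hP : IsPi01 P) {W : Set (List Bool)}
    (hW : REPred (· ∈ W)) : IsPi01 {x | x ∈ P ∧ ∀ n, pre x n ∉ W} := by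
  obtain ⟨T, hT, tT, rfl⟩ := hP
  obtain ⟨St, hSt, hmono, hWSt⟩ := exists_stage hW
  refine ⟨{τ | τ ∈ T ∧ ∀ k ≤ τ.length, ¬ St τ.length (τ.take k)}, ?_, ?_, ?_⟩
  · have e1 : Computable (fun y : List Bool × ℕ => (y.1.length, y.1.take y.2)) :=
      Computable.pair (c_length Computable.fst) (c_take Computable.fst Computable.snd)
    have e2 : ComputablePred fun y : List Bool × ℕ => ¬ St y.1.length (y.1.take y.2) :=
      p_not (p_comp hSt e1)
    exact p_and hT (p_all_le (p := fun (τ : List Bool) k => ¬ St τ.length (τ.take k))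
      (c_length Computable.id) e2)
  · rintro σ τ hστ ⟨h1, h2⟩
    refine ⟨tT _ _ hστ h1, fun k hk hc => ?_⟩
    obtain ⟨ρ, rfl⟩ := hστ
    refine h2 k (by rw [List.length_append]; omega) ?_
    rw [List.take_append_of_le_length hk]
    exact hmono _ _ _ (by rw [List.length_append]; omega) hc
  · ext x
    constructor
    · rintro ⟨h1, h2⟩ n
      refine ⟨h1 n, fun k hk hc => ?_⟩
      rw [pre_length] at hk
      rw [pre_take _ hk] at hc
      exact h2 k ((hWSt _).2 ⟨_, hc⟩)
    · intro h
      refine ⟨fun n => (h n).1, fun n hn => ?_⟩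
      obtain ⟨s, hs⟩ := (hWSt _).1 hn
      refine (h (max s n)).2 n (by rw [pre_length]; omega) ?_
      rw [pre_length, pre_take _ (le_max_right _ _)]
      exact hmono _ _ _ (le_max_left _ _) hs

/-- `Ext(P)` is co-c.e. -/
theorem re_not_ext {P : Set (ℕ → Bool)} (hP : IsPi01 P) :
    REPred fun σ : List Bool => σ ∉ Ext P := by
  obtain ⟨T, hT, tT, rfl⟩ := hP
  have h1 : ComputablePred fun x : List Bool × ℕ => ∀ τ ∈ exts x.1 x.2, τ ∉ T :=
    p_all (p := fun _ τ => τ ∉ T) comp_exts (p_not (p_comp hT Computable.snd))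
  refine re_of_stage (fun σ k => ∀ τ ∈ exts σ k, τ ∉ T) h1 (fun σ => ?_)
  rw [mem_ext_paths tT]
  push Not
  rfl

/-- The degree of `Ext(P)` is a c.e. degree. -/
theorem ext_ce_degree {P : Set (ℕ → Bool)} (hP : IsPi01 P) :
    ∃ C : Set ℕ, REPred (· ∈ C) ∧ deg C = deg (Ext P) := by
  classical
  let C : Set ℕ := {n | ∃ σ : List Bool, encode σ = n ∧ σ ∉ Ext P}
  have hC : REPred (· ∈ C) := by
    obtain ⟨St, hSt, -, h⟩ := exists_stage (re_not_ext hP)
    refine re_of_stage (fun n s => ∃ σ ∈ (decode₂ (List Bool) n).toList, St s σ) ?_ (fun n => ?_)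
    · have e1 : Computable (fun x : ℕ × ℕ => (decode₂ (List Bool) x.1).toList) :=
        Primrec.optionToList.to_comp.comp (Primrec.decode₂.to_comp.comp Computable.fst)
      have e2 : ComputablePred fun y : (ℕ × ℕ) × List Bool => St y.1.2 y.2 :=
        p_comp hSt (f := fun y : (ℕ × ℕ) × List Bool => (y.1.2, y.2))
          (Computable.pair (Computable.snd.comp Computable.fst) Computable.snd)
      exact p_ex (p := fun (x : ℕ × ℕ) σ => St x.2 σ) e1 e2
    · constructor
      · rintro ⟨σ, rfl, hσ⟩
        obtain ⟨s, hs⟩ := (h σ).1 hσ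
        exact ⟨s, σ, by simp, hs⟩
      · rintro ⟨s, σ, hσ, hs⟩
        rw [Option.mem_toList] at hσ
        exact ⟨σ, mem_decode₂.1 hσ, (h σ).2 ⟨s, hs⟩⟩
  refine ⟨C, hC, ?_⟩
  rw [deg_eq_iff]
  constructor
  · -- `C ≤ Ext P`
    refine red_of_dec C (charFn (Ext P)) (fun n => n + 1) Computable.succ
      (fun n m => (decode₂ (List Bool) n).isSome = true ∧ m.getD n 1 = 0) ?_ ?_
    · exact p_and (p_bool (Primrec.option_isSome.to_comp.comp
        (Primrec.decode₂.to_comp.comp Computable.fst)))
        (p_eq (c_getD Computable.snd Computable.fst) (Computable.const 0))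
    · intro n
      rw [res_getD _ (by omega)]
      constructor
      · rintro ⟨σ, rfl, hσ⟩
        exact ⟨by simp, (charFn_encode_eq_zero _ _).2 hσ⟩
      · rintro ⟨h1, h2⟩
        obtain ⟨σ, hσ⟩ := Option.isSome_iff_exists.1 h1
        have hn : encode σ = n := mem_decode₂.1 hσ
        refine ⟨σ, hn, ?_⟩
        rw [← hn] at h2
        exact (charFn_encode_eq_zero _ _).1 h2
  · -- `Ext P ≤ C`
    refine red_of_dec (Ext P) (charFn C) (fun σ => encode σ + 1)
      (Computable.succ.comp Computable.encode) (fun σ m => m.getD (encode σ) 1 = 0) ?_ ?_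
    · exact p_eq (c_getD Computable.snd (Computable.encode.comp Computable.fst))
        (Computable.const 0)
    · intro σ
      rw [res_getD _ (by omega), charFn_eq_zero_iff]
      constructor
      · rintro h ⟨τ, hτ, hτ'⟩
        rw [encode_injective hτ] at hτ'
        exact hτ' h
      · intro h
        by_contra hc
        exact h ⟨σ, rfl, hc⟩

theorem exists_reducible_choice (A : ℕ → ℕ) (Cond : ℕ → ℕ → List ℕ → Prop)
    (hCond : ComputablePred fun x : (ℕ × ℕ) × List ℕ => Cond x.1.1 x.1.2 x.2)
    (h : ∀ n, ∃ s t, Cond n s (res A t)) :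
    ∃ F : ℕ → ℕ, TuringReducible (F : ℕ →. ℕ) (A : ℕ →. ℕ) ∧ ∀ n, ∃ t, Cond n (F n) (res A t) := by
  classical
  have hex : ∀ n, ∃ m : ℕ, Cond n m.unpair.1 (res A m.unpair.2) := by
    intro n
    obtain ⟨s, t, hst⟩ := h n
    exact ⟨Nat.pair s t, by simpa using hst⟩
  refine ⟨fun n => (Nat.find (hex n)).unpair.1, ?_, fun n => ⟨_, Nat.find_spec (hex n)⟩⟩
  have e0 : Computable (fun x : (ℕ × ℕ) × List ℕ =>
      ((x.1.1, x.1.2.unpair.1), x.2.take x.1.2.unpair.2)) :=
    Computable.pair (Computable.pair (Computable.fst.comp Computable.fst)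
      (Computable.fst.comp (Computable.unpair.comp (Computable.snd.comp Computable.fst))))
      (c_take Computable.snd
        (Computable.snd.comp (Computable.unpair.comp (Computable.snd.comp Computable.fst))))
  have e1 : ComputablePred fun x : (ℕ × ℕ) × List ℕ =>
      Cond x.1.1 x.1.2.unpair.1 (x.2.take x.1.2.unpair.2) := p_comp hCond e0
  have e2 : Computable (fun y : ((ℕ × ℕ) × List ℕ) × ℕ => ((y.1.1.1, y.2), y.1.2)) :=
    Computable.pair (Computable.pair (Computable.fst.comp (Computable.fst.comp Computable.fst))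
      Computable.snd) (Computable.snd.comp Computable.fst)
  have e3 : ComputablePred fun y : ((ℕ × ℕ) × List ℕ) × ℕ =>
      ¬ Cond y.1.1.1 y.2.unpair.1 (y.1.2.take y.2.unpair.2) := p_not (p_comp e1 e2)
  refine reducible_of_search A _ (fun n m σ => m ≤ σ.length ∧
    Cond n m.unpair.1 (σ.take m.unpair.2) ∧
    ∀ m' < m, ¬ Cond n m'.unpair.1 (σ.take m'.unpair.2)) ?_ (fun _ m => m.unpair.1) ?_ ?_ ?_
  · refine p_and (p_le (Computable.snd.comp Computable.fst) (c_length Computable.snd))
      (p_and e1 ?_)
    exact p_all_lt (p := fun (x : (ℕ × ℕ) × List ℕ) m' =>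
      ¬ Cond x.1.1 m'.unpair.1 (x.2.take m'.unpair.2)) (Computable.snd.comp Computable.fst) e3
  · exact Computable.fst.comp (Computable.unpair.comp Computable.snd)
  · rintro n m t ⟨h1, h2, h3⟩
    rw [res_length] at h1
    have hm : Nat.find (hex n) = m := by
      rw [Nat.find_eq_iff]
      refine ⟨?_, ?_⟩
      · rw [res_take _ (le_trans (Nat.unpair_right_le m) h1)] at h2
        exact h2
      · intro m' hm' hc
        refine h3 m' hm' ?_
        rw [res_take _ (le_trans (Nat.unpair_right_le m') (by omega))]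
        exact hc
    simp only [hm]
  · intro n
    refine ⟨Nat.find (hex n), Nat.find (hex n), by rw [res_length], ?_, ?_⟩
    · rw [res_take _ (Nat.unpair_right_le _)]
      exact Nat.find_spec (hex n)
    · intro m' hm'
      rw [res_take _ (le_trans (Nat.unpair_right_le m') hm'.le)]
      exact Nat.find_min (hex n) hm'

end Pool.Agent.Lib.MP_3eaa21_lc
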