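import Mathlib
import Pool.Agent.Lib.MP_3eaa21_lc.Tools
import Pool.Agent.Lib.MP_3eaa21_lc.RE

section

/-! Finite injury construction of the main path of a decidable minimal `Π⁰₁` class. -/

namespace Pool.Agent.Lib.MP_3eaa21_lc

open Encodable Nat.Partrec

namespace MainPath

/-- `σ` is enumerated in the `e`-th c.e. set of strings by stage `s` -/
def Wst (e s : ℕ) (σ : List Bool) : Prop :=
  (Code.evaln s (Denumerable.ofNat Code e) (encode σ)).isSome = true

theorem Wst.mono {e s t : ℕ} {σ : List Bool} (h : Wst e s σ) (hst : s ≤ t) : Wst e t σ := by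
  unfold Wst at *
  rw [Option.isSome_iff_exists] at *
  obtain ⟨a, ha⟩ := h
  exact ⟨a, Code.evaln_mono hst ha⟩

theorem computablePred_Wst :
    ComputablePred fun x : (ℕ × ℕ) × List Bool => Wst x.1.1 x.1.2 x.2 := by
  have h1 : Computable fun x : (ℕ × ℕ) × List Bool =>
      Code.evaln x.1.2 (Denumerable.ofNat Code x.1.1) (encode x.2) := by
    have := Code.primrec_evaln.to_comp
    refine this.comp (f := Code × ℕ |> fun _ => fun a : (ℕ × Code) × ℕ =>
      Code.evaln a.1.1 a.1.2 a.2)
      (g := fun x : (ℕ × ℕ) × List Bool => ((x.1.2, Denumerable.ofNat Code x.1.1), encode x.2)) ?_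
    refine Computable.pair (Computable.pair (Computable.snd.comp Computable.fst) ?_)
      (Computable.encode.comp Computable.snd)
    exact (Computable.ofNat Code).comp (Computable.fst.comp Computable.fst)
  exact p_bool (Primrec.option_isSome.to_comp.comp h1)

theorem exists_index {W : Set (List Bool)} (hW : REPred (· ∈ W)) :
    ∃ e, ∀ σ, σ ∈ W ↔ ∃ s, Wst e s σ := by
  obtain ⟨c, hc⟩ := Code.exists_code.1 hW
  refine ⟨encode c, fun σ => ?_⟩
  have h1 : σ ∈ W ↔ (Code.eval c (encode σ)).Dom := by
    rw [hc]
    simp [Part.assert]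
  rw [h1]
  unfold Wst
  rw [Denumerable.ofNat_encode]
  constructor
  · intro h
    obtain ⟨s, hs⟩ := Code.evaln_complete.1 (Part.get_mem h)
    exact ⟨s, by rw [Option.isSome_iff_exists]; exact ⟨_, hs⟩⟩
  · rintro ⟨s, hs⟩
    rw [Option.isSome_iff_exists] at hs
    obtain ⟨a, ha⟩ := hs
    exact (Code.evaln_sound ha).1

/-- some prefix of `ζ` is enumerated by stage `s` -/
def InU (e s : ℕ) (ζ : List Bool) : Prop := ∃ k ≤ ζ.length, Wst e s (ζ.take k)

/-- `ζ` respects the satisfaction of `e` by `μ` -/
def Resp (e s : ℕ) (μ ζ : List Bool) : Prop :=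
  InU e s μ → ∃ k ≤ μ.length, Wst e s (μ.take k) ∧ ζ.take k = μ.take k

/-- `ζ` is a witness for `e` at stage `s` -/
def Wit (e s : ℕ) (μ ζ : List Bool) : Prop :=
  InU e s ζ ∧ ¬ InU e s μ ∧ ∀ e' < e, Resp e' s μ ζ

/-- the list of candidates at stage `s` -/
def cand (s : ℕ) (a : List Bool × List (List Bool)) : List (List Bool) :=
  a.2.map (fun z => z ++ [false]) ++ (if s % 2 = 0 then [a.1 ++ [true]] else [])

/-- the transition relation -/
def R (s : ℕ) (a b : List Bool × List (List Bool)) : Prop :=
  b.2 = cand s a ∧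
    ((∃ e ≤ s, (∃ ζ ∈ cand s a, Wit e s (a.1 ++ [false]) ζ ∧ b.1 = ζ) ∧
        ∀ e' < e, ∀ ζ ∈ cand s a, ¬ Wit e' s (a.1 ++ [false]) ζ) ∨
      ((∀ e ≤ s, ∀ ζ ∈ cand s a, ¬ Wit e s (a.1 ++ [false]) ζ) ∧ b.1 = a.1 ++ [false]))

theorem computablePred_InU :
    ComputablePred fun x : (ℕ × ℕ) × List Bool => InU x.1.1 x.1.2 x.2 := by
  unfold InU
  refine p_ex_le (p := fun (x : (ℕ × ℕ) × List Bool) k => Wst x.1.1 x.1.2 (x.2.take k))
    (c_length Computable.snd) ?_
  exact p_comp computablePred_Wst (f := fun y : ((ℕ × ℕ) × List Bool) × ℕ =>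
    (y.1.1, y.1.2.take y.2)) (Computable.pair (Computable.fst.comp Computable.fst)
      (c_take (Computable.snd.comp Computable.fst) Computable.snd))

theorem computablePred_Resp :
    ComputablePred fun x : (ℕ × ℕ) × (List Bool × List Bool) =>
      Resp x.1.1 x.1.2 x.2.1 x.2.2 := by
  unfold Resp
  refine p_imp ?_ ?_
  · exact p_comp computablePred_InU (f := fun x : (ℕ × ℕ) × (List Bool × List Bool) =>
      (x.1, x.2.1)) (Computable.pair Computable.fst (Computable.fst.comp Computable.snd))
  · refine p_ex_le (p := fun (x : (ℕ × ℕ) × (List Bool × List Bool)) k =>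
      Wst x.1.1 x.1.2 (x.2.1.take k) ∧ x.2.2.take k = x.2.1.take k)
      (c_length (Computable.fst.comp Computable.snd)) ?_
    refine p_and ?_ (p_eq ?_ ?_)
    · exact p_comp computablePred_Wst
        (f := fun y : ((ℕ × ℕ) × (List Bool × List Bool)) × ℕ =>
          (y.1.1, y.1.2.1.take y.2)) (Computable.pair (Computable.fst.comp Computable.fst)
        (c_take (Computable.fst.comp (Computable.snd.comp Computable.fst)) Computable.snd))
    · exact c_take (Computable.snd.comp (Computable.snd.comp Computable.fst)) Computable.snd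
    · exact c_take (Computable.fst.comp (Computable.snd.comp Computable.fst)) Computable.snd

theorem computablePred_Wit :
    ComputablePred fun x : (ℕ × ℕ) × (List Bool × List Bool) =>
      Wit x.1.1 x.1.2 x.2.1 x.2.2 := by
  unfold Wit
  refine p_and ?_ (p_and ?_ ?_)
  · exact p_comp computablePred_InU (f := fun x : (ℕ × ℕ) × (List Bool × List Bool) =>
      (x.1, x.2.2)) (Computable.pair Computable.fst (Computable.snd.comp Computable.snd))
  · exact p_not (p_comp computablePred_InU (f := fun x : (ℕ × ℕ) × (List Bool × List Bool) =>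
      (x.1, x.2.1)) (Computable.pair Computable.fst (Computable.fst.comp Computable.snd)))
  · refine p_all_lt (p := fun (x : (ℕ × ℕ) × (List Bool × List Bool)) e' =>
      Resp e' x.1.2 x.2.1 x.2.2) (Computable.fst.comp Computable.fst) ?_
    exact p_comp computablePred_Resp
      (f := fun y : ((ℕ × ℕ) × (List Bool × List Bool)) × ℕ =>
        ((y.2, y.1.1.2), y.1.2))
      (Computable.pair (Computable.pair Computable.snd
        (Computable.snd.comp (Computable.fst.comp Computable.fst)))
        (Computable.snd.comp Computable.fst))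

theorem computable_cand :
    Computable fun x : ℕ × (List Bool × List (List Bool)) => cand x.1 x.2 := by
  unfold cand
  refine c_append ?_ ?_
  · exact c_map (h := fun (_ : ℕ × (List Bool × List (List Bool))) z => z ++ [false])
      (Computable.snd.comp Computable.snd)
      (c_append Computable.snd (Computable.const [false]))
  · refine c_ite (p_eq (c_mod Computable.fst (Computable.const 2)) (Computable.const 0)) ?_
      (Computable.const [])
    exact c_cons (c_append (Computable.fst.comp Computable.snd) (Computable.const [true]))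
      (Computable.const [])

theorem computablePred_R :
    ComputablePred fun x : (ℕ × (List Bool × List (List Bool))) ×
      (List Bool × List (List Bool)) => R x.1.1 x.1.2 x.2 := by
  unfold R
  have hc : Computable fun x : (ℕ × (List Bool × List (List Bool))) ×
      (List Bool × List (List Bool)) => cand x.1.1 x.1.2 := computable_cand.comp Computable.fst
  have hμ : Computable fun x : (ℕ × (List Bool × List (List Bool))) ×
      (List Bool × List (List Bool)) => x.1.2.1 ++ [false] :=
    c_append (Computable.fst.comp (Computable.snd.comp Computable.fst)) (Computable.const [false])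
  have hs : Computable fun x : (ℕ × (List Bool × List (List Bool))) ×
      (List Bool × List (List Bool)) => x.1.1 := Computable.fst.comp Computable.fst
  have hb : Computable fun x : (ℕ × (List Bool × List (List Bool))) ×
      (List Bool × List (List Bool)) => x.2.1 := Computable.fst.comp Computable.snd
  have hW : ComputablePred fun y : (((ℕ × (List Bool × List (List Bool))) ×
      (List Bool × List (List Bool))) × ℕ) × List Bool =>
        Wit y.1.2 y.1.1.1.1 (y.1.1.1.2.1 ++ [false]) y.2 :=
    p_comp computablePred_Wit (f := fun y : (((ℕ × (List Bool × List (List Bool))) ×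
      (List Bool × List (List Bool))) × ℕ) × List Bool =>
        ((y.1.2, y.1.1.1.1), (y.1.1.1.2.1 ++ [false], y.2)))
      (Computable.pair (Computable.pair (Computable.snd.comp Computable.fst)
        (hs.comp (Computable.fst.comp Computable.fst)))
        (Computable.pair (hμ.comp (Computable.fst.comp Computable.fst)) Computable.snd))
  refine p_and (p_eq (Computable.snd.comp Computable.snd) hc) (p_or ?_ (p_and ?_ (p_eq hb hμ)))
  · refine p_ex_le (p := fun (x : (ℕ × (List Bool × List (List Bool))) ×
      (List Bool × List (List Bool))) e =>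
      (∃ ζ ∈ cand x.1.1 x.1.2, Wit e x.1.1 (x.1.2.1 ++ [false]) ζ ∧ x.2.1 = ζ) ∧
        ∀ e' < e, ∀ ζ ∈ cand x.1.1 x.1.2, ¬ Wit e' x.1.1 (x.1.2.1 ++ [false]) ζ) hs ?_
    refine p_and ?_ ?_
    · refine p_ex (p := fun (y : ((ℕ × (List Bool × List (List Bool))) ×
        (List Bool × List (List Bool))) × ℕ) ζ =>
        Wit y.2 y.1.1.1 (y.1.1.2.1 ++ [false]) ζ ∧ y.1.2.1 = ζ) (hc.comp Computable.fst) ?_
      exact p_and hW (p_eq (hb.comp (Computable.fst.comp Computable.fst)) Computable.snd)
    · refine p_all_lt (p := fun (y : ((ℕ × (List Bool × List (List Bool))) ×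
        (List Bool × List (List Bool))) × ℕ) e' =>
        ∀ ζ ∈ cand y.1.1.1 y.1.1.2, ¬ Wit e' y.1.1.1 (y.1.1.2.1 ++ [false]) ζ)
        Computable.snd ?_
      refine p_all (p := fun (z : (((ℕ × (List Bool × List (List Bool))) ×
        (List Bool × List (List Bool))) × ℕ) × ℕ) ζ =>
        ¬ Wit z.2 z.1.1.1.1 (z.1.1.1.2.1 ++ [false]) ζ)
        (hc.comp (Computable.fst.comp Computable.fst)) ?_
      exact p_not (p_comp hW (f := fun w : ((((ℕ × (List Bool × List (List Bool))) ×
        (List Bool × List (List Bool))) × ℕ) × ℕ) × List Bool =>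
        ((w.1.1.1, w.1.2), w.2))
        (Computable.pair (Computable.pair
          (Computable.fst.comp (Computable.fst.comp Computable.fst))
          (Computable.snd.comp Computable.fst)) Computable.snd))
  · refine p_all_le (p := fun (x : (ℕ × (List Bool × List (List Bool))) ×
      (List Bool × List (List Bool))) e =>
      ∀ ζ ∈ cand x.1.1 x.1.2, ¬ Wit e x.1.1 (x.1.2.1 ++ [false]) ζ) hs ?_
    refine p_all (p := fun (y : ((ℕ × (List Bool × List (List Bool))) ×
      (List Bool × List (List Bool))) × ℕ) ζ =>
      ¬ Wit y.2 y.1.1.1 (y.1.1.2.1 ++ [false]) ζ) (hc.comp Computable.fst) ?_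
    exact p_not hW

theorem R_total (s : ℕ) (a : List Bool × List (List Bool)) : ∃ b, R s a b := by
  classical
  by_cases h : ∃ e ≤ s, ∃ ζ ∈ cand s a, Wit e s (a.1 ++ [false]) ζ
  · obtain ⟨h1, ζ, h2, h3⟩ := Nat.find_spec h
    refine ⟨(ζ, cand s a), rfl, Or.inl ⟨Nat.find h, h1, ⟨ζ, h2, h3, rfl⟩, ?_⟩⟩
    intro e' he' ζ' hζ' hw
    exact Nat.find_min h he' ⟨by omega, ζ', hζ', hw⟩
  · refine ⟨(a.1 ++ [false], cand s a), rfl, Or.inr ⟨?_, rfl⟩⟩
    intro e he ζ hζ hw
    exact h ⟨e, he, ζ, hζ, hw⟩

section analysis

variable {F : ℕ → List Bool × List (List Bool)}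

theorem len_inv (h0 : F 0 = ([], [[]])) (hR : ∀ s, R s (F s) (F (s + 1))) (s : ℕ) :
    (F s).1.length = s ∧ ∀ ζ ∈ (F s).2, ζ.length = s := by
  induction s with
  | zero => simp [h0]
  | succ s ih =>
    obtain ⟨ih1, ih2⟩ := ih
    have hc : ∀ ζ ∈ cand s (F s), ζ.length = s + 1 := by
      intro ζ hζ
      unfold cand at hζ
      rw [List.mem_append, List.mem_map] at hζ
      rcases hζ with ⟨z, hz, rfl⟩ | hζ
      · simp [ih2 z hz]
      · split_ifs at hζ
        · rw [List.mem_singleton] at hζ
          simp [hζ, ih1]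
        · simp at hζ
    obtain ⟨hR1, hR2⟩ := hR s
    refine ⟨?_, by rw [hR1]; exact hc⟩
    rcases hR2 with ⟨e, _, ⟨ζ, hζ, _, h⟩, _⟩ | ⟨_, h⟩
    · rw [h]; exact hc ζ hζ
    · rw [h]; simp [ih1]

theorem cand_mem (h0 : F 0 = ([], [[]])) (hR : ∀ s, R s (F s) (F (s + 1))) (s : ℕ)
    (ζ : List Bool) :
    ζ ∈ (F s).2 ↔ ζ = List.replicate s false ∨
      ∃ i < s, Even i ∧ ζ = (F i).1 ++ true :: List.replicate (s - 1 - i) false := by
  induction s generalizing ζ with
  | zero => simp [h0]
  | succ s ih =>
    rw [(hR s).1, cand, List.mem_append, List.mem_map]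
    constructor
    · rintro (⟨z, hz, rfl⟩ | hζ)
      · rw [ih] at hz
        rcases hz with rfl | ⟨i, hi, hev, rfl⟩
        · left
          rw [List.replicate_succ']
        · right
          refine ⟨i, by omega, hev, ?_⟩
          rw [List.append_assoc, List.cons_append, ← List.replicate_succ']
          congr 3
          omega
      · split_ifs at hζ with h
        · rw [List.mem_singleton] at hζ
          right
          refine ⟨s, by omega, Nat.even_iff.2 h, ?_⟩
          rw [hζ]
          simp
        · simp at hζ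
    · rintro (rfl | ⟨i, hi, hev, rfl⟩)
      · left
        exact ⟨_, (ih _).2 (Or.inl rfl), by rw [List.replicate_succ']⟩
      · by_cases his : i = s
        · subst his
          right
          rw [if_pos (Nat.even_iff.1 hev)]
          simp
        · left
          refine ⟨_, (ih _).2 (Or.inr ⟨i, by omega, hev, rfl⟩), ?_⟩
          rw [List.append_assoc, List.cons_append, ← List.replicate_succ']
          congr 3
          omega

/-- the extension of the current path -/
def mu (F : ℕ → List Bool × List (List Bool)) (s : ℕ) : List Bool := (F s).1 ++ [false]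

/-- `e` acts at `s` -/
def Acts (F : ℕ → List Bool × List (List Bool)) (e s : ℕ) : Prop :=
  e ≤ s ∧ (∃ ζ ∈ (F (s + 1)).2, Wit e s (mu F s) ζ ∧ (F (s + 1)).1 = ζ)

theorem acts_or (hR : ∀ s, R s (F s) (F (s + 1))) (s : ℕ) :
    (∃ e, Acts F e s ∧ ∀ e' < e, ∀ ζ ∈ (F (s + 1)).2, ¬ Wit e' s (mu F s) ζ) ∨
      ((∀ e ≤ s, ∀ ζ ∈ (F (s + 1)).2, ¬ Wit e s (mu F s) ζ) ∧ (F (s + 1)).1 = mu F s) := by
  obtain ⟨hR1, hR2⟩ := hR s
  rw [← hR1] at hR2
  rcases hR2 with ⟨e, he, h1, h2⟩ | h
  · exact Or.inl ⟨e, ⟨he, h1⟩, h2⟩
  · exact Or.inr h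

theorem InU.append {e s : ℕ} {ζ τ : List Bool} (h : InU e s ζ) : InU e s (ζ ++ τ) := by
  obtain ⟨k, hk, hW⟩ := h
  refine ⟨k, by simp; omega, ?_⟩
  rwa [List.take_append_of_le_length hk]

theorem InU.mono {e s t : ℕ} {ζ : List Bool} (h : InU e s ζ) (hst : s ≤ t) : InU e t ζ := by
  obtain ⟨k, hk, hW⟩ := h
  exact ⟨k, hk, hW.mono hst⟩

/-- `e` is satisfied at stage `s` -/
def Sat (F : ℕ → List Bool × List (List Bool)) (e s : ℕ) : Prop := InU e s (mu F s)

theorem mu_length (h0 : F 0 = ([], [[]])) (hR : ∀ s, R s (F s) (F (s + 1))) (s : ℕ) :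
    (mu F s).length = s + 1 := by
  simp [mu, (len_inv h0 hR s).1]

theorem sat_of_acts {e s : ℕ} (h : Acts F e s) : Sat F e (s + 1) := by
  obtain ⟨_, ζ, _, hw, h⟩ := h
  unfold Sat mu
  rw [h]
  exact (hw.1.append).mono (by omega)

theorem not_sat_of_acts {e s : ℕ} (h : Acts F e s) : ¬ Sat F e s := by
  obtain ⟨_, ζ, _, hw, h⟩ := h
  exact hw.2.1

/-- persistence -/
theorem persist (h0 : F 0 = ([], [[]])) (hR : ∀ s, R s (F s) (F (s + 1))) {e s : ℕ}
    (hs : Sat F e s) (hno : ∀ e' ≤ e, ¬ Acts F e' s) :
    ∃ k ≤ s + 1, Wst e s ((mu F s).take k) ∧ (mu F (s + 1)).take k = (mu F s).take k := by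
  rcases acts_or hR s with ⟨e₁, hact, -⟩ | ⟨-, h⟩
  · have he : e < e₁ := by
      by_contra hlt
      exact hno e₁ (by omega) hact
    obtain ⟨_, ζ, hζ, hw, h⟩ := hact
    obtain ⟨k, hk, hW, hz⟩ := hw.2.2 e he hs
    rw [mu_length h0 hR] at hk
    refine ⟨k, hk, hW, ?_⟩
    rw [← hz]
    unfold mu
    rw [h, List.take_append_of_le_length]
    rw [(len_inv h0 hR (s + 1)).2 ζ hζ]
    exact hk
  · obtain ⟨k, hk, hW⟩ := hs
    rw [mu_length h0 hR] at hk
    refine ⟨k, hk, hW, ?_⟩
    rw [show mu F (s + 1) = mu F s ++ [false] by rw [mu, h], List.take_append_of_le_length]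
    rw [mu_length h0 hR]
    exact hk

theorem claim (h0 : F 0 = ([], [[]])) (hR : ∀ s, R s (F s) (F (s + 1))) (e : ℕ) :
    ∃ s₀, (∀ s ≥ s₀, ¬ Acts F e s) ∧ ((∀ s ≥ s₀, ¬ Sat F e s) ∨
      ∃ k ≤ s₀ + 1, ∃ τ, ∀ s ≥ s₀, (mu F s).take k = τ ∧ Wst e s τ) := by
  induction e using Nat.strong_induction_on with
  | _ e ih =>
    choose! S hS using ih
    -- a bound beyond all higher priority action
    let s₁ := (Finset.range e).sup S
    have hs₁ : ∀ e' < e, ∀ s ≥ s₁, ¬ Acts F e' s := by
      intro e' he' s hs
      have : S e' ≤ s₁ := Finset.le_sup (f := S) (Finset.mem_range.2 he')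
      exact (hS e' he').1 s (by omega)
    by_cases hA : ∀ s ≥ s₁, ¬ Sat F e s
    · refine ⟨s₁, ?_, Or.inl hA⟩
      intro s hs hact
      exact hA (s + 1) (by omega) (sat_of_acts hact)
    · push Not at hA
      obtain ⟨s₂, hs₂, hsat⟩ := hA
      have hall : ∀ s ≥ s₂, Sat F e s := by
        intro s hs
        induction s, hs using Nat.le_induction with
        | base => exact hsat
        | succ s hs ih =>
          obtain ⟨k, hk, hW, heq⟩ := persist h0 hR ih (by
            intro e' he'
            rcases he'.lt_or_eq with h | h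
            · exact hs₁ e' h s (by omega)
            · subst h
              intro hact
              exact not_sat_of_acts hact ih)
          refine ⟨k, ?_, ?_⟩
          · rw [mu_length h0 hR]; omega
          · rw [heq]; exact hW.mono (by omega)
      have hno : ∀ s ≥ s₂, ∀ e' ≤ e, ¬ Acts F e' s := by
        intro s hs e' he'
        rcases he'.lt_or_eq with h | h
        · exact hs₁ e' h s (by omega)
        · subst h
          intro hact
          exact not_sat_of_acts hact (hall s hs)
      have hex : ∃ k, ∃ s ≥ s₂, k ≤ s + 1 ∧ Wst e s ((mu F s).take k) := by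
        obtain ⟨k, hk, hW⟩ := hsat
        rw [mu_length h0 hR] at hk
        exact ⟨k, s₂, le_rfl, hk, hW⟩
      classical
      obtain ⟨t, ht, hkt, hWt⟩ := Nat.find_spec hex
      have hmin := fun m hm => Nat.find_min hex (m := m) hm
      generalize Nat.find hex = k₀ at *
      refine ⟨t, fun s hs => hno s (by omega) e le_rfl, Or.inr ⟨k₀, hkt, (mu F t).take k₀, ?_⟩⟩
      intro s hs
      refine ⟨?_, hWt.mono hs⟩
      induction s, hs using Nat.le_induction with
      | base => rfl
      | succ s hs ih =>
        obtain ⟨k, hk, hW, heq⟩ := persist h0 hR (hall s (by omega)) (hno s (by omega))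
        have hk₀ : k₀ ≤ k := by
          by_contra hlt
          exact hmin k (by omega) ⟨s, by omega, hk, hW⟩
        have : ((mu F (s + 1)).take k).take k₀ = ((mu F s).take k).take k₀ := by rw [heq]
        rw [List.take_take, List.take_take, min_eq_left hk₀] at this
        rw [this, ih]

theorem take_mu {k s : ℕ} (h0 : F 0 = ([], [[]])) (hR : ∀ s, R s (F s) (F (s + 1)))
    (hks : k ≤ s) : (mu F s).take k = (F s).1.take k := by
  unfold mu
  rw [List.take_append_of_le_length]
  rw [(len_inv h0 hR s).1]
  exact hks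

theorem converges (h0 : F 0 = ([], [[]])) (hR : ∀ s, R s (F s) (F (s + 1))) (n : ℕ) :
    ∃ s₀, ∀ s ≥ s₀, (F s).1.take n = (F s₀).1.take n := by
  obtain ⟨e, he⟩ := exists_index (W := {σ : List Bool | n ≤ σ.length})
    (p_le (Computable.const n) (c_length Computable.id)).to_re
  simp only [Set.mem_ofPred_eq] at he
  obtain ⟨s₀, -, h⟩ := claim h0 hR e
  rcases h with hA | ⟨k, hk, τ, hB⟩
  · exfalso
    have hfin : {σ : List Bool | σ.length = n}.Finite := List.finite_length_eq Bool n
    have hex : ∀ σ ∈ {σ : List Bool | σ.length = n}, ∃ s, Wst e s σ := by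
      intro σ hσ
      exact (he σ).1 (le_of_eq hσ.symm)
    choose! S hS using hex
    have hb : ∃ s₃, ∀ σ : List Bool, σ.length = n → Wst e s₃ σ := by
      refine ⟨hfin.toFinset.sup S, fun σ hσ => (hS σ hσ).mono ?_⟩
      exact Finset.le_sup (f := S) (hfin.mem_toFinset.2 hσ)
    obtain ⟨s₃, hs₃⟩ := hb
    apply hA (max s₀ (max s₃ n)) (le_max_left _ _)
    refine ⟨n, ?_, ?_⟩
    · rw [mu_length h0 hR]
      have := le_max_right s₃ n
      have := le_max_right s₀ (max s₃ n)
      omega
    · refine (hs₃ _ ?_).mono ((le_max_left _ _).trans (le_max_right _ _))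
      rw [List.length_take, mu_length h0 hR]
      have := le_max_right s₃ n
      have := le_max_right s₀ (max s₃ n)
      omega
  · have hτ : n ≤ τ.length := (he τ).2 ⟨s₀, (hB s₀ le_rfl).2⟩
    have hkn : n ≤ k := by
      rw [← (hB s₀ le_rfl).1, List.length_take] at hτ
      omega
    refine ⟨max s₀ n, fun s hs => ?_⟩
    have hs1 : s₀ ≤ s := (le_max_left _ _).trans hs
    have hs2 : n ≤ s := (le_max_right _ _).trans hs
    rw [← take_mu h0 hR hs2, ← take_mu h0 hR (le_max_right s₀ n)]
    have h1 := (hB s hs1).1
    have h2 := (hB (max s₀ n) (le_max_left _ _)).1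
    have h3 : ((mu F s).take k).take n = ((mu F (max s₀ n)).take k).take n := by rw [h1, h2]
    rwa [List.take_take, List.take_take, min_eq_left hkn] at h3

theorem dichotomy (h0 : F 0 = ([], [[]])) (hR : ∀ s, R s (F s) (F (s + 1)))
    (W : Set (List Bool)) (hW : REPred (· ∈ W)) :
    (∃ n s₀, ∀ s ≥ s₀, (F s).1.take n ∈ W) ∨
      (∃ s₀, ∀ i ≥ s₀, Even i → ∀ n σ,
        σ <+: (F i).1 ++ true :: List.replicate n false → σ ∉ W) := by
  obtain ⟨e, he⟩ := exists_index hW
  have hcl := claim h0 hR
  choose S hS1 hS2 using hcl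
  rcases hS2 e with hA | ⟨k, hk, τ, hB⟩
  · right
    -- a bound beyond all the relevant stages
    let s₁ := (Finset.range (e + 1)).sup (fun e' => S e' + 1)
    have hs₁ : ∀ e' ≤ e, S e' + 1 ≤ s₁ := by
      intro e' he'
      exact Finset.le_sup (f := fun e' => S e' + 1) (Finset.mem_range.2 (by omega))
    refine ⟨s₁, ?_⟩
    intro i hi hev n σ hσ hmem
    obtain ⟨s', hs'⟩ := (he σ).1 hmem
    obtain ⟨s, hs⟩ : ∃ s, s = s' + i + n + e := ⟨_, rfl⟩
    let ζ := (F i).1 ++ true :: List.replicate (s - i) false
    have hζ : ζ ∈ (F (s + 1)).2 := by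
      rw [cand_mem h0 hR]
      right
      refine ⟨i, by omega, hev, ?_⟩
      simp only [ζ]
      congr 3
    have hσζ : σ <+: ζ := by
      refine hσ.trans ?_
      simp only [ζ]
      refine List.prefix_append_right_inj _ |>.2 ?_
      rw [List.cons_prefix_cons]
      refine ⟨rfl, ?_⟩
      refine ⟨List.replicate (s - i - n) false, ?_⟩
      rw [List.replicate_append_replicate]
      congr 1
      omega
    have hInU : InU e s ζ := by
      refine ⟨σ.length, hσζ.length_le, ?_⟩
      rw [← List.prefix_iff_eq_take.1 hσζ]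
      exact hs'.mono (by omega)
    have hwit : Wit e s (mu F s) ζ := by
      refine ⟨hInU, hA s (by have := hs₁ e le_rfl; omega), ?_⟩
      intro e' he' hsat
      have hb := hs₁ e' he'.le
      rcases hS2 e' with hA' | ⟨k, hk, τ, hB⟩
      · exact absurd hsat (hA' s (by omega))
      · have h1 := hB s (by omega)
        have h2 := hB i (by omega)
        refine ⟨k, ?_, ?_, ?_⟩
        · rw [mu_length h0 hR]; omega
        · rw [h1.1]; exact h1.2
        · rw [h1.1, ← h2.1, take_mu h0 hR (by omega)]
          simp only [ζ]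
          rw [List.take_append_of_le_length]
          rw [(len_inv h0 hR i).1]
          omega
    rcases acts_or hR s with ⟨e₁, hact, hmin⟩ | ⟨hno, -⟩
    · have : e₁ ≤ e := by
        by_contra hlt
        exact hmin e (by omega) ζ hζ hwit
      exact hS1 e₁ s (by have := hs₁ e₁ this; omega) hact
    · exact hno e (by omega) ζ hζ hwit
  · left
    refine ⟨k, max (S e) k, fun s hs => ?_⟩
    have hs1 : S e ≤ s := (le_max_left _ _).trans hs
    have hs2 : k ≤ s := (le_max_right _ _).trans hs
    rw [← take_mu h0 hR hs2, (hB s hs1).1]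
    exact (he τ).2 ⟨s, (hB s hs1).2⟩

end analysis

end MainPath

open MainPath in
/-- The main path of a decidable minimal `Π⁰₁` class. -/
theorem exists_main_path : ∃ ν : ℕ → List Bool, Computable ν ∧ (∀ s, (ν s).length = s) ∧
    (∀ s, ν (s + 1) = ν s ++ [false] ∨ ν (s + 1) = List.replicate (s + 1) false ∨
      ∃ i ≤ s, Even i ∧ ν (s + 1) = ν i ++ true :: List.replicate (s - i) false) ∧
    (∀ n, ∃ s₀, ∀ s ≥ s₀, (ν s).take n = (ν s₀).take n) ∧
    ∀ W : Set (List Bool), REPred (· ∈ W) →
      (∃ n s₀, ∀ s ≥ s₀, (ν s).take n ∈ W) ∨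
      (∃ s₀, ∀ i ≥ s₀, Even i → ∀ n σ, σ <+: ν i ++ true :: List.replicate n false → σ ∉ W) := by
  obtain ⟨F, hF, h0, hR, -⟩ := exists_computable_seq
    (R := R) (Inv := fun _ _ => True)
    (([], [[]]) : List Bool × List (List Bool)) computablePred_R trivial
    (fun _ _ _ _ _ => trivial) (fun s a _ => R_total s a)
  refine ⟨fun s => (F s).1, Computable.fst.comp hF, fun s => (len_inv h0 hR s).1, ?_,
    converges h0 hR, dichotomy h0 hR⟩
  intro s
  rcases acts_or hR s with ⟨e, ⟨_, ζ, hζ, -, h⟩, -⟩ | ⟨-, h⟩
  · rw [cand_mem h0 hR] at hζ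
    rcases hζ with rfl | ⟨i, hi, hev, hζ⟩
    · exact Or.inr (Or.inl h)
    · refine Or.inr (Or.inr ⟨i, by omega, hev, ?_⟩)
      change (F (s + 1)).1 = (F i).1 ++ true :: List.replicate (s - i) false
      rw [h, hζ]
      rfl
  · exact Or.inl h

end Pool.Agent.Lib.MP_3eaa21_lc
end

section

/-! From a maximal set `M` to a `Π⁰₁` class `P` with `L(P)*` a chain of three elements and
`Ext(P)` of the same degree as `M`. -/

namespace Pool.Agent.Lib.MP_3eaa21_lc

open Encodable Set

/-- `M` is a maximal set. -/
def IsMaximal (M : Set ℕ) : Prop :=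
  REPred (· ∈ M) ∧ Mᶜ.Infinite ∧
    ∀ W : Set ℕ, REPred (· ∈ W) → (Mᶜ ∩ W).Finite ∨ (Mᶜ \ W).Finite

namespace Chain

/-- the data of a main path -/
structure Path where
  ν : ℕ → List Bool
  comp : Computable ν
  len : ∀ s, (ν s).length = s
  step : ∀ s, ν (s + 1) = ν s ++ [false] ∨ ν (s + 1) = List.replicate (s + 1) false ∨
      ∃ i ≤ s, Even i ∧ ν (s + 1) = ν i ++ true :: List.replicate (s - i) false
  conv : ∀ n, ∃ s₀, ∀ s ≥ s₀, (ν s).take n = (ν s₀).take n
  dich : ∀ W : Set (List Bool), REPred (· ∈ W) →
      (∃ n s₀, ∀ s ≥ s₀, (ν s).take n ∈ W) ∨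
      (∃ s₀, ∀ i ≥ s₀, Even i → ∀ n σ, σ <+: ν i ++ true :: List.replicate n false → σ ∉ W)

variable (N : Path)

/-- the `i`-th isolated point `ν_i 1 0^ω` -/
def pt (i : ℕ) : ℕ → Bool := fun k => (N.ν i ++ [true]).getD k false

theorem pt_self (i : ℕ) : pt N i i = true := by
  have := N.len i
  simp [pt, List.getD_eq_getElem?_getD, this]

theorem pt_gt {i k : ℕ} (h : i < k) : pt N i k = false := by
  have := N.len i
  rw [pt, List.getD_eq_getElem?_getD, List.getElem?_eq_none (by simp; omega)]
  rfl

theorem pre_pt (i n : ℕ) :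
    pre (pt N i) n = (N.ν i ++ true :: List.replicate n false).take n := by
  have hl := N.len i
  apply List.ext_getElem?
  intro k
  rw [pre_get?]
  by_cases hk : k < n
  · rw [if_pos hk, List.getElem?_take, if_pos hk, pt, List.getD_eq_getElem?_getD]
    rcases lt_trichotomy k i with h | h | h
    · rw [List.getElem?_append_left (by omega), List.getElem?_append_left (by omega)]
      rw [List.getElem?_eq_getElem (by omega)]
      rfl
    · subst h
      rw [List.getElem?_append_right (by omega), List.getElem?_append_right (by omega)]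
      simp [hl]
    · rw [List.getElem?_append_right (by omega), List.getElem?_append_right (by omega), hl]
      obtain ⟨m, rfl⟩ : ∃ m, k = i + 1 + m := ⟨k - (i + 1), by omega⟩
      have : i + 1 + m - i = m + 1 := by omega
      rw [this]
      simp only [List.getElem?_cons_succ, List.getElem?_nil, Option.getD_none,
        List.getElem?_replicate]
      rw [if_pos (by omega)]
  · rw [if_neg hk, List.getElem?_eq_none (by simp; omega)]

theorem pre_pt_le {i n : ℕ} (h : n ≤ i) : pre (pt N i) n = (N.ν i).take n := by
  have hl := N.len i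
  rw [pre_pt, List.take_append_of_le_length (by omega)]

theorem pre_pt_add (i m : ℕ) :
    pre (pt N i) (i + 1 + m) = N.ν i ++ true :: List.replicate m false := by
  have hl := N.len i
  rw [pre_pt]
  have : N.ν i ++ true :: List.replicate (i + 1 + m) false =
      (N.ν i ++ true :: List.replicate m false) ++ List.replicate (i + 1) false := by
    rw [List.append_assoc, List.cons_append, List.replicate_append_replicate]
    congr 3
    omega
  rw [this]
  rw [List.take_append_of_le_length (by simp; omega)]
  rw [List.take_of_length_le (by simp; omega)]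

theorem pre_prefix_pt (i n : ℕ) :
    pre (pt N i) n <+: N.ν i ++ true :: List.replicate n false := by
  rw [pre_pt]; exact List.take_prefix _ _

/-- initial segments of main nodes are extended by zero or by an even point -/
theorem take_cases (i : ℕ) : ∀ n ≤ i, (N.ν i).take n = List.replicate n false ∨
    ∃ j < n, Even j ∧ (N.ν i).take n = pre (pt N j) n := by
  induction i using Nat.strong_induction_on with
  | _ i ih =>
    intro n hn
    rcases i with _ | i
    · left
      have : n = 0 := by omega
      subst this; simp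
    · rcases N.step i with h | h | ⟨j, hj, hje, h⟩
      · rcases Nat.lt_or_ge i n with hni | hni
        · have : n = i + 1 := by omega
          subst this
          rw [List.take_of_length_le (by rw [N.len]), h]
          have hl := N.len i
          rcases ih i (by omega) i le_rfl with h1 | ⟨j, hj, hje, h1⟩
          · left
            rw [List.take_of_length_le (by omega)] at h1
            rw [h1, List.replicate_succ']
          · right
            refine ⟨j, by omega, hje, ?_⟩
            rw [List.take_of_length_le (by omega)] at h1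
            rw [pre_succ, ← h1, pt_gt N hj]
        · rw [h, List.take_append_of_le_length (by rw [N.len]; exact hni)]
          exact ih i (by omega) n hni
      · left
        rw [h]
        simp [List.take_replicate, hn]
      · have hp : N.ν (i + 1) = pre (pt N j) (i + 1) := by
          rw [h]
          obtain ⟨m, rfl⟩ : ∃ m, i = j + m := ⟨i - j, by omega⟩
          have e1 : j + m + 1 = j + 1 + m := by omega
          rw [e1, pre_pt_add]
          congr 3
          omega
        rw [hp, pre_take _ hn]
        rcases Nat.lt_or_ge j n with hjn | hjn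
        · right; exact ⟨j, hjn, hje, rfl⟩
        · rw [pre_pt_le N hjn]
          exact ih j (by omega) n hjn

/-- the limit point -/
noncomputable def lim : ℕ → Bool := fun n =>
  (N.ν (max (Classical.choose (N.conv (n + 1))) (n + 1))).getD n false

theorem pre_lim (n : ℕ) : ∃ s₀ ≥ n, ∀ s ≥ s₀, (N.ν s).take n = pre (lim N) n := by
  induction n with
  | zero => exact ⟨0, le_rfl, fun s _ => by simp [pre]⟩
  | succ n ih =>
    obtain ⟨s₀, hs₀, h⟩ := ih
    have hc := Classical.choose_spec (N.conv (n + 1))
    set c := Classical.choose (N.conv (n + 1)) with hcdef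
    refine ⟨max s₀ (max c (n + 1)), by omega, fun s hs => ?_⟩
    have h1 : (N.ν s).take (n + 1) = (N.ν (max c (n + 1))).take (n + 1) := by
      rw [hc s (by omega), hc (max c (n + 1)) (by omega)]
    have hl : n < (N.ν s).length := by rw [N.len]; omega
    rw [pre_succ, List.take_add_one, h s (by omega)]
    congr 1
    have h2 : (N.ν s)[n]? = (N.ν (max c (n + 1)))[n]? := by
      have := congrArg (fun l => l[n]?) h1
      simpa [List.getElem?_take] using this
    have hl2 : n < (N.ν (max c (n + 1))).length := by rw [N.len]; omega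
    have h3 : lim N n = (N.ν (max c (n + 1))).getD n false := rfl
    rw [h2, h3, List.getD_eq_getElem?_getD, List.getElem?_eq_getElem hl2]
    rfl

/-- the zero point -/
def zero : ℕ → Bool := fun _ => false

theorem pre_zero' (n : ℕ) : pre zero n = List.replicate n false := by
  apply List.ext_getElem?
  intro k
  rw [pre_get?]
  by_cases hk : k < n
  · simp [hk, zero]
  · simp [hk]

/-- an index set with a decreasing decidable approximation -/
structure Idx where
  al : ℕ → ℕ → Prop
  comp : ComputablePred fun x : ℕ × ℕ => al x.1 x.2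
  anti : ∀ {m n i}, m ≤ n → al n i → al m i
  even : ∀ n i, Even i → al n i

/-- the index set -/
def Idx.set (I : Idx) : Set ℕ := {i | ∀ n, I.al n i}

variable (I : Idx)

/-- the tree of the class -/
def tree : Set (List Bool) := {σ | σ = List.replicate σ.length false ∨
  ∃ i < σ.length, I.al σ.length i ∧ σ = pre (pt N i) σ.length}

theorem isTree_tree : IsTree (tree N I) := by
  rintro σ τ hστ hτ
  have hσ : σ = τ.take σ.length := List.prefix_iff_eq_take.1 hστ
  have hle : σ.length ≤ τ.length := hστ.length_le
  set n := σ.length with hn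
  rcases hτ with h | ⟨i, hi, hal, h⟩
  · left
    rw [← hn]
    rw [hσ, h, List.take_replicate, min_eq_left hle]
  · rw [h, pre_take _ hle] at hσ
    rcases Nat.lt_or_ge i n with h1 | h1
    · right
      exact ⟨i, h1, I.anti hle hal, hσ⟩
    · rw [pre_pt_le N h1] at hσ
      rcases take_cases N i n h1 with h2 | ⟨j, hj, hje, h2⟩
      · left; rw [← hn, hσ, h2]
      · right; exact ⟨j, hj, I.even _ _ hje, by rw [← hn, hσ, h2]⟩

theorem comp_pre_pt : Computable fun x : ℕ × ℕ => pre (pt N x.1) x.2 := by
  have h : Computable fun x : ℕ × ℕ => (N.ν x.1 ++ true :: List.replicate x.2 false).take x.2 :=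
    c_take (c_append (N.comp.comp Computable.fst) (c_cons (Computable.const true)
      (c_replicate Computable.snd (Computable.const false)))) Computable.snd
  exact h.of_eq fun x => (pre_pt N x.1 x.2).symm

theorem comp_tree_aux (g : ℕ × ℕ → List Bool) (hg : Computable g) (al : ℕ → ℕ → Prop)
    (hal : ComputablePred fun x : ℕ × ℕ => al x.1 x.2) :
    ComputablePred fun σ : List Bool => σ = List.replicate σ.length false ∨
      ∃ i < σ.length, al σ.length i ∧ σ = g (i, σ.length) := by
  have hl : Computable (fun σ : List Bool => σ.length) := Computable.list_length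
  have h0 : Computable (fun σ : List Bool => σ) := Computable.id
  have h0' : Computable (fun σ : List Bool => List.replicate σ.length false) :=
    c_replicate hl (Computable.const false)
  have h1 : ComputablePred fun σ : List Bool => σ = List.replicate σ.length false := p_eq h0 h0'
  have h2' : Computable (fun x : List Bool × ℕ => (x.1.length, x.2)) :=
    Computable.pair (Computable.list_length.comp Computable.fst) Computable.snd
  have h2 : ComputablePred fun x : List Bool × ℕ => al x.1.length x.2 := p_comp hal h2'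
  have h3' : Computable (fun x : List Bool × ℕ => (x.2, x.1.length)) :=
    Computable.pair Computable.snd (Computable.list_length.comp Computable.fst)
  have h3'' : Computable (fun x : List Bool × ℕ => x.1) := Computable.fst
  have h3 : ComputablePred fun x : List Bool × ℕ => x.1 = g (x.2, x.1.length) :=
    p_eq h3'' (hg.comp h3')
  have h4 : ComputablePred fun σ : List Bool =>
      ∃ i < σ.length, (al σ.length i ∧ σ = g (i, σ.length)) :=
    p_ex_lt (p := fun (σ : List Bool) i => al σ.length i ∧ σ = g (i, σ.length)) hl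
      (p_and h2 h3)
  exact p_or h1 h4

theorem comp_tree : ComputablePred (· ∈ tree N I) :=
  comp_tree_aux (fun x => pre (pt N x.1) x.2) (comp_pre_pt N) I.al I.comp

/-- the class -/
def cls : Set (ℕ → Bool) := paths (tree N I)

theorem isPi01_cls : IsPi01 (cls N I) := ⟨_, comp_tree N I, isTree_tree N I, rfl⟩

theorem zero_mem : zero ∈ cls N I := by
  intro n
  left
  rw [pre_length, pre_zero']

theorem take_mem {n i : ℕ} (h : n ≤ i) : (N.ν i).take n ∈ tree N I := by
  have hl : ((N.ν i).take n).length = n := by rw [List.length_take, N.len]; omega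
  rcases take_cases N i n h with h1 | ⟨j, hj, hje, h1⟩
  · left; rw [hl]; exact h1
  · right; rw [hl]; exact ⟨j, hj, I.even _ _ hje, h1⟩

theorem lim_mem : lim N ∈ cls N I := by
  intro n
  obtain ⟨s₀, hs₀, h⟩ := pre_lim N n
  rw [← h s₀ le_rfl]
  exact take_mem N I hs₀

theorem pt_mem {i : ℕ} (hi : i ∈ I.set) : pt N i ∈ cls N I := by
  intro n
  rcases Nat.lt_or_ge i n with h | h
  · right
    rw [pre_length]
    exact ⟨i, h, hi n, rfl⟩
  · rw [pre_pt_le N h]
    exact take_mem N I h

theorem mem_cls {w : ℕ → Bool} (hw : w ∈ cls N I) :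
    w = zero ∨ w = lim N ∨ ∃ i ∈ I.set, w = pt N i := by
  by_contra hc
  push Not at hc
  obtain ⟨h0, h1, h2⟩ := hc
  apply h1
  -- it suffices to compare initial segments
  have hpre : ∀ m, pre w m = pre (lim N) m := by
    intro m
    obtain ⟨s₀, hs₀, hs⟩ := pre_lim N m
    have e0 : ∃ n₀, ∀ n ≥ n₀, pre w n ≠ List.replicate n false := by
      by_contra hcon
      push Not at hcon
      apply h0
      funext k
      obtain ⟨n, hn, h⟩ := hcon (k + 1)
      rw [← pre_zero', pre_eq_iff] at h
      exact h k (by omega)
    have e1 : ∀ i, ∃ n₀, ∀ n ≥ n₀, ¬ (I.al n i ∧ pre w n = pre (pt N i) n) := by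
      intro i
      by_contra hcon
      push Not at hcon
      have hi : i ∈ I.set := by
        intro n
        obtain ⟨n', hn', h, _⟩ := hcon n
        exact I.anti hn' h
      apply h2 i hi
      funext k
      obtain ⟨n, hn, _, h⟩ := hcon (k + 1)
      rw [pre_eq_iff] at h
      exact h k (by omega)
    have e2 : ∃ n₀, ∀ n ≥ n₀, ∀ i < s₀, ¬ (I.al n i ∧ pre w n = pre (pt N i) n) := by
      have : ∀ s, ∃ n₀, ∀ n ≥ n₀, ∀ i < s, ¬ (I.al n i ∧ pre w n = pre (pt N i) n) := by
        intro s
        induction s with
        | zero => exact ⟨0, fun n _ i hi => absurd hi (by omega)⟩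
        | succ s ih =>
          obtain ⟨a, ha⟩ := ih
          obtain ⟨b, hb⟩ := e1 s
          refine ⟨max a b, fun n hn i hi => ?_⟩
          rcases Nat.lt_succ_iff_lt_or_eq.1 hi with hi | rfl
          · exact ha n (by omega) i hi
          · exact hb n (by omega)
      exact this s₀
    obtain ⟨a, ha⟩ := e0
    obtain ⟨b, hb⟩ := e2
    set n := max (max a b) m with hn
    have hmem := hw n
    rcases hmem with h | ⟨i, hi, hal, h⟩
    · rw [pre_length] at h
      exact absurd h (ha n (by omega))
    · rw [pre_length] at hi hal h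
      have his : s₀ ≤ i := by
        by_contra hlt
        exact hb n (by omega) i (by omega) ⟨hal, h⟩
      have hmn : m ≤ n := by omega
      rw [← pre_take w hmn, h, pre_take _ hmn, pre_pt_le N (by omega)]
      exact hs i his
  funext k
  have := hpre (k + 1)
  rw [pre_eq_iff] at this
  exact this k (by omega)

theorem mem_cls_iff {w : ℕ → Bool} :
    w ∈ cls N I ↔ w = zero ∨ w = lim N ∨ ∃ i ∈ I.set, w = pt N i := by
  refine ⟨mem_cls N I, ?_⟩
  rintro (rfl | rfl | ⟨i, hi, rfl⟩)
  · exact zero_mem N I
  · exact lim_mem N I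
  · exact pt_mem N I hi

/-- the extendible nodes -/
theorem mem_ext_iff {σ : List Bool} : σ ∈ Ext (cls N I) ↔ σ = List.replicate σ.length false ∨
    ∃ i < σ.length, i ∈ I.set ∧ σ = pre (pt N i) σ.length := by
  constructor
  · rintro ⟨w, hw, hσ⟩
    set n := σ.length with hn
    have aux : ∀ i, n ≤ i → σ = (N.ν i).take n → σ = List.replicate n false ∨
        ∃ i < n, i ∈ I.set ∧ σ = pre (pt N i) n := by
      intro i hi h
      rcases take_cases N i n hi with h1 | ⟨j, hj, hje, h1⟩
      · left; rw [h, h1]
      · right; exact ⟨j, hj, fun m => I.even _ _ hje, by rw [h, h1]⟩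
    rcases mem_cls N I hw with rfl | rfl | ⟨i, hi, rfl⟩
    · left; rw [← hσ, pre_zero']
    · obtain ⟨s₀, hs₀, h⟩ := pre_lim N n
      exact aux s₀ hs₀ (by rw [h s₀ le_rfl, hσ])
    · rcases Nat.lt_or_ge i n with h | h
      · right; exact ⟨i, h, hi, hσ.symm⟩
      · exact aux i h (by rw [← hσ, pre_pt_le N h])
  · rintro (h | ⟨i, hi, hiI, h⟩)
    · exact ⟨zero, zero_mem N I, by rw [pre_zero', ← h]⟩
    · exact ⟨pt N i, pt_mem N I hiI, h.symm⟩

theorem pt_injective : Function.Injective (pt N) := by
  intro i j h
  rcases lt_trichotomy i j with hij | hij | hij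
  · have := congrFun h j
    rw [pt_gt N hij, pt_self] at this
    exact absurd this (by simp)
  · exact hij
  · have := congrFun h i
    rw [pt_gt N hij, pt_self] at this
    exact absurd this (by simp)

/-- the even indices -/
def idx0 : Idx where
  al := fun _ i => Even i
  comp := p_even Computable.snd
  anti := fun _ h => h
  even := fun _ _ h => h

theorem idx0_set : idx0.set = {i | Even i} := by
  ext i
  exact ⟨fun h => h 0, fun h _ => h⟩

/-- the even indices and the indices `2j+1` with `j ∉ M` -/
def idx1 (St : ℕ → ℕ → Prop) (hSt : ComputablePred fun x : ℕ × ℕ => St x.1 x.2)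
    (hm : ∀ s t a, s ≤ t → St s a → St t a) : Idx where
  al := fun n i => Even i ∨ ¬ St n (i / 2)
  comp := p_or (p_even Computable.snd) (p_not (p_comp hSt (f := fun x : ℕ × ℕ => (x.1, x.2 / 2))
    (Computable.pair Computable.fst (c_div Computable.snd (Computable.const 2)))))
  anti := by
    rintro m n i hmn (h | h)
    · exact Or.inl h
    · exact Or.inr fun hc => h (hm _ _ _ hmn hc)
  even := fun _ _ h => Or.inl h

theorem idx1_set (M : Set ℕ) (St : ℕ → ℕ → Prop)
    (hSt : ComputablePred fun x : ℕ × ℕ => St x.1 x.2)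
    (hm : ∀ s t a, s ≤ t → St s a → St t a) (hM : ∀ a, a ∈ M ↔ ∃ s, St s a) :
    (idx1 St hSt hm).set = {i | Even i ∨ i / 2 ∉ M} := by
  ext i
  constructor
  · intro h
    by_cases he : Even i
    · exact Or.inl he
    · right
      rw [hM]
      rintro ⟨s, hs⟩
      rcases h s with h | h
      · exact he h
      · exact h hs
  · rintro (h | h) n
    · exact Or.inl h
    · right
      intro hc
      exact h ((hM _).2 ⟨n, hc⟩)

variable {M : Set ℕ} (hM : IsMaximal M) (J : Idx) (hJ : J.set = {i | Even i ∨ i / 2 ∉ M})

include hJ in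
theorem sub_cls : cls N idx0 ⊆ cls N J := by
  intro w hw
  rw [mem_cls_iff] at hw ⊢
  rcases hw with h | h | ⟨i, hi, h⟩
  · exact Or.inl h
  · exact Or.inr (Or.inl h)
  · refine Or.inr (Or.inr ⟨i, ?_, h⟩)
    rw [hJ]
    rw [idx0_set] at hi
    exact Or.inl hi

include hM hJ in
/-- every `Π⁰₁` subclass of `P` is finite, or equal to `Q` or to `P` modulo a finite set -/
theorem trichotomy {X : Set (ℕ → Bool)} (hX : IsPi01 X) (hXP : X ⊆ cls N J) :
    X.Finite ∨ (symmDiff X (cls N idx0)).Finite ∨ (symmDiff X (cls N J)).Finite := by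
  obtain ⟨T, hT, tT, rfl⟩ := hX
  rcases N.dich Tᶜ (p_not hT).to_re with ⟨n, s₀, h⟩ | ⟨s₀, h⟩
  · left
    have hsub : paths T ⊆ ({zero, lim N} : Set (ℕ → Bool)) ∪ pt N '' (Set.Iio (max s₀ n)) := by
      intro w hw
      rcases mem_cls N J (hXP hw) with rfl | rfl | ⟨i, hi, rfl⟩
      · left; simp
      · left; simp
      · right
        refine ⟨i, ?_, rfl⟩
        by_contra hc
        rw [Set.mem_Iio, not_lt] at hc
        have h1 := h i (le_trans (le_max_left _ _) hc)
        rw [← pre_pt_le N (le_trans (le_max_right _ _) hc)] at h1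
        exact h1 (hw n)
    exact (((Set.finite_singleton _).insert _).union
      ((Set.finite_Iio _).image _)).subset hsub
  · right
    -- almost all even points are in `X`
    have hev : ∀ i ≥ s₀, Even i → pt N i ∈ paths T := by
      intro i hi he n
      by_contra hc
      exact h i hi he n _ (pre_prefix_pt N i n) hc
    have hQX : (cls N idx0 \ paths T).Finite := by
      have hsub : cls N idx0 \ paths T ⊆
          ({zero, lim N} : Set (ℕ → Bool)) ∪ pt N '' (Set.Iio s₀) := by
        rintro w ⟨hw, hw'⟩
        rcases mem_cls N idx0 hw with rfl | rfl | ⟨i, hi, rfl⟩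
        · left; simp
        · left; simp
        · right
          refine ⟨i, ?_, rfl⟩
          by_contra hc
          rw [Set.mem_Iio, not_lt] at hc
          rw [idx0_set] at hi
          exact hw' (hev i hc hi)
      exact (((Set.finite_singleton _).insert _).union
        ((Set.finite_Iio _).image _)).subset hsub
    let V : Set ℕ := {j | ∃ n, pre (pt N (2 * j + 1)) n ∉ T}
    have hV : REPred (· ∈ V) := by
      refine re_exists (p := fun j n => pre (pt N (2 * j + 1)) n ∉ T) ?_
      have e1 : Computable (fun x : ℕ × ℕ => (2 * x.1 + 1, x.2)) :=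
        Computable.pair (c_add (c_mul (Computable.const 2) Computable.fst) (Computable.const 1))
          Computable.snd
      have e2 : Computable (fun x : ℕ × ℕ => pre (pt N (2 * x.1 + 1)) x.2) :=
        (comp_pre_pt N).comp e1
      exact (p_comp (p_not hT) e2).to_re
    have hVmem : ∀ j, j ∈ V ↔ pt N (2 * j + 1) ∉ paths T := by
      intro j
      simp only [V, paths, Set.mem_ofPred_eq, not_forall]
    rcases hM.2.2 V hV with hfin | hfin
    · right
      have hsub : symmDiff (paths T) (cls N J) ⊆
          (cls N idx0 \ paths T) ∪ (fun j => pt N (2 * j + 1)) '' (Mᶜ ∩ V) := by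
        rintro w (⟨hw, hw'⟩ | ⟨hw, hw'⟩)
        · exact absurd (hXP hw) hw'
        · rcases mem_cls N J hw with rfl | rfl | ⟨i, hi, rfl⟩
          · left; exact ⟨zero_mem N idx0, hw'⟩
          · left; exact ⟨lim_mem N idx0, hw'⟩
          · rw [hJ] at hi
            by_cases he : Even i
            · left
              exact ⟨pt_mem N idx0 (by rw [idx0_set]; exact he), hw'⟩
            · right
              have ho : i = 2 * (i / 2) + 1 := by
                rw [Nat.not_even_iff] at he; omega
              have hi' : i / 2 ∉ M := hi.resolve_left he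
              refine ⟨i / 2, ⟨hi', ?_⟩, ?_⟩
              · rw [hVmem, ← ho]; exact hw'
              · simp only; rw [← ho]
      exact (hQX.union (hfin.image _)).subset hsub
    · left
      have hsub : symmDiff (paths T) (cls N idx0) ⊆
          (cls N idx0 \ paths T) ∪ (fun j => pt N (2 * j + 1)) '' (Mᶜ \ V) := by
        rintro w (⟨hw, hw'⟩ | ⟨hw, hw'⟩)
        · rcases mem_cls N J (hXP hw) with rfl | rfl | ⟨i, hi, rfl⟩
          · exact absurd (zero_mem N idx0) hw'
          · exact absurd (lim_mem N idx0) hw'
          · rw [hJ] at hi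
            by_cases he : Even i
            · exact absurd (pt_mem N idx0 (by rw [idx0_set]; exact he)) hw'
            · right
              have ho : i = 2 * (i / 2) + 1 := by
                rw [Nat.not_even_iff] at he; omega
              have hi' : i / 2 ∉ M := hi.resolve_left he
              refine ⟨i / 2, ⟨hi', ?_⟩, ?_⟩
              · rw [hVmem, ← ho, not_not]; exact hw
              · simp only; rw [← ho]
        · left; exact ⟨hw, hw'⟩
      exact (hQX.union (hfin.image _)).subset hsub

theorem infinite_Q : (cls N idx0).Infinite := by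
  have : (Set.range fun i => pt N (2 * i)) ⊆ cls N idx0 := by
    rintro w ⟨i, rfl⟩
    refine pt_mem N idx0 ?_
    rw [idx0_set]
    exact even_two_mul i
  refine Set.Infinite.mono this (Set.infinite_range_of_injective ?_)
  intro i j h
  have := pt_injective N h
  omega

include hM hJ in
theorem infinite_PQ : (cls N J \ cls N idx0).Infinite := by
  have h1 : ((fun j => pt N (2 * j + 1)) '' Mᶜ).Infinite := by
    refine hM.2.1.image ?_
    intro i _ j _ h
    have := pt_injective N h
    omega
  have h2 : ((fun j => pt N (2 * j + 1)) '' Mᶜ \ {lim N}).Infinite :=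
    h1.sdiff (Set.finite_singleton _)
  refine h2.mono ?_
  rintro w ⟨⟨j, hj, rfl⟩, hw⟩
  refine ⟨pt_mem N J ?_, ?_⟩
  · rw [hJ]
    right
    have : (2 * j + 1) / 2 = j := by omega
    rw [this]
    exact hj
  · intro hc
    rcases mem_cls N idx0 hc with h | h | ⟨i, hi, h⟩
    · have := congrFun h (2 * j + 1)
      simp only [pt_self, zero] at this
      exact absurd this (by simp)
    · exact hw h
    · have := pt_injective N h
      rw [idx0_set] at hi
      have hi' : Even i := hi
      rw [← this] at hi'
      rw [Nat.even_iff] at hi'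
      omega

theorem comp_dec_aux (g : ℕ × ℕ → List Bool) (hg : Computable g) :
    ComputablePred fun x : List Bool × List ℕ => x.1 = List.replicate x.1.length false ∨
      ∃ i < x.1.length, (Even i ∨ x.2.getD (i / 2) 1 = 0) ∧ x.1 = g (i, x.1.length) := by
  have a1 : ComputablePred fun x : List Bool × List ℕ =>
      x.1 = List.replicate x.1.length false :=
    p_eq Computable.fst (c_replicate (c_length Computable.fst) (Computable.const false))
  have a2' : Computable (fun y : (List Bool × List ℕ) × ℕ => y.2 / 2) :=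
    c_div Computable.snd (Computable.const 2)
  have a2'' : Computable (fun y : (List Bool × List ℕ) × ℕ => y.1.2) :=
    Computable.snd.comp Computable.fst
  have a2 : ComputablePred fun y : (List Bool × List ℕ) × ℕ =>
      Even y.2 ∨ y.1.2.getD (y.2 / 2) 1 = 0 :=
    p_or (p_even Computable.snd) (p_eq (c_getD a2'' a2') (Computable.const 0))
  have a3' : Computable (fun y : (List Bool × List ℕ) × ℕ => (y.2, y.1.1.length)) :=
    Computable.pair Computable.snd (c_length (Computable.fst.comp Computable.fst))
  have a3 : ComputablePred fun y : (List Bool × List ℕ) × ℕ =>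
      y.1.1 = g (y.2, y.1.1.length) :=
    p_eq (Computable.fst.comp Computable.fst) (hg.comp a3')
  have a4 : ComputablePred fun x : List Bool × List ℕ => ∃ i < x.1.length,
      ((Even i ∨ x.2.getD (i / 2) 1 = 0) ∧ x.1 = g (i, x.1.length)) :=
    p_ex_lt (p := fun (x : List Bool × List ℕ) i =>
      (Even i ∨ x.2.getD (i / 2) 1 = 0) ∧ x.1 = g (i, x.1.length))
      (c_length Computable.fst) (p_and a2 a3)
  exact p_or a1 a4

theorem comp_code_aux (g : ℕ × ℕ → List Bool) (hg : Computable g) :
    Computable (fun j : ℕ => encode (g (2 * j + 1, 2 * j + 2))) := by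
  have e0 : Computable (fun j : ℕ => (2 * j + 1, 2 * j + 2)) :=
    Computable.pair (c_add (c_mul (Computable.const 2) Computable.id) (Computable.const 1))
      (c_add (c_mul (Computable.const 2) Computable.id) (Computable.const 2))
  exact Computable.encode.comp (hg.comp e0)

end Chain

open Chain in
/-- **The degree of every maximal set is in `D`.** -/
theorem deg_maximal_mem_D {M : Set ℕ} (hM : IsMaximal M) : deg M ∈ D := by
  obtain ⟨ν, h1, h2, h3, h4, h5⟩ := exists_main_path
  let N : Path := ⟨ν, h1, h2, h3, h4, h5⟩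
  obtain ⟨St, hSt, hmono, hMSt⟩ := exists_stage hM.1
  let J : Idx := idx1 St hSt hmono
  have hJ : J.set = {i | Even i ∨ i / 2 ∉ M} := idx1_set M St hSt hmono hMSt
  let P : Pi01Class := ⟨cls N J, isPi01_cls N J⟩
  have hQP : cls N idx0 ⊆ P.1 := sub_cls N J hJ
  let q : LStar P := LStar.mk (cls N idx0) (isPi01_cls N idx0) hQP
  have htop : (⊤ : LStar P) = LStar.mk P.1 P.2 Set.Subset.rfl := rfl
  have hbot : (⊥ : LStar P) = LStar.mk ∅ isPi01_empty (Set.empty_subset _) := rfl
  have hcases : ∀ a : LStar P, a = ⊥ ∨ a = q ∨ a = ⊤ := by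
    intro a
    obtain ⟨X, hX, hX', rfl⟩ := LStar.exists_mk a
    rcases trichotomy N hM J hJ hX hX' with h | h | h
    · left
      rw [hbot]
      refine (LStar.mk_eq _ _ _ _).2 ?_
      exact h.subset (by rintro w (⟨hw, _⟩ | ⟨hw, _⟩); exacts [hw, absurd hw (Set.notMem_empty _)])
    · right; left
      exact (LStar.mk_eq _ _ _ _).2 h
    · right; right
      rw [htop]
      exact (LStar.mk_eq _ _ _ _).2 h
  have hq_bot : q ≠ ⊥ := by
    intro h
    rw [hbot] at h
    have := (LStar.mk_eq _ _ _ _).1 h
    exact infinite_Q N (this.subset fun w hw => Or.inl ⟨hw, Set.notMem_empty _⟩)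
  have hq_top : q ≠ ⊤ := by
    intro h
    rw [htop] at h
    have := (LStar.mk_eq _ _ _ _).1 h
    exact infinite_PQ N hM J hJ (this.subset fun w hw => Or.inr hw)
  refine ⟨P, ?_, ?_, ?_⟩
  · -- finiteness
    have : (Set.univ : Set (LStar P)) ⊆ {⊥, q, ⊤} := by
      intro a _
      rcases hcases a with h | h | h <;> simp [h]
    have hf : (Set.univ : Set (LStar P)).Finite := (Set.toFinite _).subset this
    exact Set.finite_univ_iff.1 hf
  · -- not Boolean
    intro hc
    obtain ⟨b, hb⟩ := hc.exists_isCompl q
    have hsup : q ⊔ b = ⊤ := hb.sup_eq_top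
    have hinf : q ⊓ b = ⊥ := hb.inf_eq_bot
    rcases hcases b with rfl | rfl | rfl
    · rw [sup_bot_eq] at hsup; exact hq_top hsup
    · rw [inf_idem] at hinf; exact hq_bot hinf
    · rw [inf_top_eq] at hinf; exact hq_bot hinf
  · -- the degree
    rw [deg_eq_iff]
    constructor
    · -- `Ext P ≤ M`
      refine red_of_dec (Ext P.1) (charFn M) (fun σ => σ.length) Computable.list_length
        (fun σ m => σ = List.replicate σ.length false ∨
          ∃ i < σ.length, (Even i ∨ m.getD (i / 2) 1 = 0) ∧ σ = pre (pt N i) σ.length) ?_ ?_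
      · exact comp_dec_aux (fun x => pre (pt N x.1) x.2) (comp_pre_pt N)
      · intro σ
        rw [mem_ext_iff, hJ]
        refine or_congr Iff.rfl (exists_congr fun i => and_congr_right fun hi => ?_)
        have : (res (charFn M) σ.length).getD (i / 2) 1 = charFn M (i / 2) :=
          res_getD _ (by omega) _
        rw [this, charFn_eq_zero_iff]
        exact Iff.rfl
    · -- `M ≤ Ext P`
      have e2 : Computable (fun j : ℕ => encode (pre (pt N (2 * j + 1)) (2 * j + 2))) :=
        comp_code_aux (fun x => pre (pt N x.1) x.2) (comp_pre_pt N)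
      refine red_of_dec M (charFn (Ext P.1))
        (fun j => encode (pre (pt N (2 * j + 1)) (2 * j + 2)) + 1)
        (c_add e2 (Computable.const 1))
        (fun j m => m.getD (encode (pre (pt N (2 * j + 1)) (2 * j + 2))) 1 = 0) ?_ ?_
      · exact p_eq (c_getD Computable.snd (e2.comp Computable.fst)) (Computable.const 0)
      · intro j
        rw [res_getD _ (by omega), charFn_encode_eq_zero, mem_ext_iff, hJ]
        have hlen : (pre (pt N (2 * j + 1)) (2 * j + 2)).length = 2 * j + 2 := pre_length _ _
        rw [hlen]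
        constructor
        · rintro hj (h | ⟨i, hi, hiJ, h⟩)
          · rw [← pre_zero', pre_eq_iff] at h
            have := h (2 * j + 1) (by omega)
            rw [pt_self] at this
            exact absurd this (by simp [zero])
          · rw [pre_eq_iff] at h
            have hij : i = 2 * j + 1 := by
              rcases lt_trichotomy i (2 * j + 1) with h' | h' | h'
              · have := h (2 * j + 1) (by omega)
                rw [pt_self, pt_gt N h'] at this
                exact absurd this (by simp)
              · exact h'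
              · omega
            subst hij
            rcases hiJ with h' | h'
            · rw [Nat.even_iff] at h'; omega
            · have : (2 * j + 1) / 2 = j := by omega
              rw [this] at h'
              exact h' hj
        · intro h
          by_contra hj
          apply h
          right
          refine ⟨2 * j + 1, by omega, ?_, rfl⟩
          right
          have : (2 * j + 1) / 2 = j := by omega
          rw [this]
          exact hj

end Pool.Agent.Lib.MP_3eaa21_lc
end
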