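import Pool.Agent.Lib.MP_3eaa21_lc.Tools

/-! Definitions for MP_3eaa21_lc: `Π⁰₁` classes in Cantor space, the quotient lattices `L(P)*`,
Turing degrees, the jump. -/

namespace Pool.Agent.Lib.MP_3eaa21_lc

open Encodable Set

/-- The initial segment `x ↾ n` of a point `x` of Cantor space. -/
def pre (x : ℕ → Bool) (n : ℕ) : List Bool := (List.range n).map x

/-- A tree is a set of binary strings which is closed under initial segments. -/
def IsTree (T : Set (List Bool)) : Prop := ∀ σ τ : List Bool, σ <+: τ → τ ∈ T → σ ∈ T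

/-- The set `[T]` of infinite paths through `T`. -/
def paths (T : Set (List Bool)) : Set (ℕ → Bool) := {x | ∀ n, pre x n ∈ T}

/-- `P` is a `Π⁰₁` class: the set of infinite paths through a computable tree. -/
def IsPi01 (P : Set (ℕ → Bool)) : Prop :=
  ∃ T : Set (List Bool), ComputablePred (· ∈ T) ∧ IsTree T ∧ P = paths T

/-- The strings with an extension in `P`. -/
def Ext (P : Set (ℕ → Bool)) : Set (List Bool) := {σ | ∃ x ∈ P, pre x σ.length = σ}

@[simp] theorem pre_length (x : ℕ → Bool) (n : ℕ) : (pre x n).length = n := by simp [pre]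

theorem pre_zero (x : ℕ → Bool) : pre x 0 = [] := rfl

theorem pre_succ (x : ℕ → Bool) (n : ℕ) : pre x (n + 1) = pre x n ++ [x n] := by
  simp [pre, List.range_succ]

theorem pre_take (x : ℕ → Bool) {m n : ℕ} (h : m ≤ n) : (pre x n).take m = pre x m := by
  simp [pre, ← List.map_take, List.take_range, h]

theorem pre_prefix (x : ℕ → Bool) {m n : ℕ} (h : m ≤ n) : pre x m <+: pre x n := by
  rw [← pre_take x h]; exact List.take_prefix _ _

theorem pre_get? (x : ℕ → Bool) (n i : ℕ) : (pre x n)[i]? = if i < n then some (x i) else none := by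
  by_cases h : i < n <;> simp [pre, h]

theorem pre_eq_iff {x y : ℕ → Bool} {n : ℕ} : pre x n = pre y n ↔ ∀ i < n, x i = y i := by
  constructor
  · intro h i hi
    have := congrArg (fun l => l[i]?) h
    simp only [pre_get?, hi, if_true] at this
    exact Option.some.inj this
  · intro h
    apply List.map_congr_left
    intro i hi
    exact h i (List.mem_range.1 hi)

theorem isPi01_empty : IsPi01 (∅ : Set (ℕ → Bool)) := by
  refine ⟨∅, p_const False, ?_, ?_⟩
  · intro σ τ _ h; exact h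
  · ext x; simp [paths]

theorem IsPi01.union {X Y : Set (ℕ → Bool)} (hX : IsPi01 X) (hY : IsPi01 Y) : IsPi01 (X ∪ Y) := by
  obtain ⟨S, hS, tS, rfl⟩ := hX
  obtain ⟨T, hT, tT, rfl⟩ := hY
  refine ⟨S ∪ T, p_or hS hT, ?_, ?_⟩
  · rintro σ τ h (h' | h')
    · exact Or.inl (tS _ _ h h')
    · exact Or.inr (tT _ _ h h')
  · ext x
    constructor
    · rintro (h | h) n
      · exact Or.inl (h n)
      · exact Or.inr (h n)
    · intro h
      by_contra hc
      rw [Set.mem_union, not_or] at hc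
      obtain ⟨h1, h2⟩ := hc
      simp only [paths, Set.mem_ofPred_eq, not_forall] at h1 h2
      obtain ⟨n, hn⟩ := h1
      obtain ⟨m, hm⟩ := h2
      rcases h (max n m) with h | h
      · exact hn (tS _ _ (pre_prefix x (le_max_left _ _)) h)
      · exact hm (tT _ _ (pre_prefix x (le_max_right _ _)) h)

theorem IsPi01.inter {X Y : Set (ℕ → Bool)} (hX : IsPi01 X) (hY : IsPi01 Y) : IsPi01 (X ∩ Y) := by
  obtain ⟨S, hS, tS, rfl⟩ := hX
  obtain ⟨T, hT, tT, rfl⟩ := hY
  refine ⟨S ∩ T, p_and hS hT, ?_, ?_⟩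
  · rintro σ τ h ⟨h1, h2⟩
    exact ⟨tS _ _ h h1, tT _ _ h h2⟩
  · ext x
    constructor
    · rintro ⟨h1, h2⟩ n
      exact ⟨h1 n, h2 n⟩
    · intro h
      exact ⟨fun n => (h n).1, fun n => (h n).2⟩

/-- The `Π⁰₁` classes in `2^ω`. -/
def Pi01Class : Type := {P : Set (ℕ → Bool) // IsPi01 P}

/-- The `Π⁰₁` subclasses of `P`; this is the carrier of the lattice `L(P)`. -/
def Sub (P : Pi01Class) : Type := {X : Set (ℕ → Bool) // IsPi01 X ∧ X ⊆ P.1}

/-- Equality modulo finite sets on `L(P)`. -/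
instance eqStar (P : Pi01Class) : Setoid (Sub P) where
  r X Y := (symmDiff X.1 Y.1).Finite
  iseqv := by
    refine ⟨fun X => by simp, fun {X Y} h => by rwa [symmDiff_comm], fun {X Y Z} h1 h2 => ?_⟩
    exact (h1.union h2).subset (symmDiff_triangle X.1 Y.1 Z.1)

/-- The quotient lattice `L(P)*`. -/
def LStar (P : Pi01Class) : Type := Quotient (eqStar P)

namespace LStar

variable {P : Pi01Class}

theorem sup_congr {A B C D : Set (ℕ → Bool)} (h1 : (symmDiff A B).Finite)
    (h2 : (symmDiff C D).Finite) : (symmDiff (A ∪ C) (B ∪ D)).Finite := by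
  refine (h1.union h2).subset ?_
  intro x
  simp only [Set.mem_symmDiff, Set.mem_union]
  tauto

theorem inf_congr {A B C D : Set (ℕ → Bool)} (h1 : (symmDiff A B).Finite)
    (h2 : (symmDiff C D).Finite) : (symmDiff (A ∩ C) (B ∩ D)).Finite := by
  refine (h1.union h2).subset ?_
  intro x
  simp only [Set.mem_symmDiff, Set.mem_union, Set.mem_inter_iff]
  tauto

/-- the join of `L(P)*`, induced by union -/
def sup : LStar P → LStar P → LStar P :=
  Quotient.map₂ (fun X Y => ⟨X.1 ∪ Y.1, X.2.1.union Y.2.1, Set.union_subset X.2.2 Y.2.2⟩)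
    (fun _ _ h1 _ _ h2 => sup_congr h1 h2)

/-- the meet of `L(P)*`, induced by intersection -/
def inf : LStar P → LStar P → LStar P :=
  Quotient.map₂ (fun X Y => ⟨X.1 ∩ Y.1, X.2.1.inter Y.2.1,
    Set.inter_subset_left.trans X.2.2⟩) (fun _ _ h1 _ _ h2 => inf_congr h1 h2)

/-- the class of `X` in `L(P)*` -/
def mk (X : Set (ℕ → Bool)) (hX : IsPi01 X) (h : X ⊆ P.1) : LStar P := Quotient.mk _ ⟨X, hX, h⟩

theorem mk_eq {X Y : Set (ℕ → Bool)} (hX : IsPi01 X) (h : X ⊆ P.1) (hY : IsPi01 Y)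
    (h' : Y ⊆ P.1) : mk X hX h = mk Y hY h' ↔ (symmDiff X Y).Finite :=
  ⟨fun e => Quotient.exact e, fun e => Quotient.sound e⟩

theorem mk_of_eq {X Y : Set (ℕ → Bool)} (hX : IsPi01 X) (h : X ⊆ P.1) (hY : IsPi01 Y)
    (h' : Y ⊆ P.1) (e : X = Y) : mk X hX h = mk Y hY h' := by subst e; rfl

theorem sup_mk {X Y : Set (ℕ → Bool)} (hX : IsPi01 X) (h : X ⊆ P.1) (hY : IsPi01 Y)
    (h' : Y ⊆ P.1) : sup (mk X hX h) (mk Y hY h') =
      mk (X ∪ Y) (hX.union hY) (Set.union_subset h h') := rfl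

theorem inf_mk {X Y : Set (ℕ → Bool)} (hX : IsPi01 X) (h : X ⊆ P.1) (hY : IsPi01 Y)
    (h' : Y ⊆ P.1) : inf (mk X hX h) (mk Y hY h') =
      mk (X ∩ Y) (hX.inter hY) (Set.inter_subset_left.trans h) := rfl

theorem exists_mk (a : LStar P) : ∃ X hX hX', a = mk X hX hX' := by
  obtain ⟨X, rfl⟩ := Quotient.exists_rep a
  exact ⟨X.1, X.2.1, X.2.2, rfl⟩

theorem sup_self' (a : LStar P) : sup a a = a := by
  obtain ⟨X, hX, hX', rfl⟩ := exists_mk a
  simp only [sup_mk]
  exact mk_of_eq _ _ _ _ (Set.union_self _)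

theorem sup_comm' (a b : LStar P) : sup a b = sup b a := by
  obtain ⟨X, hX, hX', rfl⟩ := exists_mk a
  obtain ⟨Y, hY, hY', rfl⟩ := exists_mk b
  simp only [sup_mk]
  exact mk_of_eq _ _ _ _ (Set.union_comm _ _)

theorem sup_assoc' (a b c : LStar P) : sup (sup a b) c = sup a (sup b c) := by
  obtain ⟨X, hX, hX', rfl⟩ := exists_mk a
  obtain ⟨Y, hY, hY', rfl⟩ := exists_mk b
  obtain ⟨Z, hZ, hZ', rfl⟩ := exists_mk c
  simp only [sup_mk]
  exact mk_of_eq _ _ _ _ (Set.union_assoc _ _ _)

theorem inf_comm' (a b : LStar P) : inf a b = inf b a := by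
  obtain ⟨X, hX, hX', rfl⟩ := exists_mk a
  obtain ⟨Y, hY, hY', rfl⟩ := exists_mk b
  simp only [inf_mk]
  exact mk_of_eq _ _ _ _ (Set.inter_comm _ _)

theorem inf_assoc' (a b c : LStar P) : inf (inf a b) c = inf a (inf b c) := by
  obtain ⟨X, hX, hX', rfl⟩ := exists_mk a
  obtain ⟨Y, hY, hY', rfl⟩ := exists_mk b
  obtain ⟨Z, hZ, hZ', rfl⟩ := exists_mk c
  simp only [inf_mk]
  exact mk_of_eq _ _ _ _ (Set.inter_assoc _ _ _)

theorem sup_inf_self' (a b : LStar P) : sup a (inf a b) = a := by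
  obtain ⟨X, hX, hX', rfl⟩ := exists_mk a
  obtain ⟨Y, hY, hY', rfl⟩ := exists_mk b
  simp only [sup_mk, inf_mk]
  exact mk_of_eq _ _ _ _ (by ext x; simp only [Set.mem_union, Set.mem_inter_iff]; tauto)

theorem inf_sup_self' (a b : LStar P) : inf a (sup a b) = a := by
  obtain ⟨X, hX, hX', rfl⟩ := exists_mk a
  obtain ⟨Y, hY, hY', rfl⟩ := exists_mk b
  simp only [sup_mk, inf_mk]
  exact mk_of_eq _ _ _ _ (by ext x; simp only [Set.mem_union, Set.mem_inter_iff]; tauto)

theorem distrib' (a b c : LStar P) :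
    sup (inf (sup a b) (sup a c)) (sup a (inf b c)) = sup a (inf b c) := by
  obtain ⟨X, hX, hX', rfl⟩ := exists_mk a
  obtain ⟨Y, hY, hY', rfl⟩ := exists_mk b
  obtain ⟨Z, hZ, hZ', rfl⟩ := exists_mk c
  simp only [sup_mk, inf_mk]
  exact mk_of_eq _ _ _ _ (by ext x; simp only [Set.mem_union, Set.mem_inter_iff]; tauto)

/-- `L(P)*` is a distributive lattice (join and meet are induced by union and intersection;
`a ≤ b` means `a ⊔ b = b`). -/
instance : DistribLattice (LStar P) where
  sup := sup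
  inf := inf
  le a b := sup a b = b
  le_refl a := sup_self' a
  le_trans a b c h1 h2 := by
    rw [← h2, ← sup_assoc', h1]
  le_antisymm a b h1 h2 := by
    rw [← h1, sup_comm', h2]
  le_sup_left a b := by
    rw [← sup_assoc', sup_self']
  le_sup_right a b := by
    rw [sup_comm' a b, ← sup_assoc', sup_self']
  sup_le a b c h1 h2 := by
    rw [sup_assoc', h2, h1]
  inf_le_left a b := by
    rw [sup_comm', sup_inf_self']
  inf_le_right a b := by
    rw [sup_comm', inf_comm', sup_inf_self']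
  le_inf a b c h1 h2 := by
    have e1 : inf a b = a := by rw [← h1, inf_sup_self']
    have e2 : inf a c = a := by rw [← h2, inf_sup_self']
    have e3 : inf a (inf b c) = a := by rw [← inf_assoc', e1, e2]
    rw [← e3, sup_comm', inf_comm' a, sup_inf_self']
  le_sup_inf := distrib'

theorem mk_sup {X Y : Set (ℕ → Bool)} (hX : IsPi01 X) (h : X ⊆ P.1) (hY : IsPi01 Y)
    (h' : Y ⊆ P.1) : (mk X hX h : LStar P) ⊔ mk Y hY h' =
      mk (X ∪ Y) (hX.union hY) (Set.union_subset h h') := rfl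

theorem mk_inf {X Y : Set (ℕ → Bool)} (hX : IsPi01 X) (h : X ⊆ P.1) (hY : IsPi01 Y)
    (h' : Y ⊆ P.1) : (mk X hX h : LStar P) ⊓ mk Y hY h' =
      mk (X ∩ Y) (hX.inter hY) (Set.inter_subset_left.trans h) := rfl

theorem mk_le {X Y : Set (ℕ → Bool)} (hX : IsPi01 X) (h : X ⊆ P.1) (hY : IsPi01 Y)
    (h' : Y ⊆ P.1) : mk X hX h ≤ mk Y hY h' ↔ (X \ Y).Finite := by
  rw [← sup_eq_right, mk_sup, mk_eq]
  have e : symmDiff (X ∪ Y) Y = X \ Y := by
    ext x
    simp only [Set.mem_symmDiff, Set.mem_union, Set.mem_sdiff]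
    tauto
  rw [e]

/-- least element: the class of `∅`; greatest element: the class of `P` -/
instance : BoundedOrder (LStar P) where
  top := mk P.1 P.2 Set.Subset.rfl
  bot := mk ∅ isPi01_empty (Set.empty_subset _)
  le_top := by
    intro a
    obtain ⟨X, hX, hX', rfl⟩ := exists_mk a
    refine (mk_le _ _ _ _).2 ?_
    rw [Set.sdiff_eq_empty.2 hX']
    exact Set.finite_empty
  bot_le := by
    intro a
    obtain ⟨X, hX, hX', rfl⟩ := exists_mk a
    refine (mk_le _ _ _ _).2 ?_
    rw [Set.empty_sdiff]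
    exact Set.finite_empty

end LStar

/-- The restriction of `A` to `{0, …, t-1}`. -/
def res (A : ℕ → ℕ) (t : ℕ) : List ℕ := (List.range t).map A

open Classical in
/-- The characteristic function of a set of (codes of) objects. -/
noncomputable def charFn {α : Type} [Encodable α] (S : Set α) : ℕ → ℕ :=
  fun n => if ∃ a ∈ S, encode a = n then 1 else 0

/-- The Turing degree of a set. -/
noncomputable def deg {α : Type} [Encodable α] (S : Set α) : TuringDegree :=
  toAntisymmetrization TuringReducible (charFn S : ℕ →. ℕ)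

/-- The set `D` of Turing degrees `d` such that there is a `Π⁰₁` class `P ⊆ 2^ω` for which
`L(P)*` is a finite lattice that is not a Boolean algebra and `Ext(P)` has degree `d`. -/
def D : Set TuringDegree :=
  {d | ∃ P : Pi01Class, Finite (LStar P) ∧ ¬ ComplementedLattice (LStar P) ∧ deg (Ext P.1) = d}

/-- `f` dominates every computable function. -/
def Dominant (f : ℕ → ℕ) : Prop :=
  ∀ g : ℕ → ℕ, Computable g → ∀ᶠ n in Filter.atTop, g n ≤ f n

/-- The jump of the oracle `A`: the set of (codes of) partial computable functions `φ_e` such that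
`φ_e(⌜A ↾ t⌝)` is defined for some `t`. -/
def jump (A : ℕ → ℕ) : Set ℕ :=
  {e | ∃ t, ((Denumerable.ofNat Nat.Partrec.Code e).eval (encode (res A t))).Dom}

/-- The Turing jump `A'` of a set `A` of natural numbers. -/
noncomputable def setJump (A : Set ℕ) : Set ℕ := jump (charFn A)

/-- `C` is high: `C'` has the degree of `∅''`. -/
def IsHigh (C : Set ℕ) : Prop := deg (setJump C) = deg (setJump (setJump ∅))

end Pool.Agent.Lib.MP_3eaa21_lc
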