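import Pool.Agent.Lib.MP_3eaa21_lc.Tools

/-! Core of Martin's theorem: high c.e. sets compute maximal sets (box construction). -/

namespace Pool.Agent.Lib.MP_3eaa21_lc

open Encodable

namespace Martin

/-! ### States -/

/-- `z` is enumerated in the `e`-th c.e. set by stage `s`. -/
def inW (e s z : ℕ) : Bool :=
  (Nat.Partrec.Code.evaln s (Denumerable.ofNat Nat.Partrec.Code e) z).isSome

/-- The state of `z` at stage `s` with respect to the first `a` c.e. sets. -/
def stt : ℕ → ℕ → ℕ → ℕ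
  | 0, _, _ => 0
  | a + 1, z, s => 2 * stt a z s + (inW a s z).toNat

theorem inW_mono {e s t z : ℕ} (h : s ≤ t) (hs : inW e s z = true) : inW e t z = true := by
  unfold inW at *
  obtain ⟨x, hx⟩ := Option.isSome_iff_exists.1 hs
  exact Option.isSome_iff_exists.2 ⟨x, Nat.Partrec.Code.evaln_mono h hx⟩

theorem stt_lt (a z s : ℕ) : stt a z s < 2 ^ a := by
  induction a with
  | zero => simp [stt]
  | succ a ih =>
    have : (inW a s z).toNat ≤ 1 := Bool.toNat_le _
    simp only [stt, pow_succ]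
    omega

theorem stt_mono {a z s t : ℕ} (h : s ≤ t) : stt a z s ≤ stt a z t := by
  induction a with
  | zero => simp [stt]
  | succ a ih =>
    simp only [stt]
    have : (inW a s z).toNat ≤ (inW a t z).toNat := by
      rcases hb : inW a s z with _ | _
      · simp
      · rw [inW_mono h hb]
    omega

theorem stt_lt_of_lt {a b z y s : ℕ} (hab : a ≤ b) (h : stt a z s < stt a y s) :
    stt b z s < stt b y s := by
  induction b, hab using Nat.le_induction with
  | base => exact h
  | succ b _ ih =>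
    simp only [stt]
    have : (inW b s z).toNat ≤ 1 := Bool.toNat_le _
    omega

theorem stt_le_of_le {a b z y s : ℕ} (hab : a ≤ b) (h : stt b z s ≤ stt b y s) :
    stt a z s ≤ stt a y s := by
  by_contra hc
  exact absurd (stt_lt_of_lt hab (not_le.1 hc)) (not_lt.2 h)

/-! ### Numerical parameters -/

/-- bound for the potential of the first `k` boxes -/
def BB : ℕ → ℕ
  | 0 => 1
  | k + 1 => BB k * ((BB k + 3) * 2 ^ (k + 1) + 1)

/-- size of the box with label `a` (meaningful for `a ≥ 1`) -/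
def NN (a : ℕ) : ℕ := BB (a - 1) + 2

theorem BB_mono {a b : ℕ} (h : a ≤ b) : BB a ≤ BB b := by
  induction b, h using Nat.le_induction with
  | base => exact le_rfl
  | succ b _ ih => exact ih.trans (Nat.le_mul_of_pos_right _ (Nat.succ_pos _))

theorem NN_pos (a : ℕ) : 0 < NN a := Nat.succ_pos _

/-! ### Configurations -/

/-- label of the element `z` : `0` means dumped (or not yet present) -/
def lab (l : List ℕ) (z : ℕ) : ℕ := l.getD z 0

/-- `(z, y)` is an improving pair at stage `s`. -/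
def Imp (p : ℕ → ℕ) (s : ℕ) (l : List ℕ) (z y : ℕ) : Prop :=
  0 < lab l z ∧ lab l z < lab l y ∧ p s < lab l z ∧
  (∀ w < l.length, lab l w = lab l z → stt (lab l z) z s ≤ stt (lab l z) w s) ∧
  stt (lab l z) z s < stt (lab l z) y s

/-- the improving move -/
def mv (l : List ℕ) (z y : ℕ) : List ℕ := (l.set z 0).set y (lab l z) ++ [lab l y]

/-- creation of the next box -/
def mkb (s : ℕ) (l : List ℕ) : List ℕ := l ++ List.replicate (NN (s + 1)) (s + 1)

/-- the coding move at box label `a` at stage `t` -/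
def Cod (t : ℕ) (l : List ℕ) (a : ℕ) (l' : List ℕ) : Prop :=
  ∃ z < l.length, lab l z = a ∧
    (∀ w < l.length, lab l w = a → stt a z t ≤ stt a w t) ∧ l' = l.set z 0 ++ [a]

/-- one micro-step of the construction -/
def Rel (p : ℕ → ℕ) (c : ℕ → Option ℕ) (a b : ℕ × List ℕ) : Prop :=
  (∃ z < a.2.length, ∃ y < a.2.length, Imp p a.1 a.2 z y ∧ b.1 = a.1 ∧ b.2 = mv a.2 z y) ∨
  ((∀ z < a.2.length, ∀ y < a.2.length, ¬ Imp p a.1 a.2 z y) ∧ b.1 = a.1 + 1 ∧
    (((∀ i ≤ a.1, c (a.1 + 1) ≠ some i) ∧ b.2 = mkb a.1 a.2) ∨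
     (∃ i ≤ a.1, c (a.1 + 1) = some i ∧ Cod (a.1 + 1) (mkb a.1 a.2) (i + 1) b.2)))

/-! ### Computability -/

section comp

variable {α : Type*} [Primcodable α]

theorem c_inW {f g h : α → ℕ} (hf : Computable f) (hg : Computable g) (hh : Computable h) :
    Computable fun a => inW (f a) (g a) (h a) := by
  have h1 : Computable fun a : (ℕ × Nat.Partrec.Code) × ℕ =>
      Nat.Partrec.Code.evaln a.1.1 a.1.2 a.2 := Nat.Partrec.Code.primrec_evaln.to_comp
  have h2 : Computable fun a : α => ((g a, Denumerable.ofNat Nat.Partrec.Code (f a)), h a) :=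
    Computable.pair (Computable.pair hg ((Primrec.ofNat Nat.Partrec.Code).to_comp.comp hf)) hh
  exact Primrec.option_isSome.to_comp.comp (h1.comp h2)

theorem c_toNat {f : α → Bool} (hf : Computable f) : Computable fun a => (f a).toNat := by
  refine (hf.cond (Computable.const 1) (Computable.const 0)).of_eq ?_
  intro a
  cases f a <;> rfl

theorem c_stt {f g h : α → ℕ} (hf : Computable f) (hg : Computable g) (hh : Computable h) :
    Computable fun a => stt (f a) (g a) (h a) := by
  have h1 : Computable₂ (fun (a : α) (x : ℕ × ℕ) => 2 * x.2 + (inW x.1 (h a) (g a)).toNat) := by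
    refine c_add (c_mul (Computable.const 2) (Computable.snd.comp Computable.snd)) ?_
    exact c_toNat (c_inW (Computable.fst.comp Computable.snd) (hh.comp Computable.fst)
      (hg.comp Computable.fst))
  refine (Computable.nat_rec hf (Computable.const 0) h1).of_eq ?_
  intro a
  have : ∀ n, (Nat.rec 0 (fun y IH => 2 * IH + (inW y (h a) (g a)).toNat) n : ℕ)
      = stt n (g a) (h a) := by
    intro n
    induction n with
    | zero => rfl
    | succ n ih => simp only [stt, ih]
  exact this (f a)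

theorem c_BB {f : α → ℕ} (hf : Computable f) : Computable fun a => BB (f a) := by
  have h1 : Computable₂ (fun (_ : α) (x : ℕ × ℕ) => x.2 * ((x.2 + 3) * 2 ^ (x.1 + 1) + 1)) := by
    have hx2 : Computable fun x : α × (ℕ × ℕ) => x.2.2 := Computable.snd.comp Computable.snd
    have hx1 : Computable fun x : α × (ℕ × ℕ) => x.2.1 := Computable.fst.comp Computable.snd
    exact c_mul hx2 (c_add (c_mul (c_add hx2 (Computable.const 3))
      (c_pow (Computable.const 2) (c_add hx1 (Computable.const 1)))) (Computable.const 1))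
  refine (Computable.nat_rec hf (Computable.const 1) h1).of_eq ?_
  intro a
  have : ∀ n, (Nat.rec 1 (fun y IH => IH * ((IH + 3) * 2 ^ (y + 1) + 1)) n : ℕ) = BB n := by
    intro n
    induction n with
    | zero => rfl
    | succ n ih => simp only [BB, ih]
  exact this (f a)

theorem c_NN {f : α → ℕ} (hf : Computable f) : Computable fun a => NN (f a) :=
  c_add (c_BB (c_sub hf (Computable.const 1))) (Computable.const 2)

theorem c_lab {l : α → List ℕ} {z : α → ℕ} (hl : Computable l) (hz : Computable z) :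
    Computable fun a => lab (l a) (z a) := c_getD hl hz

theorem p_Imp {p : ℕ → ℕ} (hp : Computable p) {s : α → ℕ} {l : α → List ℕ} {z y : α → ℕ}
    (hs : Computable s) (hl : Computable l) (hz : Computable z) (hy : Computable y) :
    ComputablePred fun a => Imp p (s a) (l a) (z a) (y a) := by
  refine p_and (p_lt (Computable.const 0) (c_lab hl hz)) (p_and (p_lt (c_lab hl hz) (c_lab hl hy))
    (p_and (p_lt (hp.comp hs) (c_lab hl hz)) (p_and ?_ ?_)))
  · refine p_all_lt (p := fun a w => lab (l a) w = lab (l a) (z a) →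
      stt (lab (l a) (z a)) (z a) (s a) ≤ stt (lab (l a) (z a)) w (s a)) (c_length hl) ?_
    have f1 : Computable fun x : α × ℕ => lab (l x.1) (z x.1) :=
      c_lab (hl.comp Computable.fst) (hz.comp Computable.fst)
    refine p_imp (p_eq (c_lab (hl.comp Computable.fst) Computable.snd) f1) ?_
    exact p_le (c_stt f1 (hz.comp Computable.fst) (hs.comp Computable.fst))
      (c_stt f1 Computable.snd (hs.comp Computable.fst))
  · exact p_lt (c_stt (c_lab hl hz) hz hs) (c_stt (c_lab hl hz) hy hs)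

theorem c_mv {l : α → List ℕ} {z y : α → ℕ} (hl : Computable l) (hz : Computable z)
    (hy : Computable y) : Computable fun a => mv (l a) (z a) (y a) :=
  c_append (c_set (c_set hl hz (Computable.const 0)) hy (c_lab hl hz))
    (c_cons (c_lab hl hy) (Computable.const []))

theorem c_mkb {s : α → ℕ} {l : α → List ℕ} (hs : Computable s) (hl : Computable l) :
    Computable fun a => mkb (s a) (l a) :=
  c_append hl (c_replicate (c_NN (c_add hs (Computable.const 1)))
    (c_add hs (Computable.const 1)))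

theorem p_Cod {t : α → ℕ} {l : α → List ℕ} {b : α → ℕ} {l' : α → List ℕ} (ht : Computable t)
    (hl : Computable l) (hb : Computable b) (hl' : Computable l') :
    ComputablePred fun a => Cod (t a) (l a) (b a) (l' a) := by
  have : ComputablePred fun a => ∃ z < (l a).length, lab (l a) z = b a ∧
      (∀ w < (l a).length, lab (l a) w = b a → stt (b a) z (t a) ≤ stt (b a) w (t a)) ∧
      l' a = (l a).set z 0 ++ [b a] := by
    refine p_ex_lt (p := fun a z => lab (l a) z = b a ∧
      (∀ w < (l a).length, lab (l a) w = b a → stt (b a) z (t a) ≤ stt (b a) w (t a)) ∧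
      l' a = (l a).set z 0 ++ [b a]) (c_length hl) ?_
    have hl1 : Computable fun x : α × ℕ => l x.1 := hl.comp Computable.fst
    have hb1 : Computable fun x : α × ℕ => b x.1 := hb.comp Computable.fst
    refine p_and (p_eq (c_lab hl1 Computable.snd) hb1) (p_and ?_ ?_)
    · refine p_all_lt (p := fun (x : α × ℕ) w => lab (l x.1) w = b x.1 →
        stt (b x.1) x.2 (t x.1) ≤ stt (b x.1) w (t x.1)) (c_length hl1) ?_
      have hb2 : Computable fun x : (α × ℕ) × ℕ => b x.1.1 := hb1.comp Computable.fst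
      have ht2 : Computable fun x : (α × ℕ) × ℕ => t x.1.1 :=
        ht.comp (Computable.fst.comp Computable.fst)
      refine p_imp (p_eq (c_lab (hl1.comp Computable.fst) Computable.snd) hb2) ?_
      exact p_le (c_stt hb2 (Computable.snd.comp Computable.fst) ht2)
        (c_stt hb2 Computable.snd ht2)
    · exact p_eq (hl'.comp Computable.fst) (c_append (c_set hl1 Computable.snd
        (Computable.const 0)) (c_cons hb1 (Computable.const [])))
  exact this

theorem p_Rel {p : ℕ → ℕ} {c : ℕ → Option ℕ} (hp : Computable p) (hc : Computable c) :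
    ComputablePred fun x : (ℕ × (ℕ × List ℕ)) × (ℕ × List ℕ) => Rel p c x.1.2 x.2 := by
  have hs : Computable fun x : (ℕ × (ℕ × List ℕ)) × (ℕ × List ℕ) => x.1.2.1 :=
    Computable.fst.comp (Computable.snd.comp Computable.fst)
  have hl : Computable fun x : (ℕ × (ℕ × List ℕ)) × (ℕ × List ℕ) => x.1.2.2 :=
    Computable.snd.comp (Computable.snd.comp Computable.fst)
  have hs' : Computable fun x : (ℕ × (ℕ × List ℕ)) × (ℕ × List ℕ) => x.2.1 :=
    Computable.fst.comp Computable.snd
  have hl' : Computable fun x : (ℕ × (ℕ × List ℕ)) × (ℕ × List ℕ) => x.2.2 :=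
    Computable.snd.comp Computable.snd
  have hs1 : Computable fun x : (ℕ × (ℕ × List ℕ)) × (ℕ × List ℕ) => x.1.2.1 + 1 :=
    c_add hs (Computable.const 1)
  refine p_or ?_ (p_and ?_ (p_and (p_eq hs' hs1) (p_or ?_ ?_)))
  · refine p_ex_lt (p := fun (x : (ℕ × (ℕ × List ℕ)) × (ℕ × List ℕ)) z =>
      ∃ y < x.1.2.2.length, Imp p x.1.2.1 x.1.2.2 z y ∧ x.2.1 = x.1.2.1 ∧
        x.2.2 = mv x.1.2.2 z y) (c_length hl) ?_
    refine p_ex_lt (p := fun (x : ((ℕ × (ℕ × List ℕ)) × (ℕ × List ℕ)) × ℕ) y =>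
      Imp p x.1.1.2.1 x.1.1.2.2 x.2 y ∧ x.1.2.1 = x.1.1.2.1 ∧
        x.1.2.2 = mv x.1.1.2.2 x.2 y) (c_length (hl.comp Computable.fst)) ?_
    have g1 : Computable fun x : (((ℕ × (ℕ × List ℕ)) × (ℕ × List ℕ)) × ℕ) × ℕ => x.1.1 :=
      Computable.fst.comp Computable.fst
    have g2 : Computable fun x : (((ℕ × (ℕ × List ℕ)) × (ℕ × List ℕ)) × ℕ) × ℕ => x.1.2 :=
      Computable.snd.comp Computable.fst
    refine p_and (p_Imp hp (hs.comp g1) (hl.comp g1) g2 Computable.snd) (p_and
      (p_eq (hs'.comp g1) (hs.comp g1)) (p_eq (hl'.comp g1) (c_mv (hl.comp g1) g2 Computable.snd)))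
  · refine p_all_lt (p := fun (x : (ℕ × (ℕ × List ℕ)) × (ℕ × List ℕ)) z =>
      ∀ y < x.1.2.2.length, ¬ Imp p x.1.2.1 x.1.2.2 z y) (c_length hl) ?_
    refine p_all_lt (p := fun (x : ((ℕ × (ℕ × List ℕ)) × (ℕ × List ℕ)) × ℕ) y =>
      ¬ Imp p x.1.1.2.1 x.1.1.2.2 x.2 y) (c_length (hl.comp Computable.fst)) ?_
    have g1 : Computable fun x : (((ℕ × (ℕ × List ℕ)) × (ℕ × List ℕ)) × ℕ) × ℕ => x.1.1 :=
      Computable.fst.comp Computable.fst
    have g2 : Computable fun x : (((ℕ × (ℕ × List ℕ)) × (ℕ × List ℕ)) × ℕ) × ℕ => x.1.2 :=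
      Computable.snd.comp Computable.fst
    exact p_not (p_Imp hp (hs.comp g1) (hl.comp g1) g2 Computable.snd)
  · refine p_and ?_ (p_eq hl' (c_mkb hs hl))
    refine p_all_le (p := fun (x : (ℕ × (ℕ × List ℕ)) × (ℕ × List ℕ)) i =>
      c (x.1.2.1 + 1) ≠ some i) hs ?_
    exact p_not (p_eq (hc.comp (hs1.comp Computable.fst))
      (Computable.option_some.comp Computable.snd))
  · refine p_ex_le (p := fun (x : (ℕ × (ℕ × List ℕ)) × (ℕ × List ℕ)) i =>
      c (x.1.2.1 + 1) = some i ∧ Cod (x.1.2.1 + 1) (mkb x.1.2.1 x.1.2.2) (i + 1) x.2.2) hs ?_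
    refine p_and (p_eq (hc.comp (hs1.comp Computable.fst))
      (Computable.option_some.comp Computable.snd)) ?_
    exact p_Cod (hs1.comp Computable.fst) ((c_mkb hs hl).comp Computable.fst)
      (c_add Computable.snd (Computable.const 1)) (hl'.comp Computable.fst)

end comp

/-! ### Labels and weighted sums -/

theorem lab_ge {l : List ℕ} {z : ℕ} (h : l.length ≤ z) : lab l z = 0 := by
  simp [lab, List.getD_eq_getElem?_getD, List.getElem?_eq_none h]

theorem lt_of_lab_pos {l : List ℕ} {z : ℕ} (h : 0 < lab l z) : z < l.length := by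
  by_contra hc
  rw [lab_ge (not_lt.1 hc)] at h
  exact absurd h (lt_irrefl 0)

theorem lab_append {l m : List ℕ} {z : ℕ} :
    lab (l ++ m) z = if z < l.length then lab l z else lab m (z - l.length) := by
  simp only [lab, List.getD_eq_getElem?_getD, List.getElem?_append]
  split_ifs <;> rfl

theorem lab_set {l : List ℕ} {z v w : ℕ} (hz : z < l.length) :
    lab (l.set z v) w = if w = z then v else lab l w := by
  simp only [lab, List.getD_eq_getElem?_getD, List.getElem?_set]
  by_cases h : w = z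
  · subst h; simp [hz]
  · rw [if_neg (fun h' => h h'.symm), if_neg h]

theorem lab_single {v w : ℕ} : lab [v] w = if w = 0 then v else 0 := by
  rcases w with _ | w <;> simp [lab]

theorem lab_replicate {n v w : ℕ} : lab (List.replicate n v) w = if w < n then v else 0 := by
  simp only [lab, List.getD_eq_getElem?_getD, List.getElem?_replicate]
  split_ifs <;> rfl

theorem lab_snoc {l : List ℕ} {v w : ℕ} :
    lab (l ++ [v]) w = if w = l.length then v else lab l w := by
  rw [lab_append, lab_single]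
  by_cases h : w < l.length
  · rw [if_pos h, if_neg (ne_of_lt h)]
  · rw [if_neg h]
    by_cases h2 : w = l.length
    · simp [h2]
    · rw [if_neg (by omega), if_neg h2, lab_ge (not_lt.1 h)]

theorem lab_mv {l : List ℕ} {z y w : ℕ} (hz : z < l.length) (hy : y < l.length) :
    lab (mv l z y) w = if w = l.length then lab l y else if w = y then lab l z else
      if w = z then 0 else lab l w := by
  unfold mv
  rw [lab_snoc, List.length_set, List.length_set, lab_set (by rwa [List.length_set]), lab_set hz]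

theorem length_mv {l : List ℕ} {z y : ℕ} : (mv l z y).length = l.length + 1 := by
  simp [mv]

theorem lab_mkb {s : ℕ} {l : List ℕ} {w : ℕ} :
    lab (mkb s l) w = if w < l.length then lab l w else
      if w < l.length + NN (s + 1) then s + 1 else 0 := by
  unfold mkb
  rw [lab_append, lab_replicate]
  by_cases h : w < l.length
  · simp [h]
  · rw [if_neg h, if_neg h]
    by_cases h2 : w < l.length + NN (s + 1)
    · rw [if_pos h2, if_pos (by omega)]
    · rw [if_neg h2, if_neg (by omega)]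

theorem length_mkb {s : ℕ} {l : List ℕ} : (mkb s l).length = l.length + NN (s + 1) := by
  simp [mkb]

/-- weighted sum over the elements of a configuration -/
def ws (g : ℕ → ℕ → ℕ) (l : List ℕ) : ℕ := ∑ w ∈ Finset.range l.length, g w (lab l w)

theorem ws_snoc (g : ℕ → ℕ → ℕ) (l : List ℕ) (v : ℕ) :
    ws g (l ++ [v]) = ws g l + g l.length v := by
  unfold ws
  rw [List.length_append, List.length_singleton, Finset.sum_range_succ]
  congr 1
  · refine Finset.sum_congr rfl fun w hw => ?_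
    rw [lab_snoc, if_neg (ne_of_lt (Finset.mem_range.1 hw))]
  · rw [lab_snoc, if_pos rfl]

theorem ws_set (g : ℕ → ℕ → ℕ) {l : List ℕ} {z : ℕ} (v : ℕ) (hz : z < l.length) :
    ws g (l.set z v) + g z (lab l z) = ws g l + g z v := by
  unfold ws
  rw [List.length_set]
  have hm : z ∈ Finset.range l.length := Finset.mem_range.2 hz
  rw [← Finset.add_sum_erase _ _ hm, ← Finset.add_sum_erase (Finset.range l.length)
    (fun w => g w (lab l w)) hm, lab_set hz, if_pos rfl]
  have : ∑ x ∈ (Finset.range l.length).erase z, g x (lab (l.set z v) x) =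
      ∑ x ∈ (Finset.range l.length).erase z, g x (lab l x) := by
    refine Finset.sum_congr rfl fun w hw => ?_
    rw [lab_set hz, if_neg (Finset.ne_of_mem_erase hw)]
  rw [this]
  omega

theorem ws_mv (g : ℕ → ℕ → ℕ) {l : List ℕ} {z y : ℕ} (hz : z < l.length) (hy : y < l.length)
    (hzy : z ≠ y) :
    ws g (mv l z y) + g z (lab l z) + g y (lab l y) =
      ws g l + g z 0 + g y (lab l z) + g l.length (lab l y) := by
  unfold mv
  rw [ws_snoc, List.length_set, List.length_set]
  have h1 := ws_set g 0 hz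
  have h2 := ws_set g (l := l.set z 0) (lab l z) (z := y) (by rwa [List.length_set])
  rw [lab_set hz, if_neg (Ne.symm hzy)] at h2
  omega

theorem ws_append (g : ℕ → ℕ → ℕ) (l m : List ℕ) :
    ws g (l ++ m) = ws g l + ∑ i ∈ Finset.range m.length, g (l.length + i) (lab m i) := by
  unfold ws
  rw [List.length_append, Finset.sum_range_add]
  congr 1
  · refine Finset.sum_congr rfl fun w hw => ?_
    rw [lab_append, if_pos (Finset.mem_range.1 hw)]
  · refine Finset.sum_congr rfl fun w _ => ?_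
    rw [lab_append, if_neg (by omega)]
    congr 2
    omega

theorem ws_mkb (g : ℕ → ℕ → ℕ) (s : ℕ) (l : List ℕ) :
    ws g (mkb s l) = ws g l + ∑ i ∈ Finset.range (NN (s + 1)), g (l.length + i) (s + 1) := by
  unfold mkb
  rw [ws_append, List.length_replicate]
  congr 1
  refine Finset.sum_congr rfl fun w hw => ?_
  rw [lab_replicate, if_pos (Finset.mem_range.1 hw)]

theorem ws_le_of_le {g h : ℕ → ℕ → ℕ} {l : List ℕ}
    (H : ∀ w < l.length, g w (lab l w) ≤ h w (lab l w)) : ws g l ≤ ws h l :=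
  Finset.sum_le_sum fun w hw => H w (Finset.mem_range.1 hw)

/-- number of elements of the box with label `a` -/
def cnt (l : List ℕ) (a : ℕ) : ℕ := ws (fun _ b => if b = a then 1 else 0) l

/-! ### The invariant -/

/-- the basic invariant of the construction -/
structure Inv (s : ℕ) (l : List ℕ) : Prop where
  le_len : s ≤ l.length
  lab_le : ∀ z, lab l z ≤ z + 1
  lab_le_s : ∀ z, lab l z ≤ s
  card : ∀ a, 1 ≤ a → a ≤ s → cnt l a = NN a

theorem inv_zero : Inv 0 [] := by
  refine ⟨le_rfl, ?_, ?_, ?_⟩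
  · intro z; rw [lab_ge (Nat.zero_le _)]; omega
  · intro z; rw [lab_ge (Nat.zero_le _)]
  · intro a h1 h2; omega

theorem cnt_eq_zero {l : List ℕ} {a s : ℕ} (h : ∀ z, lab l z ≤ s) (ha : s < a) :
    cnt l a = 0 := by
  unfold cnt ws
  refine Finset.sum_eq_zero fun w _ => ?_
  show (if lab l w = a then 1 else 0) = 0
  rw [if_neg]
  have := h w
  omega

theorem cnt_le {s : ℕ} {l : List ℕ} (h : Inv s l) {a : ℕ} (ha : 1 ≤ a) : cnt l a ≤ NN a := by
  by_cases hs : a ≤ s
  · exact (h.card a ha hs).le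
  · rw [cnt_eq_zero h.lab_le_s (not_le.1 hs)]
    exact Nat.zero_le _

theorem inv_mv {p : ℕ → ℕ} {s : ℕ} {l : List ℕ} {z y : ℕ} (h : Inv s l) (hi : Imp p s l z y) :
    Inv s (mv l z y) := by
  obtain ⟨h1, h2, h3, h4, h5⟩ := hi
  have hz := lt_of_lab_pos h1
  have hy := lt_of_lab_pos (h1.trans h2)
  have hzy : z ≠ y := by rintro rfl; exact lt_irrefl _ h2
  refine ⟨?_, ?_, ?_, ?_⟩
  · rw [length_mv]; exact h.le_len.trans (Nat.le_succ _)
  · intro w
    rw [lab_mv hz hy]
    split_ifs with e1 e2 e3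
    · have := h.lab_le y; omega
    · have := h.lab_le y; subst e2; omega
    · omega
    · exact h.lab_le w
  · intro w
    rw [lab_mv hz hy]
    split_ifs with e1 e2 e3
    · exact h.lab_le_s y
    · exact h.lab_le_s z
    · omega
    · exact h.lab_le_s w
  · intro a ha has
    have := ws_mv (fun _ b => if b = a then 1 else 0) hz hy hzy
    rw [← h.card a ha has]
    unfold cnt
    rw [if_neg (show ¬ (0 = a) by omega)] at this
    omega

theorem inv_mkb {s : ℕ} {l : List ℕ} (h : Inv s l) : Inv (s + 1) (mkb s l) := by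
  refine ⟨?_, ?_, ?_, ?_⟩
  · rw [length_mkb]
    have := h.le_len
    have := NN_pos (s + 1)
    omega
  · intro w
    rw [lab_mkb]
    split_ifs with e1 e2
    · exact h.lab_le w
    · have := h.le_len; omega
    · omega
  · intro w
    rw [lab_mkb]
    split_ifs with e1 e2
    · exact (h.lab_le_s w).trans (Nat.le_succ _)
    · exact le_rfl
    · omega
  · intro a ha has
    unfold cnt
    rw [ws_mkb]
    by_cases e : a = s + 1
    · subst e
      have : cnt l (s + 1) = 0 := cnt_eq_zero h.lab_le_s (Nat.lt_succ_self s)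
      unfold cnt at this
      rw [this]
      simp
    · have := h.card a ha (by omega)
      unfold cnt at this
      rw [this]
      simp [Ne.symm e]

theorem lab_cod {m : List ℕ} {z a w : ℕ} (hz : z < m.length) :
    lab (m.set z 0 ++ [a]) w = if w = m.length then a else if w = z then 0 else lab m w := by
  rw [lab_snoc, List.length_set, lab_set hz]

theorem ws_cod (g : ℕ → ℕ → ℕ) {m : List ℕ} {z a : ℕ} (hz : z < m.length) (ha : lab m z = a) :
    ws g (m.set z 0 ++ [a]) + g z a = ws g m + g z 0 + g m.length a := by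
  rw [ws_snoc, List.length_set]
  have h1 := ws_set g 0 hz
  rw [ha] at h1
  omega

theorem inv_cod {s : ℕ} {m m' : List ℕ} {a t : ℕ} (h : Inv s m)
    (hc : Cod t m a m') : Inv s m' := by
  obtain ⟨z, hz, hza, -, rfl⟩ := hc
  refine ⟨?_, ?_, ?_, ?_⟩
  · rw [List.length_append, List.length_set]; exact h.le_len.trans (Nat.le_add_right _ _)
  · intro w
    rw [lab_cod hz]
    split_ifs with e1 e2
    · have := h.lab_le z; omega
    · omega
    · exact h.lab_le w
  · intro w
    rw [lab_cod hz]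
    split_ifs with e1 e2
    · rw [← hza]; exact h.lab_le_s z
    · omega
    · exact h.lab_le_s w
  · intro b hb hbs
    have := ws_cod (fun _ x => if x = b then 1 else 0) hz hza
    rw [← h.card b hb hbs]
    unfold cnt
    rw [if_neg (show ¬ (0 = b) by omega)] at this
    omega

theorem exists_cod {s : ℕ} {m : List ℕ} {a t : ℕ} (h : Inv s m) (ha : 1 ≤ a) (has : a ≤ s) :
    ∃ m', Cod t m a m' := by
  have hne : ((Finset.range m.length).filter (fun w => lab m w = a)).Nonempty := by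
    rw [Finset.nonempty_iff_ne_empty]
    intro he
    have h1 := h.card a ha has
    unfold cnt ws at h1
    rw [Finset.sum_eq_zero] at h1
    · have := NN_pos a; omega
    · intro w hw
      show (if lab m w = a then 1 else 0) = 0
      rw [if_neg]
      intro hl
      have : w ∈ (Finset.range m.length).filter (fun w => lab m w = a) :=
        Finset.mem_filter.2 ⟨hw, hl⟩
      rw [he] at this
      exact absurd this (Finset.notMem_empty w)
  obtain ⟨z, hz, hmin⟩ := Finset.exists_min_image _ (fun w => stt a w t) hne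
  rw [Finset.mem_filter, Finset.mem_range] at hz
  exact ⟨m.set z 0 ++ [a], z, hz.1, hz.2, fun w hw hwa =>
    hmin w (Finset.mem_filter.2 ⟨Finset.mem_range.2 hw, hwa⟩), rfl⟩

variable {p : ℕ → ℕ} {c : ℕ → Option ℕ}

theorem inv_step {a b : ℕ × List ℕ} (h : Inv a.1 a.2) (hr : Rel p c a b) : Inv b.1 b.2 := by
  rcases hr with ⟨z, -, y, -, hi, h1, h2⟩ | ⟨-, h1, ⟨-, h2⟩ | ⟨i, -, -, h2⟩⟩
  · rw [h1, h2]; exact inv_mv h hi
  · rw [h1, h2]; exact inv_mkb h
  · rw [h1]; exact inv_cod (inv_mkb h) h2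

theorem exists_step {a : ℕ × List ℕ} (h : Inv a.1 a.2) : ∃ b, Rel p c a b := by
  classical
  by_cases hi : ∃ z < a.2.length, ∃ y < a.2.length, Imp p a.1 a.2 z y
  · obtain ⟨z, hz, y, hy, hi⟩ := hi
    exact ⟨(a.1, mv a.2 z y), Or.inl ⟨z, hz, y, hy, hi, rfl, rfl⟩⟩
  · have hi' : ∀ z < a.2.length, ∀ y < a.2.length, ¬ Imp p a.1 a.2 z y :=
      fun z hz y hy h' => hi ⟨z, hz, y, hy, h'⟩
    by_cases hc : ∃ i ≤ a.1, c (a.1 + 1) = some i
    · obtain ⟨i, hi1, hi2⟩ := hc
      obtain ⟨m', hm'⟩ := exists_cod (t := a.1 + 1) (inv_mkb h) (Nat.succ_pos i)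
        (Nat.succ_le_succ hi1)
      exact ⟨(a.1 + 1, m'), Or.inr ⟨hi', rfl, Or.inr ⟨i, hi1, hi2, hm'⟩⟩⟩
    · exact ⟨(a.1 + 1, mkb a.1 a.2), Or.inr ⟨hi', rfl, Or.inl
        ⟨fun i hi1 hi2 => hc ⟨i, hi1, hi2⟩, rfl⟩⟩⟩

/-! ### The potential -/

/-- bound for the contribution of the box with label `k + 1` -/
def VV (k : ℕ) : ℕ := (BB k + 3) * 2 ^ (k + 1)

theorem BB_succ (k : ℕ) : BB (k + 1) = BB k * (VV k + 1) := rfl

/-- mixed radix value -/
def LL (v : ℕ → ℕ) : ℕ → ℕ
  | 0 => 0
  | k + 1 => LL v k * (VV k + 1) + v k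

theorem LL_lt {v : ℕ → ℕ} {k : ℕ} (h : ∀ j < k, v j ≤ VV j) : LL v k + 1 ≤ BB k := by
  induction k with
  | zero => exact le_rfl
  | succ k ih =>
    have h1 := ih fun j hj => h j (Nat.lt_succ_of_lt hj)
    have h2 := h k (Nat.lt_succ_self k)
    rw [BB_succ]
    simp only [LL]
    calc LL v k * (VV k + 1) + v k + 1 ≤ (LL v k + 1) * (VV k + 1) := by
          rw [add_mul]; omega
      _ ≤ BB k * (VV k + 1) := Nat.mul_le_mul_right _ h1

theorem LL_mono {v v' : ℕ → ℕ} {k : ℕ} (h : ∀ j < k, v j ≤ v' j) : LL v k ≤ LL v' k := by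
  induction k with
  | zero => exact le_rfl
  | succ k ih =>
    have h1 := ih fun j hj => h j (Nat.lt_succ_of_lt hj)
    have h2 := h k (Nat.lt_succ_self k)
    simp only [LL]
    exact add_le_add (Nat.mul_le_mul_right _ h1) h2

theorem LL_lex {v v' : ℕ → ℕ} {k α : ℕ} (hα : α < k) (h1 : ∀ j < α, v j ≤ v' j)
    (h2 : v α < v' α) (h3 : ∀ j < k, v j ≤ VV j) : LL v k + 1 ≤ LL v' k := by
  induction k, hα using Nat.le_induction with
  | base =>
    simp only [LL]
    have := Nat.mul_le_mul_right (VV α + 1) (LL_mono h1)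
    omega
  | succ k hk ih =>
    have h4 := ih fun j hj => h3 j (Nat.lt_succ_of_lt hj)
    have h5 := h3 k (Nat.lt_succ_self k)
    simp only [LL]
    have := Nat.mul_le_mul_right (VV k + 1) h4
    rw [add_mul] at this
    omega

open Classical in
/-- contribution of the box with label `k + 1` -/
noncomputable def vv (c : ℕ → Option ℕ) (s : ℕ) (l : List ℕ) (k : ℕ) : ℕ :=
  ws (fun w b => if b = k + 1 then stt (k + 1) w s else 0) l +
    (if ∃ t ≤ s, c t = some k then 2 ^ (k + 1) else 0)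

theorem vv_le {s : ℕ} {l : List ℕ} (h : Inv s l) (k : ℕ) : vv c s l k ≤ VV k := by
  unfold vv
  have h1 : ws (fun w b => if b = k + 1 then stt (k + 1) w s else 0) l ≤
      cnt l (k + 1) * 2 ^ (k + 1) := by
    unfold cnt ws
    rw [Finset.sum_mul]
    refine Finset.sum_le_sum fun w _ => ?_
    show (if lab l w = k + 1 then stt (k + 1) w s else 0) ≤
      (if lab l w = k + 1 then 1 else 0) * 2 ^ (k + 1)
    split_ifs
    · rw [one_mul]; exact (stt_lt _ _ _).le
    · exact Nat.zero_le _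
  have h2 : cnt l (k + 1) ≤ BB k + 2 := cnt_le h (Nat.succ_pos k)
  have h3 : cnt l (k + 1) * 2 ^ (k + 1) ≤ (BB k + 2) * 2 ^ (k + 1) := Nat.mul_le_mul_right _ h2
  have h4 : VV k = (BB k + 2) * 2 ^ (k + 1) + 2 ^ (k + 1) := by unfold VV; ring
  rw [h4]
  refine add_le_add (h1.trans h3) ?_
  split_ifs
  · exact le_rfl
  · exact Nat.zero_le _

theorem LL_bound {s : ℕ} {l : List ℕ} (h : Inv s l) (k : ℕ) : LL (vv c s l) k + 1 ≤ BB k :=
  LL_lt fun j _ => vv_le h j

theorem vv_mv_lt {s : ℕ} {l : List ℕ} {z y k : ℕ} (hi : Imp p s l z y) (hk : k + 1 < lab l z) :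
    vv c s (mv l z y) k = vv c s l k := by
  obtain ⟨h1, h2, h3, h4, h5⟩ := hi
  have hz := lt_of_lab_pos h1
  have hy := lt_of_lab_pos (h1.trans h2)
  have hzy : z ≠ y := by rintro rfl; exact lt_irrefl _ h2
  have := ws_mv (fun w b => if b = k + 1 then stt (k + 1) w s else 0) hz hy hzy
  rw [if_neg (show ¬ (0 = k + 1) by omega), if_neg (show ¬ (lab l z = k + 1) by omega),
    if_neg (show ¬ (lab l y = k + 1) by omega), if_neg (show ¬ (lab l z = k + 1) by omega),
    if_neg (show ¬ (lab l y = k + 1) by omega)] at this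
  unfold vv
  omega

theorem vv_mv_eq {s : ℕ} {l : List ℕ} {z y k : ℕ} (hi : Imp p s l z y) (hk : k + 1 = lab l z) :
    vv c s l k < vv c s (mv l z y) k := by
  obtain ⟨h1, h2, h3, h4, h5⟩ := hi
  have hz := lt_of_lab_pos h1
  have hy := lt_of_lab_pos (h1.trans h2)
  have hzy : z ≠ y := by rintro rfl; exact lt_irrefl _ h2
  have := ws_mv (fun w b => if b = k + 1 then stt (k + 1) w s else 0) hz hy hzy
  rw [if_neg (show ¬ (0 = k + 1) by omega), if_pos (show lab l z = k + 1 by omega),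
    if_neg (show ¬ (lab l y = k + 1) by omega), if_pos (show (lab l z = k + 1) by omega),
    if_neg (show ¬ (lab l y = k + 1) by omega)] at this
  rw [← hk] at h5
  unfold vv
  omega

theorem ws_mkb_le {s k : ℕ} {l : List ℕ} :
    ws (fun w b => if b = k + 1 then stt (k + 1) w s else 0) l ≤
      ws (fun w b => if b = k + 1 then stt (k + 1) w (s + 1) else 0) (mkb s l) := by
  rw [ws_mkb]
  refine le_trans (ws_le_of_le fun w _ => ?_) (Nat.le_add_right _ _)
  split_ifs
  · exact stt_mono (Nat.le_succ s)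
  · exact le_rfl

theorem bon_le {s k : ℕ} [Decidable (∃ t ≤ s, c t = some k)]
    [Decidable (∃ t ≤ s + 1, c t = some k)] :
    (if ∃ t ≤ s, c t = some k then 2 ^ (k + 1) else 0) ≤
      (if ∃ t ≤ s + 1, c t = some k then 2 ^ (k + 1) else 0) := by
  by_cases h : ∃ t ≤ s, c t = some k
  · have h' : ∃ t ≤ s + 1, c t = some k := by
      obtain ⟨t, ht, hc⟩ := h
      exact ⟨t, ht.trans (Nat.le_succ s), hc⟩
    rw [if_pos h, if_pos h']
  · rw [if_neg h]; exact Nat.zero_le _

theorem vv_mkb {s k : ℕ} {l : List ℕ} : vv c s l k ≤ vv c (s + 1) (mkb s l) k := by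
  unfold vv
  exact add_le_add ws_mkb_le bon_le

theorem vv_cod_ne {t k i : ℕ} {m m' : List ℕ} (hc : Cod t m (i + 1) m') (hk : k ≠ i) :
    vv c t m' k = vv c t m k := by
  obtain ⟨z, hz, hza, -, rfl⟩ := hc
  have := ws_cod (fun w b => if b = k + 1 then stt (k + 1) w t else 0) hz hza
  rw [if_neg (show ¬ (i + 1 = k + 1) by omega), if_neg (show ¬ (0 = k + 1) by omega),
    if_neg (show ¬ (i + 1 = k + 1) by omega)] at this
  unfold vv
  omega

theorem vv_cod_eq {s i : ℕ} {l m' : List ℕ} (hinj : ∀ s t i, c s = some i → c t = some i → s = t)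
    (hci : c (s + 1) = some i) (hc : Cod (s + 1) (mkb s l) (i + 1) m') :
    vv c s l i < vv c (s + 1) m' i := by
  classical
  obtain ⟨z, hz, hza, -, rfl⟩ := hc
  have h1 := ws_cod (fun w b => if b = i + 1 then stt (i + 1) w (s + 1) else 0) hz hza
  rw [if_pos rfl, if_neg (show ¬ (0 = i + 1) by omega), if_pos rfl] at h1
  have h2 := stt_lt (i + 1) z (s + 1)
  have h3 := ws_mkb_le (s := s) (k := i) (l := l)
  unfold vv
  rw [if_neg (show ¬ (∃ t ≤ s, c t = some i) by
    rintro ⟨t, ht, hct⟩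
    have := hinj t (s + 1) i hct hci
    omega), if_pos (show ∃ t ≤ s + 1, c t = some i from ⟨s + 1, le_rfl, hci⟩)]
  omega

/-! ### Persistence of good elements -/

/-- number of elements with label above `k` whose state reaches `τ` -/
def gd (e τ s k : ℕ) (l : List ℕ) : ℕ :=
  ws (fun w b => if k < b ∧ τ ≤ stt e w s then 1 else 0) l

theorem gd_mkb {e τ s k : ℕ} {l : List ℕ} : gd e τ s k l ≤ gd e τ (s + 1) k (mkb s l) := by
  unfold gd
  rw [ws_mkb]
  refine le_trans (ws_le_of_le fun w _ => ?_) (Nat.le_add_right _ _)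
  by_cases h : k < lab l w ∧ τ ≤ stt e w s
  · rw [if_pos h, if_pos ⟨h.1, h.2.trans (stt_mono (Nat.le_succ s))⟩]
  · rw [if_neg h]; exact Nat.zero_le _

theorem cnt_le_gd {e τ s k a : ℕ} {l : List ℕ} (ha : k < a)
    (h : ∀ w < l.length, lab l w = a → τ ≤ stt e w s) : cnt l a ≤ gd e τ s k l := by
  unfold cnt gd
  refine ws_le_of_le fun w hw => ?_
  by_cases hl : lab l w = a
  · rw [if_pos hl, if_pos ⟨hl ▸ ha, h w hw hl⟩]
  · rw [if_neg hl]; exact Nat.zero_le _

theorem NN_ge {k a : ℕ} (h : k < a) : BB k + 2 ≤ NN a :=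
  Nat.add_le_add_right (BB_mono (by omega)) 2

theorem persist_mv {e τ k s : ℕ} {l : List ℕ} {z y : ℕ} (he : e ≤ k + 1) (h : Inv s l)
    (hi : Imp p s l z y) (hB : BB k + 1 ≤ gd e τ s k l + LL (vv c s l) k) :
    BB k + 1 ≤ gd e τ s k (mv l z y) + LL (vv c s (mv l z y)) k := by
  have hi' := hi
  obtain ⟨h1, h2, h3, h4, h5⟩ := hi
  have hz := lt_of_lab_pos h1
  have hy := lt_of_lab_pos (h1.trans h2)
  have hzy : z ≠ y := by rintro rfl; exact lt_irrefl _ h2
  have hws := ws_mv (fun w b => if k < b ∧ τ ≤ stt e w s then 1 else 0) hz hy hzy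
  rw [if_neg (show ¬ (k < 0 ∧ τ ≤ stt e z s) by omega)] at hws
  change gd e τ s k (mv l z y) + _ + _ = gd e τ s k l + 0 + _ + _ at hws
  by_cases hk : lab l z ≤ k
  · have hLL : LL (vv c s l) k + 1 ≤ LL (vv c s (mv l z y)) k := by
      refine LL_lex (α := lab l z - 1) (by omega) (fun j hj => ?_) ?_ (fun j _ => vv_le h j)
      · exact (vv_mv_lt hi' (by omega)).ge
      · exact vv_mv_eq hi' (by omega)
    rw [if_neg (show ¬ (k < lab l z ∧ τ ≤ stt e z s) by omega)] at hws
    have h6 : (if k < lab l y ∧ τ ≤ stt e y s then 1 else 0) ≤ 1 := by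
      split_ifs
      · exact le_rfl
      · exact Nat.zero_le _
    omega
  · have hk' : k < lab l z := not_le.1 hk
    have hLL : LL (vv c s l) k ≤ LL (vv c s (mv l z y)) k :=
      LL_mono fun j hj => (vv_mv_lt hi' (by omega)).ge
    have hea : e ≤ lab l z := by omega
    by_cases hg : τ ≤ stt e z s
    · have h7 : ∀ w < (mv l z y).length, lab (mv l z y) w = lab l z → τ ≤ stt e w s := by
        intro w _ hw
        rw [lab_mv hz hy] at hw
        split_ifs at hw with e1 e2 e3
        · omega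
        · subst e2
          exact hg.trans (stt_le_of_le hea h5.le)
        · omega
        · by_cases hwl : w < l.length
          · exact hg.trans (stt_le_of_le hea (h4 w hwl hw))
          · rw [lab_ge (not_lt.1 hwl)] at hw; omega
      have h8 := cnt_le_gd hk' h7
      have h9 := (inv_mv h hi').card (lab l z) h1 (h.lab_le_s z)
      have h10 := NN_ge hk'
      omega
    · rw [if_neg (show ¬ (k < lab l z ∧ τ ≤ stt e z s) by omega)] at hws
      by_cases hgy : τ ≤ stt e y s
      · rw [if_pos (show k < lab l y ∧ τ ≤ stt e y s from ⟨by omega, hgy⟩),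
          if_pos (show k < lab l z ∧ τ ≤ stt e y s from ⟨hk', hgy⟩)] at hws
        omega
      · rw [if_neg (show ¬ (k < lab l y ∧ τ ≤ stt e y s) by omega)] at hws
        omega

theorem persist_step {e τ k : ℕ} {a b : ℕ × List ℕ}
    (hinj : ∀ s t i, c s = some i → c t = some i → s = t) (he : e ≤ k + 1)
    (h : Inv a.1 a.2) (hr : Rel p c a b)
    (hB : BB k + 1 ≤ gd e τ a.1 k a.2 + LL (vv c a.1 a.2) k) :
    BB k + 1 ≤ gd e τ b.1 k b.2 + LL (vv c b.1 b.2) k := by
  rcases hr with ⟨z, -, y, -, hi, h1, h2⟩ | ⟨-, h1, ⟨-, h2⟩ | ⟨i, -, hci, h2⟩⟩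
  · rw [h1, h2]; exact persist_mv he h hi hB
  · rw [h1, h2]
    exact hB.trans (add_le_add gd_mkb (LL_mono fun j _ => vv_mkb))
  · rw [h1]
    have hLL : LL (vv c a.1 a.2) k ≤ LL (vv c (a.1 + 1) b.2) k := by
      refine LL_mono fun j _ => ?_
      by_cases hj : j = i
      · subst hj
        exact (vv_cod_eq hinj hci h2).le
      · rw [vv_cod_ne h2 hj]; exact vv_mkb
    have hg := gd_mkb (e := e) (τ := τ) (s := a.1) (k := k) (l := a.2)
    have hm := inv_mkb h
    set m := mkb a.1 a.2 with hmdef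
    obtain ⟨z, hz, hza, hmin, hb2⟩ := h2
    have hws := ws_cod (fun w b => if k < b ∧ τ ≤ stt e w (a.1 + 1) then 1 else 0) hz hza
    rw [← hb2, if_neg (show ¬ (k < 0 ∧ τ ≤ stt e z (a.1 + 1)) by omega)] at hws
    change gd e τ (a.1 + 1) k b.2 + _ = gd e τ (a.1 + 1) k m + 0 + _ at hws
    by_cases hgz : k < i + 1 ∧ τ ≤ stt e z (a.1 + 1)
    · have h7 : ∀ w < m.length, lab m w = i + 1 → τ ≤ stt e w (a.1 + 1) := fun w hw hwl =>
        hgz.2.trans (stt_le_of_le (by omega) (hmin w hw hwl))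
      have h8 := cnt_le_gd hgz.1 h7
      have h9 := hm.card (i + 1) (Nat.succ_pos i) (by rw [← hza]; exact hm.lab_le_s z)
      have h10 := NN_ge hgz.1
      rw [if_pos hgz] at hws
      omega
    · rw [if_neg hgz] at hws
      omega

/-! ### How labels change -/

theorem step_stage {a b : ℕ × List ℕ} (hr : Rel p c a b) : b.1 = a.1 ∨ b.1 = a.1 + 1 := by
  rcases hr with ⟨z, -, y, -, -, h1, -⟩ | ⟨-, h1, -⟩
  · exact Or.inl h1
  · exact Or.inr h1

theorem step_length {a b : ℕ × List ℕ} (hr : Rel p c a b) : a.2.length ≤ b.2.length := by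
  rcases hr with ⟨z, -, y, -, hi, h1, h2⟩ | ⟨-, h1, ⟨-, h2⟩ | ⟨i, -, hci, h2⟩⟩
  · rw [h2, length_mv]; exact Nat.le_succ _
  · rw [h2, length_mkb]; exact Nat.le_add_right _ _
  · obtain ⟨z, hz, hza, hmin, hb2⟩ := h2
    rw [hb2, List.length_append, List.length_set, length_mkb]
    omega

theorem step_lab_le {a b : ℕ × List ℕ} (hr : Rel p c a b) {w : ℕ} (hw : w < a.2.length) :
    lab b.2 w ≤ lab a.2 w := by
  rcases hr with ⟨z, hz, y, hy, hi, h1, h2⟩ | ⟨-, h1, ⟨-, h2⟩ | ⟨i, -, hci, h2⟩⟩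
  · rw [h2, lab_mv hz hy]
    split_ifs with e1 e2 e3
    · omega
    · subst e2; exact hi.2.1.le
    · exact Nat.zero_le _
    · exact le_rfl
  · rw [h2, lab_mkb, if_pos hw]
  · obtain ⟨z, hz, hza, hmin, hb2⟩ := h2
    rw [hb2, lab_cod hz, length_mkb, if_neg (by omega), lab_mkb, if_pos hw]
    split_ifs
    · exact Nat.zero_le _
    · exact le_rfl

theorem step_change (hpc : ∀ s i, c s = some i → p s ≤ i) {a b : ℕ × List ℕ}
    (hr : Rel p c a b) {w : ℕ} (hw : lab b.2 w ≠ lab a.2 w) :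
    (lab a.2 w = 0 ∨ p b.1 < lab a.2 w) ∧
      (lab b.2 w = 0 ∨ p b.1 < lab b.2 w ∨ a.1 < lab b.2 w) := by
  rcases hr with ⟨z, hz, y, hy, hi, h1, h2⟩ | ⟨-, h1, ⟨-, h2⟩ | ⟨i, -, hci, h2⟩⟩
  · rw [h1]
    rw [h2, lab_mv hz hy] at hw ⊢
    have h3 := hi.2.2.1
    have h4 := hi.2.1
    split_ifs at hw ⊢ with e1 e2 e3
    · rw [lab_ge e1.ge]
      exact ⟨Or.inl rfl, Or.inr (Or.inl (by omega))⟩
    · subst e2
      exact ⟨Or.inr (by omega), Or.inr (Or.inl (by omega))⟩
    · subst e3
      exact ⟨Or.inr h3, Or.inl rfl⟩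
    · exact absurd rfl hw
  · rw [h1]
    rw [h2, lab_mkb] at hw ⊢
    split_ifs at hw ⊢ with e1 e2
    · exact absurd rfl hw
    · rw [lab_ge (not_lt.1 e1)]
      exact ⟨Or.inl rfl, Or.inr (Or.inr (Nat.lt_succ_self _))⟩
    · rw [lab_ge (not_lt.1 e1)]
      exact ⟨Or.inl rfl, Or.inl rfl⟩
  · have h3 := hpc _ _ hci
    obtain ⟨z, hz, hza, hmin, hb2⟩ := h2
    rw [h1]
    rw [hb2, lab_cod hz] at hw ⊢
    split_ifs at hw ⊢ with e1 e2
    · rw [length_mkb] at e1
      rw [lab_ge (l := a.2) (z := w) (by omega)]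
      exact ⟨Or.inl rfl, Or.inr (Or.inl (by omega))⟩
    · subst e2
      refine ⟨?_, Or.inl rfl⟩
      by_cases hwl : w < a.2.length
      · rw [lab_mkb, if_pos hwl] at hza
        exact Or.inr (by omega)
      · exact Or.inl (lab_ge (not_lt.1 hwl))
    · rw [lab_mkb] at hw ⊢
      split_ifs at hw ⊢ with e1 e2
      · exact absurd rfl hw
      · rw [lab_ge (not_lt.1 e1)]
        exact ⟨Or.inl rfl, Or.inr (Or.inr (Nat.lt_succ_self _))⟩
      · rw [lab_ge (not_lt.1 e1)]
        exact ⟨Or.inl rfl, Or.inl rfl⟩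

theorem step_box (hpc : ∀ s i, c s = some i → p s ≤ i) {a b : ℕ × List ℕ}
    (hr : Rel p c a b) {x : ℕ} (hx : 1 ≤ x) (hxa : x ≤ a.1) (hxp : x ≤ p b.1) (w : ℕ) :
    lab b.2 w = x ↔ lab a.2 w = x := by
  by_cases h : lab b.2 w = lab a.2 w
  · rw [h]
  · have := step_change hpc hr h
    omega

theorem step_low (x : ℕ) {a b : ℕ × List ℕ} (hr : Rel p c a b) (hx : x ≤ a.1) :
    (∀ w, (1 ≤ lab b.2 w ∧ lab b.2 w ≤ x) ↔ (1 ≤ lab a.2 w ∧ lab a.2 w ≤ x)) ∨
      ∃ w < a.2.length, 1 ≤ lab a.2 w ∧ lab a.2 w ≤ x ∧ lab b.2 w = 0 := by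
  rcases hr with ⟨z, hz, y, hy, hi, h1, h2⟩ | ⟨-, h1, ⟨-, h2⟩ | ⟨i, -, hci, h2⟩⟩
  · have h3 := hi.2.1
    have h4 := hi.1
    by_cases hzx : lab a.2 z ≤ x
    · refine Or.inr ⟨z, hz, h4, hzx, ?_⟩
      have hzy : z ≠ y := by rintro rfl; exact lt_irrefl _ h3
      rw [h2, lab_mv hz hy, if_neg (ne_of_lt hz), if_neg hzy, if_pos rfl]
    · refine Or.inl fun w => ?_
      rw [h2, lab_mv hz hy]
      split_ifs with e1 e2 e3
      · rw [lab_ge e1.ge]; omega
      · subst e2; omega
      · subst e3; omega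
      · exact Iff.rfl
  · refine Or.inl fun w => ?_
    rw [h2, lab_mkb]
    split_ifs with e1 e2
    · exact Iff.rfl
    · rw [lab_ge (not_lt.1 e1)]; omega
    · rw [lab_ge (not_lt.1 e1)]
  · obtain ⟨z, hz, hza, hmin, hb2⟩ := h2
    by_cases hix : i + 1 ≤ x
    · have hzl : z < a.2.length := by
        by_contra hc
        rw [lab_mkb, if_neg hc] at hza
        split_ifs at hza
        · omega
      rw [lab_mkb, if_pos hzl] at hza
      refine Or.inr ⟨z, hzl, by omega, by omega, ?_⟩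
      rw [hb2, lab_cod hz, if_neg (ne_of_lt hz), if_pos rfl]
    · refine Or.inl fun w => ?_
      rw [hb2, lab_cod hz]
      split_ifs with e1 e2
      · rw [length_mkb] at e1
        rw [lab_ge (l := a.2) (z := w) (by omega)]; omega
      · subst e2
        by_cases hwl : w < a.2.length
        · rw [lab_mkb, if_pos hwl] at hza
          omega
        · rw [lab_ge (not_lt.1 hwl)]
      · rw [lab_mkb]
        split_ifs with e1 e2
        · exact Iff.rfl
        · rw [lab_ge (not_lt.1 e1)]; omega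
        · rw [lab_ge (not_lt.1 e1)]

theorem step_code {a b : ℕ × List ℕ} (hr : Rel p c a b) (hb : b.1 = a.1 + 1) {i : ℕ}
    (hc : c (a.1 + 1) = some i) (hi : i + 1 ≤ a.1) :
    ∃ w < a.2.length, lab a.2 w = i + 1 ∧ lab b.2 w = 0 := by
  rcases hr with ⟨z, hz, y, hy, -, h1, h2⟩ | ⟨-, h1, ⟨hno, h2⟩ | ⟨i', -, hci, h2⟩⟩
  · omega
  · exact absurd hc (hno i (by omega))
  · rw [hc] at hci
    have : i = i' := by simpa using hci
    subst this
    obtain ⟨z, hz, hza, hmin, hb2⟩ := h2
    have hzl : z < a.2.length := by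
      by_contra hc
      rw [lab_mkb, if_neg hc] at hza
      split_ifs at hza
      · omega
    refine ⟨z, hzl, by rwa [lab_mkb, if_pos hzl] at hza, ?_⟩
    rw [hb2, lab_cod hz, if_neg (ne_of_lt hz), if_pos rfl]

/-! ### Runs of the construction -/

/-- an infinite run -/
structure Run (p : ℕ → ℕ) (c : ℕ → Option ℕ) (F : ℕ → ℕ × List ℕ) : Prop where
  zero : F 0 = (0, [])
  rel : ∀ n, Rel p c (F n) (F (n + 1))
  inv : ∀ n, Inv (F n).1 (F n).2

variable {F : ℕ → ℕ × List ℕ}

theorem Run.stage_mono (h : Run p c F) {m n : ℕ} (hmn : m ≤ n) : (F m).1 ≤ (F n).1 := by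
  induction n, hmn using Nat.le_induction with
  | base => exact le_rfl
  | succ n _ ih =>
    have := step_stage (h.rel n)
    omega

theorem Run.length_mono (h : Run p c F) {m n : ℕ} (hmn : m ≤ n) :
    (F m).2.length ≤ (F n).2.length := by
  induction n, hmn using Nat.le_induction with
  | base => exact le_rfl
  | succ n _ ih => exact ih.trans (step_length (h.rel n))

theorem Run.lab_mono (h : Run p c F) {m n : ℕ} (hmn : m ≤ n) {w : ℕ}
    (hw : w < (F m).2.length) : lab (F n).2 w ≤ lab (F m).2 w := by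
  induction n, hmn using Nat.le_induction with
  | base => exact le_rfl
  | succ n hn ih =>
    exact (step_lab_le (h.rel n) (hw.trans_le (h.length_mono hn))).trans ih

theorem Run.progress (h : Run p c F) (n : ℕ) :
    ∃ m ≥ n, (F m).1 = (F n).1 ∧ (F (m + 1)).1 = (F n).1 + 1 := by
  by_contra hno
  push Not at hno
  have hst : ∀ j, (F (n + j)).1 = (F n).1 := by
    intro j
    induction j with
    | zero => rfl
    | succ j ih =>
      have h1 := hno (n + j) (Nat.le_add_right _ _) ih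
      have h2 := step_stage (h.rel (n + j))
      rw [← add_assoc]
      omega
  have hLL : ∀ j, j ≤ LL (vv c (F (n + j)).1 (F (n + j)).2) (F n).1 := by
    intro j
    induction j with
    | zero => exact Nat.zero_le _
    | succ j ih =>
      have h1 := hst j
      have h2 := hst (j + 1)
      rcases h.rel (n + j) with ⟨z, hz, y, hy, hi, h3, h4⟩ | ⟨-, h3, -⟩
      · rw [← add_assoc] at *
        rw [h3, h4]
        have hlz := (h.inv (n + j)).lab_le_s z
        have hz0 := hi.1
        have : LL (vv c (F (n + j)).1 (F (n + j)).2) (F n).1 + 1 ≤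
            LL (vv c (F (n + j)).1 (mv (F (n + j)).2 z y)) (F n).1 := by
          refine LL_lex (α := lab (F (n + j)).2 z - 1) (by omega) (fun i hi' => ?_) ?_
            (fun i _ => vv_le (h.inv (n + j)) i)
          · exact (vv_mv_lt hi (by omega)).ge
          · exact vv_mv_eq hi (by omega)
        omega
      · rw [← add_assoc] at h2
        omega
  have h1 := hLL (BB (F n).1)
  have h2 := LL_bound (c := c) (h.inv (n + BB (F n).1)) (F n).1
  omega

theorem Run.exists_end (h : Run p c F) (s : ℕ) : ∃ n, (F n).1 = s ∧ (F (n + 1)).1 = s + 1 := by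
  induction s with
  | zero =>
    obtain ⟨m, -, h1, h2⟩ := h.progress 0
    rw [h.zero] at h1 h2
    exact ⟨m, h1, h2⟩
  | succ s ih =>
    obtain ⟨n, -, h2⟩ := ih
    obtain ⟨m, -, h3, h4⟩ := h.progress (n + 1)
    rw [h2] at h3 h4
    exact ⟨m, h3, h4⟩

/-- `en s` is the index of the last configuration of stage `s` -/
def Ends (F : ℕ → ℕ × List ℕ) (en : ℕ → ℕ) : Prop :=
  ∀ s, (F (en s)).1 = s ∧ (F (en s + 1)).1 = s + 1

variable {en : ℕ → ℕ}

theorem Ends.lt_of_lt (he : Ends F en) (h : Run p c F) {s n : ℕ} (hn : s < (F n).1) :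
    en s < n := by
  by_contra hc
  have := h.stage_mono (not_lt.1 hc)
  rw [(he s).1] at this
  omega

theorem Ends.le_of_le (he : Ends F en) (h : Run p c F) {s n : ℕ} (hn : (F n).1 ≤ s) :
    n ≤ en s := by
  by_contra hc
  have := h.stage_mono (m := en s + 1) (n := n) (by omega)
  rw [(he s).2] at this
  omega

theorem Ends.mono (he : Ends F en) (h : Run p c F) {s t : ℕ} (hst : s ≤ t) : en s ≤ en t :=
  he.le_of_le h (by rw [(he s).1]; exact hst)

theorem Ends.no_imp (he : Ends F en) (h : Run p c F) (s : ℕ) {z y : ℕ}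
    (hz : z < (F (en s)).2.length) (hy : y < (F (en s)).2.length) :
    ¬ Imp p s (F (en s)).2 z y := by
  rcases h.rel (en s) with ⟨z, -, y, -, -, h1, -⟩ | ⟨h1, -, -⟩
  · rw [(he s).1, (he s).2] at h1; omega
  · rw [(he s).1] at h1; exact h1 z hz y hy

theorem Ends.length_ge (he : Ends F en) (h : Run p c F) (s : ℕ) :
    s ≤ (F (en s)).2.length := by
  have := (h.inv (en s)).le_len
  rwa [(he s).1] at this

/-- The set of elements which are dumped at some time. -/
def MM (F : ℕ → ℕ × List ℕ) : Set ℕ := {z | ∃ n, z < (F n).2.length ∧ lab (F n).2 z = 0}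

theorem not_mem_MM (h : Run p c F) {z n : ℕ} (hz : ∀ m ≥ n, 1 ≤ lab (F m).2 z) : z ∉ MM F := by
  rintro ⟨m, hm, h0⟩
  have h1 := h.lab_mono (le_max_left m n) hm
  have h2 := hz (max m n) (le_max_right _ _)
  omega

theorem Run.stable (h : Run p c F) (hpc : ∀ s i, c s = some i → p s ≤ i) {x n : ℕ}
    (hx : 1 ≤ x) (hn : x ≤ (F n).1) (hp : ∀ m ≥ n, x ≤ p (F (m + 1)).1) {m : ℕ} (hm : n ≤ m)
    (w : ℕ) : lab (F m).2 w = x ↔ lab (F n).2 w = x := by
  induction m, hm using Nat.le_induction with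
  | base => exact Iff.rfl
  | succ m hm ih =>
    rw [← ih]
    exact step_box hpc (h.rel m) hx (hn.trans (h.stage_mono hm)) (hp m hm) w

/-- after some time the boxes with labels `1, ..., k` do not change any more -/
theorem Run.exists_stable (h : Run p c F) (he : Ends F en)
    (hpc : ∀ s i, c s = some i → p s ≤ i) (hfin : ∀ n, ∃ s₀, ∀ s ≥ s₀, n < p s) (k : ℕ) :
    ∃ n, ∀ m ≥ n, ∀ x, 1 ≤ x → x ≤ k → ∀ w, (lab (F m).2 w = x ↔ lab (F n).2 w = x) := by
  obtain ⟨s₀, hs₀⟩ := hfin k
  refine ⟨en (max s₀ k), fun m hm x hx hxk w => h.stable hpc hx ?_ ?_ hm w⟩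
  · rw [(he _).1]; exact hxk.trans (le_max_right _ _)
  · intro m' hm'
    have h1 := h.stage_mono (m := en (max s₀ k)) (n := m' + 1) (by omega)
    rw [(he _).1] at h1
    exact hxk.trans (hs₀ _ ((le_max_left _ _).trans h1)).le

/-- Elements outside of `M` which are large have a large label. -/
theorem Run.large (h : Run p c F) (he : Ends F en)
    (hpc : ∀ s i, c s = some i → p s ≤ i) (hfin : ∀ n, ∃ s₀, ∀ s ≥ s₀, n < p s) (k : ℕ) :
    ∃ K, ∀ z ≥ K, z ∉ MM F → ∀ n, z < (F n).2.length → k < lab (F n).2 z := by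
  obtain ⟨n₀, hn₀⟩ := h.exists_stable he hpc hfin k
  refine ⟨(F n₀).2.length, fun z hz hzM n hzn => ?_⟩
  have h0 : 0 < lab (F n).2 z := by
    by_contra hc
    exact hzM ⟨n, hzn, by omega⟩
  by_contra hc
  have hn : n₀ ≤ n := by
    by_contra hlt
    have := h.length_mono (le_of_lt (not_le.1 hlt))
    omega
  have := (hn₀ n hn (lab (F n).2 z) h0 (not_lt.1 hc) z).1 rfl
  rw [lab_ge hz] at this
  omega

theorem MM_compl_infinite (h : Run p c F) (he : Ends F en)
    (hpc : ∀ s i, c s = some i → p s ≤ i) (hfin : ∀ n, ∃ s₀, ∀ s ≥ s₀, n < p s) :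
    (MM F)ᶜ.Infinite := by
  refine Set.infinite_of_forall_exists_gt fun k => ?_
  obtain ⟨n₀, hn₀⟩ := h.exists_stable he hpc hfin (k + 2)
  -- at a later time the box with label `k + 2` exists
  set n := max n₀ (en (k + 2)) with hn
  have hst : k + 2 ≤ (F n).1 := by
    have := h.stage_mono (le_max_right n₀ (en (k + 2)))
    rwa [(he _).1] at this
  have hcard := (h.inv n).card (k + 2) (by omega) hst
  have hpos := NN_pos (k + 2)
  have hex : ∃ w, lab (F n).2 w = k + 2 := by
    by_contra hno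
    push Not at hno
    have : cnt (F n).2 (k + 2) = 0 := by
      unfold cnt ws
      refine Finset.sum_eq_zero fun w _ => ?_
      show (if lab (F n).2 w = k + 2 then 1 else 0) = 0
      rw [if_neg (hno w)]
    omega
  obtain ⟨w, hw⟩ := hex
  refine ⟨w, ?_, ?_⟩
  · refine not_mem_MM h (n := n) fun m hm => ?_
    have h1 := (hn₀ n (le_max_left _ _) (k + 2) (by omega) le_rfl w).1 hw
    have h2 := (hn₀ m ((le_max_left _ _).trans hm) (k + 2) (by omega) le_rfl w).2 h1
    omega
  · have := (h.inv n).lab_le w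
    omega

/-! ### Maximality -/

theorem Run.persist (h : Run p c F) (hinj : ∀ s t i, c s = some i → c t = some i → s = t)
    {e τ k m n : ℕ} (hek : e ≤ k + 1) (hmn : m ≤ n)
    (hB : BB k + 1 ≤ gd e τ (F m).1 k (F m).2 + LL (vv c (F m).1 (F m).2) k) :
    BB k + 1 ≤ gd e τ (F n).1 k (F n).2 + LL (vv c (F n).1 (F n).2) k := by
  induction n, hmn using Nat.le_induction with
  | base => exact hB
  | succ n _ ih => exact persist_step hinj hek (h.inv n) (h.rel n) ih

theorem Run.exists_many (h : Run p c F) (he : Ends F en)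
    (hpc : ∀ s i, c s = some i → p s ≤ i) (hfin : ∀ n, ∃ s₀, ∀ s ≥ s₀, n < p s) {e τ : ℕ}
    (hinf : {z | z ∉ MM F ∧ ∃ s, τ ≤ stt e z s}.Infinite) (k : ℕ) :
    ∃ s, k ≤ s ∧ BB k + 1 ≤ gd e τ s k (F (en s)).2 := by
  classical
  obtain ⟨K, hK⟩ := h.large he hpc hfin k
  have h1 : ({z | z ∉ MM F ∧ ∃ s, τ ≤ stt e z s} \ {z | z < K}).Infinite :=
    hinf.sdiff (Set.finite_lt_nat K)
  obtain ⟨T, hT, hTc⟩ := h1.exists_subset_card_eq (BB k + 1)
  have h2 : ∃ s₀, ∀ z ∈ T, τ ≤ stt e z s₀ := by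
    have : ∀ z ∈ T, ∃ s, τ ≤ stt e z s := fun z hz => (hT hz).1.2
    choose! f hf using this
    refine ⟨T.sup f, fun z hz => (hf z hz).trans (stt_mono (Finset.le_sup hz))⟩
  obtain ⟨s₀, hs₀⟩ := h2
  refine ⟨max (max s₀ k) (T.sup id + 1), (le_max_right s₀ k).trans (le_max_left _ _), ?_⟩
  set s := max (max s₀ k) (T.sup id + 1) with hs
  have hlen : ∀ z ∈ T, z < (F (en s)).2.length := by
    intro z hz
    have h3 : z ≤ T.sup id := Finset.le_sup (f := id) hz
    have h4 := he.length_ge h s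
    omega
  rw [← hTc]
  unfold gd ws
  calc T.card = ∑ w ∈ T, 1 := by simp
    _ ≤ ∑ w ∈ T, (if k < lab (F (en s)).2 w ∧ τ ≤ stt e w s then 1 else 0) := by
        refine Finset.sum_le_sum fun w hw => ?_
        rw [if_pos]
        refine ⟨hK w (not_lt.1 (hT hw).2) (hT hw).1.1 _ (hlen w hw), ?_⟩
        exact (hs₀ w hw).trans (stt_mono (by omega))
    _ ≤ _ := Finset.sum_le_sum_of_subset fun w hw => Finset.mem_range.2 (hlen w hw)

theorem exists_last {Q : ℕ → Prop} {n₀ m : ℕ} (h0 : Q n₀) (hm : ∀ n ≥ m, ¬ Q n) :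
    ∃ n ≥ n₀, Q n ∧ ∀ n' > n, ¬ Q n' := by
  classical
  have hle : n₀ ≤ m := by
    by_contra hc
    exact hm n₀ (by omega) h0
  refine ⟨Nat.findGreatest Q m, Nat.le_findGreatest hle h0, Nat.findGreatest_spec hle h0,
    fun n' hn' hQ => ?_⟩
  by_cases hn : n' ≤ m
  · exact Nat.findGreatest_is_greatest hn' hn hQ
  · exact hm n' (by omega) hQ

theorem c_gd {α : Type*} [Primcodable α] {e τ : ℕ} {s k : α → ℕ} {l : α → List ℕ}
    (hs : Computable s) (hk : Computable k) (hl : Computable l) :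
    Computable fun a => gd e τ (s a) (k a) (l a) := by
  have h1 : Computable₂ fun (a : α) (w : ℕ) =>
      if k a < lab (l a) w ∧ τ ≤ stt e w (s a) then 1 else 0 := by
    refine c_ite (p := fun x : α × ℕ => k x.1 < lab (l x.1) x.2 ∧ τ ≤ stt e x.2 (s x.1))
      (p_and (p_lt (hk.comp Computable.fst) (c_lab (hl.comp Computable.fst) Computable.snd))
        (p_le (Computable.const τ) (c_stt (Computable.const e) Computable.snd
          (hs.comp Computable.fst)))) (Computable.const 1) (Computable.const 0)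
  refine (c_sum (c_range (c_length hl)) h1).of_eq fun a => ?_
  unfold gd ws
  rw [Finset.sum_range, ← List.sum_ofFn]
  congr 1
  rw [List.ofFn_eq_map, ← List.map_coe_finRange_eq_range, List.map_map]
  rfl

theorem Run.trans_prop (h : Run p c F) (he : Ends F en) (hF : Computable F) (hen : Computable en)
    (hinj : ∀ s t i, c s = some i → c t = some i → s = t)
    (hpc : ∀ s i, c s = some i → p s ≤ i) (hfin : ∀ n, ∃ s₀, ∀ s ≥ s₀, n < p s)
    (hdom : ∀ g : ℕ → ℕ, Computable g → ∃ n₀, ∀ n ≥ n₀, ∃ t ≥ g n, p t ≤ n) {e τ : ℕ}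
    (hinf : {z | z ∉ MM F ∧ ∃ s, τ ≤ stt e z s}.Infinite) :
    {z | z ∉ MM F ∧ ∀ s, stt e z s < τ}.Finite := by
  have hR : ComputablePred fun x : ℕ × ℕ =>
      (x.1 + 1 ≤ x.2 ∧ BB (x.1 + 1) + 1 ≤ gd e τ x.2 (x.1 + 1) (F (en x.2)).2) := by
    have f1 : Computable fun x : ℕ × ℕ => x.1 + 1 := c_add Computable.fst (Computable.const 1)
    refine p_and (p_le f1 Computable.snd) (p_le (c_add (c_BB f1) (Computable.const 1)) ?_)
    exact c_gd Computable.snd f1 (Computable.snd.comp (hF.comp (hen.comp Computable.snd)))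
  obtain ⟨g, hg, hgs⟩ := exists_computable_choice
    (R := fun n s => n + 1 ≤ s ∧ BB (n + 1) + 1 ≤ gd e τ s (n + 1) (F (en s)).2) hR
    (fun n => h.exists_many he hpc hfin hinf (n + 1))
  obtain ⟨n₀, hn₀⟩ := hdom g hg
  -- every box with a large label consists finally of good elements
  have key : ∀ n, n₀ ≤ n → e ≤ n → ∃ m, ∀ m' ≥ m, ∀ w, lab (F m').2 w = n + 1 →
      ∃ s, τ ≤ stt e w s := by
    intro n hn hen'
    obtain ⟨t₀, ht₀, hpt₀⟩ := hn₀ n hn
    obtain ⟨s₀, hs₀⟩ := hfin n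
    obtain ⟨t, ht, hpt, hlast⟩ := exists_last (Q := fun t => p t ≤ n) hpt₀
      (fun s hs => not_le.2 (hs₀ s hs))
    have hgt : g n ≤ t := le_trans ht₀ ht
    obtain ⟨⟨hg1, hg2⟩, -⟩ := hgs n
    have hst := (he t).1
    have hP := h.persist hinj (e := e) (τ := τ) (k := n + 1) (by omega) (he.mono h hgt)
      (by rw [(he (g n)).1]; exact hg2.trans (Nat.le_add_right _ _))
    have hL := LL_bound (c := c) (h.inv (en t)) (n + 1)
    have hgd : 0 < gd e τ (F (en t)).1 (n + 1) (F (en t)).2 := by omega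
    rw [hst] at hgd
    -- a good element with a larger label
    have hy : ∃ y, n + 1 < lab (F (en t)).2 y ∧ τ ≤ stt e y t := by
      by_contra hno
      push Not at hno
      have : gd e τ t (n + 1) (F (en t)).2 = 0 := by
        unfold gd ws
        refine Finset.sum_eq_zero fun w _ => ?_
        show (if n + 1 < lab (F (en t)).2 w ∧ τ ≤ stt e w t then 1 else 0) = 0
        rw [if_neg]
        rintro ⟨h1, h2⟩
        exact absurd h2 (not_le.2 (hno w h1))
      omega
    obtain ⟨y, hy1, hy2⟩ := hy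
    have hbox : ∀ w, lab (F (en t)).2 w = n + 1 → τ ≤ stt e w t := by
      intro w hw
      by_contra hbad
      have hwl : w < (F (en t)).2.length := lt_of_lab_pos (by omega)
      obtain ⟨z, hz, hmin⟩ := Finset.exists_min_image
        ((Finset.range (F (en t)).2.length).filter (fun w => lab (F (en t)).2 w = n + 1))
        (fun w => stt (n + 1) w t) ⟨w, Finset.mem_filter.2 ⟨Finset.mem_range.2 hwl, hw⟩⟩
      rw [Finset.mem_filter, Finset.mem_range] at hz
      have hzw := hmin w (Finset.mem_filter.2 ⟨Finset.mem_range.2 hwl, hw⟩)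
      have h1 : stt e z t < stt e y t :=
        lt_of_le_of_lt (stt_le_of_le (by omega) hzw) (lt_of_lt_of_le (not_le.1 hbad) hy2)
      have h2 := stt_lt_of_lt (show e ≤ n + 1 by omega) h1
      have hyl : y < (F (en t)).2.length := lt_of_lab_pos (by omega)
      refine he.no_imp h t hz.1 hyl ⟨?_, ?_, ?_, ?_, ?_⟩
      · omega
      · rw [hz.2]; exact hy1
      · rw [hz.2]; omega
      · intro w' hw' hlw'
        rw [hz.2] at hlw' ⊢
        exact hmin w' (Finset.mem_filter.2 ⟨Finset.mem_range.2 hw', hlw'⟩)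
      · rw [hz.2]; exact h2
    refine ⟨en t, fun m' hm' w hw => ⟨t, hbox w ?_⟩⟩
    refine (h.stable hpc (by omega) (by rw [hst]; omega) ?_ hm' w).1 hw
    intro m hm
    have h3 := h.stage_mono (m := en t + 1) (n := m + 1) (by omega)
    rw [(he t).2] at h3
    have := hlast (F (m + 1)).1 (by omega)
    omega
  obtain ⟨K, hK⟩ := h.large he hpc hfin (max n₀ e)
  refine (Set.finite_lt_nat K).subset ?_
  rintro z ⟨hzM, hz⟩
  by_contra hzK
  have hzK' : K ≤ z := not_lt.1 hzK
  -- the final label of `z`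
  have hex : ∃ x m, ∀ m' ≥ m, lab (F m').2 z = x := by
    have hlen : z < (F (en (z + 1))).2.length := by
      have := he.length_ge h (z + 1)
      omega
    have hne : ∃ x, ∃ m ≥ en (z + 1), lab (F m).2 z = x := ⟨_, _, le_rfl, rfl⟩
    classical
    obtain ⟨m, hm, hmx⟩ := Nat.find_spec hne
    refine ⟨Nat.find hne, m, fun m' hm' => ?_⟩
    have h1 := h.lab_mono hm' (hlen.trans_le (h.length_mono hm))
    have h2 := Nat.find_min' hne ⟨m', hm.trans hm', rfl⟩
    omega
  obtain ⟨x, m, hm⟩ := hex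
  have hlen : z < (F (max m (en (z + 1)))).2.length := by
    have h1 := he.length_ge h (z + 1)
    have h2 := h.length_mono (le_max_right m (en (z + 1)))
    omega
  have hx : max n₀ e < x := by
    have := hK z hzK' hzM _ hlen
    rwa [hm _ (le_max_left _ _)] at this
  obtain ⟨m₂, hm₂⟩ := key (x - 1) (by omega) (by omega)
  obtain ⟨s, hs⟩ := hm₂ (max m m₂) (le_max_right _ _) z (by
    rw [hm _ (le_max_left _ _)]; omega)
  exact absurd hs (not_le.2 (hz s))

theorem exists_index {W : Set ℕ} (hW : REPred (· ∈ W)) :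
    ∃ e, ∀ z, z ∈ W ↔ ∃ s, inW e s z = true := by
  have h1 : Partrec fun z : ℕ => (Part.assert (z ∈ W) fun _ => Part.some ()).map
      (fun _ => (0 : ℕ)) :=
    Partrec.map hW ((Computable.const 0).comp Computable.snd).to₂
  obtain ⟨code, hcode⟩ := Nat.Partrec.Code.exists_code.1 (Partrec.nat_iff.1 h1)
  refine ⟨Encodable.encode code, fun z => ?_⟩
  have hdec : Denumerable.ofNat Nat.Partrec.Code (Encodable.encode code) = code :=
    Denumerable.ofNat_encode code
  have h2 : z ∈ W ↔ (code.eval z).Dom := by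
    rw [hcode]
    simp [Part.assert]
  rw [h2]
  constructor
  · intro hd
    obtain ⟨s, hs⟩ := Nat.Partrec.Code.evaln_complete.1 (Part.get_mem hd)
    exact ⟨s, by unfold inW; rw [hdec]; exact Option.isSome_iff_exists.2 ⟨_, hs⟩⟩
  · rintro ⟨s, hs⟩
    unfold inW at hs
    rw [hdec] at hs
    obtain ⟨x, hx⟩ := Option.isSome_iff_exists.1 hs
    exact (Nat.Partrec.Code.evaln_sound hx).1

theorem Run.maximal (h : Run p c F) (he : Ends F en) (hF : Computable F) (hen : Computable en)
    (hinj : ∀ s t i, c s = some i → c t = some i → s = t)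
    (hpc : ∀ s i, c s = some i → p s ≤ i) (hfin : ∀ n, ∃ s₀, ∀ s ≥ s₀, n < p s)
    (hdom : ∀ g : ℕ → ℕ, Computable g → ∃ n₀, ∀ n ≥ n₀, ∃ t ≥ g n, p t ≤ n)
    {W : Set ℕ} (hW : REPred (· ∈ W)) :
    ((MM F)ᶜ ∩ W).Finite ∨ ((MM F)ᶜ \ W).Finite := by
  classical
  obtain ⟨e, hWe⟩ := exists_index hW
  set Q : ℕ → Prop := fun τ => {z | z ∉ MM F ∧ ∃ s, τ ≤ stt (e + 1) z s}.Infinite with hQ
  have hQ0 : Q 0 := by
    have : {z | z ∉ MM F ∧ ∃ s, 0 ≤ stt (e + 1) z s} = (MM F)ᶜ := by
      ext z; simp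
    rw [hQ]
    show {z | z ∉ MM F ∧ ∃ s, 0 ≤ stt (e + 1) z s}.Infinite
    rw [this]
    exact MM_compl_infinite h he hpc hfin
  have hQl : ∀ τ ≥ 2 ^ (e + 1), ¬ Q τ := by
    intro τ hτ hq
    obtain ⟨z, -, s, hs⟩ := hq.nonempty
    have := stt_lt (e + 1) z s
    omega
  obtain ⟨τ, -, hτ, hlast⟩ := exists_last hQ0 hQl
  have hfin1 : {z | z ∉ MM F ∧ ∀ s, stt (e + 1) z s < τ}.Finite :=
    h.trans_prop he hF hen hinj hpc hfin hdom hτ
  have hfin2 : {z | z ∉ MM F ∧ ∃ s, τ + 1 ≤ stt (e + 1) z s}.Finite :=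
    Set.not_infinite.1 (hlast (τ + 1) (Nat.lt_succ_self τ))
  have hfin3 := hfin1.union hfin2
  have hval : ∀ z, z ∉ MM F → z ∉ ({z | z ∉ MM F ∧ ∀ s, stt (e + 1) z s < τ} ∪
      {z | z ∉ MM F ∧ ∃ s, τ + 1 ≤ stt (e + 1) z s}) →
      ∃ s₀, ∀ s ≥ s₀, stt (e + 1) z s = τ := by
    intro z hz hz'
    rw [Set.mem_union, not_or] at hz'
    obtain ⟨h1, h2⟩ := hz'
    have h1' : ∃ s, τ ≤ stt (e + 1) z s := by
      by_contra hno
      push Not at hno
      exact h1 ⟨hz, hno⟩
    have h2' : ∀ s, stt (e + 1) z s ≤ τ := by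
      by_contra hno
      push Not at hno
      exact h2 ⟨hz, hno⟩
    obtain ⟨s₀, hs₀⟩ := h1'
    exact ⟨s₀, fun s hs => le_antisymm (h2' s) (hs₀.trans (stt_mono hs))⟩
  rcases Nat.even_or_odd τ with hev | hodd
  · left
    refine hfin3.subset ?_
    rintro z ⟨hzM, hzW⟩
    by_contra hz'
    obtain ⟨s₀, hs₀⟩ := hval z hzM hz'
    obtain ⟨s₁, hs₁⟩ := (hWe z).1 hzW
    have h1 := hs₀ (max s₀ s₁) (le_max_left _ _)
    have h2 := inW_mono (le_max_right s₀ s₁) hs₁
    simp only [stt, h2, Bool.toNat_true] at h1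
    rw [← h1] at hev
    exact absurd hev (by rw [Nat.even_add_one, not_not]; exact even_two_mul _)
  · right
    refine hfin3.subset ?_
    rintro z ⟨hzM, hzW⟩
    by_contra hz'
    obtain ⟨s₀, hs₀⟩ := hval z hzM hz'
    have h1 := hs₀ s₀ le_rfl
    have h2 : inW e s₀ z = false := by
      rw [← Bool.not_eq_true]
      intro h3
      exact hzW ((hWe z).2 ⟨s₀, h3⟩)
    simp only [stt, h2, Bool.toNat_false, add_zero] at h1
    rw [← h1] at hodd
    exact absurd hodd (by rw [Nat.not_odd_iff_even]; exact even_two_mul _)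

/-! ### The remaining properties -/

theorem re_exists {P : ℕ → ℕ → Prop} (hP : ComputablePred fun x : ℕ × ℕ => P x.1 x.2) :
    REPred fun z => ∃ n, P z n := by
  classical
  have h1 : Computable₂ fun (z n : ℕ) => decide (P z n) := hP.decide
  refine (Partrec.dom_re (Partrec.rfind h1.partrec₂)).of_eq fun z => ?_
  rw [Nat.rfind_dom]
  constructor
  · rintro ⟨n, hn, -⟩
    exact ⟨n, by simpa using hn⟩
  · rintro ⟨n, hn⟩
    exact ⟨n, by simpa using hn, fun {m} _ => trivial⟩

theorem MM_re (hF : Computable F) : REPred (· ∈ MM F) := by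
  refine re_exists (P := fun z n => z < (F n).2.length ∧ lab (F n).2 z = 0) ?_
  have hl : Computable fun x : ℕ × ℕ => (F x.2).2 :=
    Computable.snd.comp (hF.comp Computable.snd)
  exact p_and (p_lt Computable.fst (c_length hl))
    (p_eq (c_lab hl Computable.fst) (Computable.const 0))

theorem Run.phi (h : Run p c F) (he : Ends F en) (hpc : ∀ s i, c s = some i → p s ≤ i)
    {z s : ℕ} (hzs : z < s) (hz : ∀ t ≥ s, z < p t) :
    z ∈ MM F ↔ lab (F (en s)).2 z = 0 := by
  have hlen : z < (F (en s)).2.length := hzs.trans_le (he.length_ge h s)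
  constructor
  · rintro ⟨n, hn, h0⟩
    by_cases hne : n ≤ en s
    · have := h.lab_mono hne hn
      omega
    · have key : ∀ m, en s ≤ m → lab (F m).2 z = lab (F (en s)).2 z := by
        intro m hm
        induction m, hm using Nat.le_induction with
        | base => rfl
        | succ m hm ih =>
          by_contra hch
          rw [← ih] at hch
          obtain ⟨h1, -⟩ := step_change hpc (h.rel m) hch
          have h2 := h.stage_mono (m := en s + 1) (n := m + 1) (by omega)
          rw [(he s).2] at h2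
          have h3 := hz (F (m + 1)).1 (by omega)
          have h4 := (h.inv m).lab_le z
          rcases h1 with h1 | h1
          · have h5 := step_lab_le (h.rel m) (hlen.trans_le (h.length_mono hm))
            omega
          · omega
      rw [← key n (by omega)]
      exact h0
  · intro h0
    exact ⟨en s, hlen, h0⟩

/-- the elements of the boxes `≤ i` at the end of stage `s` -/
def psi (F : ℕ → ℕ × List ℕ) (en : ℕ → ℕ) (x : ℕ × ℕ) : List ℕ :=
  (List.range (F (en x.2)).2.length).filter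
    (fun z => 1 ≤ lab (F (en x.2)).2 z ∧ lab (F (en x.2)).2 z ≤ x.1 + 1)

theorem mem_psi {i s z : ℕ} :
    z ∈ psi F en (i, s) ↔ 1 ≤ lab (F (en s)).2 z ∧ lab (F (en s)).2 z ≤ i + 1 := by
  unfold psi
  rw [List.mem_filter, List.mem_range]
  simp only [decide_eq_true_eq]
  exact ⟨fun h => h.2, fun h => ⟨lt_of_lab_pos h.1, h⟩⟩

theorem c_psi (hF : Computable F) (hen : Computable en) : Computable (psi F en) := by
  unfold psi
  have hl : Computable fun x : ℕ × ℕ => (F (en x.2)).2 :=
    Computable.snd.comp (hF.comp (hen.comp Computable.snd))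
  refine c_filter (p := fun (x : ℕ × ℕ) z => 1 ≤ lab (F (en x.2)).2 z ∧
    lab (F (en x.2)).2 z ≤ x.1 + 1) (c_range (c_length hl)) ?_
  have h1 : Computable fun x : (ℕ × ℕ) × ℕ => lab (F (en x.1.2)).2 x.2 :=
    c_lab (hl.comp Computable.fst) Computable.snd
  exact p_and (p_le (Computable.const 1) h1)
    (p_le h1 (c_add (Computable.fst.comp Computable.fst) (Computable.const 1)))

theorem Run.psi_good (h : Run p c F) (he : Ends F en) (hpc : ∀ s i, c s = some i → p s ≤ i)
    (hfin : ∀ n, ∃ s₀, ∀ s ≥ s₀, n < p s) (i : ℕ) :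
    ∃ s > i, ∀ z ∈ psi F en (i, s), z ∉ MM F := by
  obtain ⟨s₀, hs₀⟩ := hfin (i + 1)
  refine ⟨max s₀ (i + 1), by omega, fun z hz => ?_⟩
  rw [mem_psi] at hz
  refine not_mem_MM h (n := en (max s₀ (i + 1))) fun m hm => ?_
  have := (h.stable hpc (x := lab (F (en (max s₀ (i + 1)))).2 z) hz.1
    (by rw [(he _).1]; omega) ?_ hm z).2 rfl
  · rw [this]; exact hz.1
  · intro m' hm'
    have h1 := h.stage_mono (m := en (max s₀ (i + 1))) (n := m' + 1) (by omega)
    rw [(he _).1] at h1
    have h2 := hs₀ (F (m' + 1)).1 (by omega)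
    omega

theorem Run.psi_code (h : Run p c F) (he : Ends F en) {i s : ℕ} (his : i < s)
    (hpsi : ∀ z ∈ psi F en (i, s), z ∉ MM F) {t : ℕ} (hst : s < t) : c t ≠ some i := by
  intro hc
  have key : ∀ m, en s ≤ m → ∀ w, (1 ≤ lab (F m).2 w ∧ lab (F m).2 w ≤ i + 1) ↔
      (1 ≤ lab (F (en s)).2 w ∧ lab (F (en s)).2 w ≤ i + 1) := by
    intro m hm
    induction m, hm using Nat.le_induction with
    | base => exact fun w => Iff.rfl
    | succ m hm ih =>
      intro w
      have hstage : i + 1 ≤ (F m).1 := by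
        have := h.stage_mono hm
        rw [(he s).1] at this
        omega
      rcases step_low (i + 1) (h.rel m) hstage with h1 | ⟨w', hw', h2, h3, h4⟩
      · rw [h1 w, ih w]
      · exfalso
        have h5 := (ih w').1 ⟨h2, h3⟩
        exact hpsi w' (mem_psi.2 h5) ⟨m + 1, hw'.trans_le (step_length (h.rel m)), h4⟩
  obtain ⟨u, rfl⟩ : ∃ u, t = u + 1 := ⟨t - 1, by omega⟩
  have hu : en s ≤ en u := he.mono h (by omega)
  obtain ⟨w, hw, hw1, hw2⟩ := step_code (h.rel (en u)) (by rw [(he u).1, (he u).2])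
    (i := i) (by rw [(he u).1]; exact hc) (by rw [(he u).1]; omega)
  have h5 := (key (en u) hu w).1 ⟨by omega, by omega⟩
  exact hpsi w (mem_psi.2 h5) ⟨en u + 1, hw.trans_le (step_length (h.rel (en u))), hw2⟩

theorem exists_run (hp : Computable p) (hc : Computable c) :
    ∃ F : ℕ → ℕ × List ℕ, Computable F ∧ Run p c F := by
  obtain ⟨F, hF, h0, hR, hI⟩ := exists_computable_seq
    (R := fun _ a b => Rel p c a b) (Inv := fun _ a => Inv a.1 a.2) ((0, []) : ℕ × List ℕ)
    (p_Rel hp hc) inv_zero (fun _ a b ha hab => inv_step ha hab) (fun _ a ha => exists_step ha)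
  exact ⟨F, hF, h0, hR, hI⟩

theorem exists_ends (h : Run p c F) (hF : Computable F) :
    ∃ en : ℕ → ℕ, Computable en ∧ Ends F en := by
  have hR : ComputablePred fun x : ℕ × ℕ => ((F x.2).1 = x.1 ∧ (F (x.2 + 1)).1 = x.1 + 1) :=
    p_and (p_eq (Computable.fst.comp (hF.comp Computable.snd)) Computable.fst)
      (p_eq (Computable.fst.comp (hF.comp (c_add Computable.snd (Computable.const 1))))
        (c_add Computable.fst (Computable.const 1)))
  obtain ⟨en, hen, hs⟩ := exists_computable_choice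
    (R := fun s n => (F n).1 = s ∧ (F (n + 1)).1 = s + 1) hR (fun s => h.exists_end s)
  exact ⟨en, hen, fun s => (hs s).1⟩

end Martin

open Martin in
/-- Core of Martin's theorem. -/
theorem martin_core (p : ℕ → ℕ) (c : ℕ → Option ℕ) (hp : Computable p) (hc : Computable c)
    (hfin : ∀ n, ∃ s₀, ∀ s ≥ s₀, n < p s)
    (hinj : ∀ s t i, c s = some i → c t = some i → s = t)
    (hpc : ∀ s i, c s = some i → p s ≤ i)
    (hdom : ∀ g : ℕ → ℕ, Computable g → ∃ n₀, ∀ n ≥ n₀, ∃ t ≥ g n, p t ≤ n) :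
    ∃ M : Set ℕ, REPred (· ∈ M) ∧ Mᶜ.Infinite ∧
      (∀ W : Set ℕ, REPred (· ∈ W) → (Mᶜ ∩ W).Finite ∨ (Mᶜ \ W).Finite) ∧
      (∃ Φ : ℕ × ℕ → Bool, Computable Φ ∧
        ∀ z s, z < s → (∀ t ≥ s, z < p t) → (z ∈ M ↔ Φ (z, s) = true)) ∧
      (∃ Ψ : ℕ × ℕ → List ℕ, Computable Ψ ∧
        (∀ i, ∃ s > i, ∀ z ∈ Ψ (i, s), z ∉ M) ∧
        (∀ i s, i < s → (∀ z ∈ Ψ (i, s), z ∉ M) → ∀ t > s, c t ≠ some i)) := by
  obtain ⟨F, hF, hrun⟩ := exists_run hp hc
  obtain ⟨en, hen, hends⟩ := exists_ends hrun hF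
  refine ⟨MM F, MM_re hF, MM_compl_infinite hrun hends hpc hfin, fun W hW =>
    hrun.maximal hends hF hen hinj hpc hfin hdom hW, ?_, ?_⟩
  · have hP : ComputablePred fun x : ℕ × ℕ => lab (F (en x.2)).2 x.1 = 0 :=
      p_eq (c_lab (Computable.snd.comp (hF.comp (hen.comp Computable.snd))) Computable.fst)
        (Computable.const 0)
    refine ⟨fun x => decide (lab (F (en x.2)).2 x.1 = 0), hP.decide, fun z s hzs hz => ?_⟩
    rw [hrun.phi hends hpc hzs hz]
    simp
  · exact ⟨psi F en, c_psi hF hen, hrun.psi_good hends hpc hfin,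
      fun i s his hpsi t hst => hrun.psi_code hends his hpsi hst⟩


end Pool.Agent.Lib.MP_3eaa21_lc
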