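import Pool.Agent.Lib.MP_3eaa21_lc.NormalForm
import Pool.Agent.Lib.MP_3eaa21_lc.Upper
import Pool.Agent.Lib.MP_3eaa21_lc.RE
import Pool.Agent.Lib.MP_3eaa21_lc.Martin
import Pool.Agent.Lib.MP_3eaa21_lc.Chain

section

/-! Martin's characterisation of highness, and basic facts about the jump. -/

namespace Pool.Agent.Lib.MP_3eaa21_lc

open Encodable

namespace High

theorem charFn_nat (S : Set ℕ) (n : ℕ) [Decidable (n ∈ S)] :
    charFn S n = if n ∈ S then 1 else 0 := by
  unfold charFn
  by_cases h : n ∈ S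
  · rw [if_pos h, if_pos ⟨n, h, rfl⟩]
  · rw [if_neg h, if_neg]
    rintro ⟨a, ha, rfl⟩
    exact h ha

theorem charFn_eq_zero {S : Set ℕ} {n : ℕ} : charFn S n = 0 ↔ n ∉ S := by
  classical
  rw [charFn_nat]
  by_cases h : n ∈ S <;> simp [h]

theorem charFn_eq_one {S : Set ℕ} {n : ℕ} : charFn S n = 1 ↔ n ∈ S := by
  classical
  rw [charFn_nat]
  by_cases h : n ∈ S <;> simp [h]

theorem re_ex {α : Type*} [Primcodable α] {P : α → ℕ → Prop}
    (hP : ComputablePred fun x : α × ℕ => P x.1 x.2) : REPred fun z => ∃ n, P z n := by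
  classical
  have h1 : Computable₂ fun (z : α) (n : ℕ) => decide (P z n) := hP.decide
  refine (Partrec.dom_re (Partrec.rfind h1.partrec₂)).of_eq fun z => ?_
  rw [Nat.rfind_dom]
  constructor
  · rintro ⟨n, hn, -⟩
    exact ⟨n, by simpa using hn⟩
  · rintro ⟨n, hn⟩
    exact ⟨n, by simpa using hn, fun {m} _ => trivial⟩

/-- s-m-n for the jump, for c.e. relations. -/
theorem smn_re {R : ℕ × List ℕ → Prop} (hR : REPred R) :
    ∃ g : ℕ → ℕ, Computable g ∧ ∀ (A : ℕ → ℕ) (n : ℕ), g n ∈ jump A ↔ ∃ t, R (n, res A t) := by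
  have h0 : Computable fun m : ℕ => (m.unpair.1, Denumerable.ofNat (List ℕ) m.unpair.2) :=
    Computable.pair (Computable.fst.comp Computable.unpair)
      ((Computable.ofNat (List ℕ)).comp (Computable.snd.comp Computable.unpair))
  have h1 : Partrec fun m : ℕ => (Part.assert (R (m.unpair.1,
      Denumerable.ofNat (List ℕ) m.unpair.2)) fun _ => Part.some ()).map (fun _ => (0 : ℕ)) :=
    Partrec.map (hR.comp h0) ((Computable.const 0).comp Computable.snd).to₂
  obtain ⟨code, hcode⟩ := Nat.Partrec.Code.exists_code.1 (Partrec.nat_iff.1 h1)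
  refine ⟨fun n => encode (Nat.Partrec.Code.curry code n), ?_, fun A n => ?_⟩
  · exact Computable.encode.comp (Nat.Partrec.Code.primrec₂_curry.to_comp.comp
      (Computable.const code) Computable.id)
  · unfold jump
    rw [Set.mem_ofPred_eq]
    refine exists_congr fun t => ?_
    rw [Denumerable.ofNat_encode, Nat.Partrec.Code.eval_curry, hcode]
    simp [Part.assert]

/-- s-m-n for the jump. -/
theorem smn {P : ℕ × List ℕ → ℕ → Prop}
    (hP : ComputablePred fun x : (ℕ × List ℕ) × ℕ => P x.1 x.2) :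
    ∃ g : ℕ → ℕ, Computable g ∧
      ∀ (A : ℕ → ℕ) (n : ℕ), g n ∈ jump A ↔ ∃ t k, P (n, res A t) k :=
  smn_re (re_ex hP)

/-- `φ_e(n)` converges in at most `u` steps -/
def Cv (e u n : ℕ) : Prop :=
  (Nat.Partrec.Code.evaln u (Denumerable.ofNat Nat.Partrec.Code e) n).isSome = true

theorem Cv.mono {e u v n : ℕ} (h : Cv e u n) (huv : u ≤ v) : Cv e v n := by
  unfold Cv at *
  rw [Option.isSome_iff_exists] at *
  obtain ⟨a, ha⟩ := h
  exact ⟨a, Nat.Partrec.Code.evaln_mono huv ha⟩

theorem exists_Cv {e n : ℕ} :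
    ((Denumerable.ofNat Nat.Partrec.Code e).eval n).Dom ↔ ∃ u, Cv e u n := by
  unfold Cv
  constructor
  · intro h
    obtain ⟨s, hs⟩ := Nat.Partrec.Code.evaln_complete.1 (Part.get_mem h)
    exact ⟨s, by rw [Option.isSome_iff_exists]; exact ⟨_, hs⟩⟩
  · rintro ⟨s, hs⟩
    rw [Option.isSome_iff_exists] at hs
    obtain ⟨a, ha⟩ := hs
    exact (Nat.Partrec.Code.evaln_sound ha).1

section comp

variable {α : Type*} [Primcodable α]

theorem c_evaln {e u n : α → ℕ} (he : Computable e) (hu : Computable u) (hn : Computable n) :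
    Computable fun a => Nat.Partrec.Code.evaln (u a)
      (Denumerable.ofNat Nat.Partrec.Code (e a)) (n a) := by
  have := Nat.Partrec.Code.primrec_evaln.to_comp
  exact this.comp (g := fun a => ((u a, Denumerable.ofNat Nat.Partrec.Code (e a)), n a))
    (Computable.pair (Computable.pair hu ((Computable.ofNat Nat.Partrec.Code).comp he)) hn)

theorem p_Cv {e u n : α → ℕ} (he : Computable e) (hu : Computable u) (hn : Computable n) :
    ComputablePred fun a => Cv (e a) (u a) (n a) :=
  p_bool (Primrec.option_isSome.to_comp.comp (c_evaln he hu hn))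

end comp

/-- the approximation to `e ∈ jump A` from `ρ = res A s` -/
def Jr (e : ℕ) (ρ : List ℕ) : Prop := ∃ t ≤ ρ.length, Cv e ρ.length (encode (ρ.take t))

theorem res_take (A : ℕ → ℕ) {t s : ℕ} (h : t ≤ s) : (res A s).take t = res A t := by
  obtain ⟨ρ, hρ⟩ := res_prefix A h
  rw [← hρ, List.take_left' (by simp)]

theorem Jr_res {A : ℕ → ℕ} {e s : ℕ} : Jr e (res A s) ↔ ∃ t ≤ s, Cv e s (encode (res A t)) := by
  unfold Jr
  simp only [res_length]
  refine exists_congr fun t => and_congr_right fun ht => ?_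
  rw [res_take A ht]

theorem Jr_mono {A : ℕ → ℕ} {e s u : ℕ} (h : Jr e (res A s)) (hsu : s ≤ u) : Jr e (res A u) := by
  rw [Jr_res] at *
  obtain ⟨t, ht, hc⟩ := h
  exact ⟨t, ht.trans hsu, hc.mono hsu⟩

theorem mem_jump_iff {A : ℕ → ℕ} {e : ℕ} : e ∈ jump A ↔ ∃ s, Jr e (res A s) := by
  unfold jump
  rw [Set.mem_ofPred_eq]
  constructor
  · rintro ⟨t, ht⟩
    obtain ⟨u, hu⟩ := exists_Cv.1 ht
    exact ⟨max t u, Jr_res.2 ⟨t, le_max_left _ _, hu.mono (le_max_right _ _)⟩⟩
  · rintro ⟨s, hs⟩
    obtain ⟨t, -, ht⟩ := Jr_res.1 hs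
    exact ⟨t, exists_Cv.2 ⟨s, ht⟩⟩

open Classical in
/-- the approximation to `res (charFn (jump A)) t` from `σ = res A s` -/
noncomputable def resJ (σ : List ℕ) (t : ℕ) : List ℕ := res (fun i => if Jr i σ then 1 else 0) t

theorem lim_resJ (A : ℕ → ℕ) (t : ℕ) :
    ∃ S, ∀ s, S ≤ s → resJ (res A s) t = res (charFn (jump A)) t := by
  classical
  induction t with
  | zero => exact ⟨0, fun s _ => rfl⟩
  | succ t ih =>
    obtain ⟨S, hS⟩ := ih
    have key : ∃ S', ∀ s, S' ≤ s → (if Jr t (res A s) then 1 else 0) = charFn (jump A) t := by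
      by_cases h : t ∈ jump A
      · obtain ⟨S', hS'⟩ := mem_jump_iff.1 h
        refine ⟨S', fun s hs => ?_⟩
        rw [if_pos (Jr_mono hS' hs), charFn_eq_one.2 h]
      · refine ⟨0, fun s _ => ?_⟩
        rw [charFn_eq_zero.2 h, if_neg]
        intro hc
        exact h (mem_jump_iff.2 ⟨s, hc⟩)
    obtain ⟨S', hS'⟩ := key
    refine ⟨max S S', fun s hs => ?_⟩
    unfold resJ at *
    rw [res_succ, res_succ, hS s (by omega), hS' s (by omega)]

section comp

variable {α : Type*} [Primcodable α]

theorem p_Jr {e : α → ℕ} {σ : α → List ℕ} (he : Computable e) (hσ : Computable σ) :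
    ComputablePred fun a => Jr (e a) (σ a) := by
  unfold Jr
  refine p_ex_le (c_length hσ) ?_
  exact p_Cv (he.comp Computable.fst) (c_length (hσ.comp Computable.fst))
    (Computable.encode.comp (c_take (hσ.comp Computable.fst) Computable.snd))

theorem c_resJ {t : α → ℕ} {σ : α → List ℕ} (ht : Computable t) (hσ : Computable σ) :
    Computable fun a => resJ (σ a) (t a) := by
  classical
  unfold resJ res
  refine c_map (c_range ht) (h := fun a i => if Jr i (σ a) then 1 else 0) ?_
  exact c_ite (p_Jr Computable.snd (hσ.comp Computable.fst)) (Computable.const 1)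
    (Computable.const 0)

end comp

theorem res_empty (t : ℕ) : res (charFn (∅ : Set ℕ)) t = List.replicate t 0 := by
  unfold res
  rw [List.eq_replicate_iff]
  refine ⟨by simp, ?_⟩
  intro b hb
  obtain ⟨i, -, rfl⟩ := List.mem_map.1 hb
  exact charFn_eq_zero.2 (by simp)

/-- `∅''` is `Σ₂`. -/
theorem sigma2 : ∃ Q : ℕ → ℕ → ℕ → Prop,
    ComputablePred (fun x : (ℕ × ℕ) × ℕ => Q x.1.1 x.1.2 x.2) ∧
    ∀ e, e ∈ jump (charFn (jump (charFn (∅ : Set ℕ)))) ↔ ∃ p, ∀ s, Q e p s := by
  refine ⟨fun e p s => Cv e p.unpair.2 (encode (resJ (List.replicate p.unpair.2 0) p.unpair.1)) ∧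
    (p.unpair.2 ≤ s → resJ (List.replicate s 0) p.unpair.1 =
      resJ (List.replicate p.unpair.2 0) p.unpair.1), ?_, fun e => ?_⟩
  · have c1 : Computable fun x : (ℕ × ℕ) × ℕ => x.1.2.unpair.1 :=
      Computable.fst.comp (Computable.unpair.comp (Computable.snd.comp Computable.fst))
    have c2 : Computable fun x : (ℕ × ℕ) × ℕ => x.1.2.unpair.2 :=
      Computable.snd.comp (Computable.unpair.comp (Computable.snd.comp Computable.fst))
    have c3 : Computable fun x : (ℕ × ℕ) × ℕ =>
        resJ (List.replicate x.1.2.unpair.2 0) x.1.2.unpair.1 :=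
      c_resJ c1 (c_replicate c2 (Computable.const 0))
    have c4 : Computable fun x : (ℕ × ℕ) × ℕ =>
        resJ (List.replicate x.2 0) x.1.2.unpair.1 :=
      c_resJ c1 (c_replicate Computable.snd (Computable.const 0))
    exact p_and (p_Cv (Computable.fst.comp Computable.fst) c2 (Computable.encode.comp c3))
      (p_imp (p_le c2 Computable.snd) (p_eq c4 c3))
  · constructor
    · rintro ⟨t, ht⟩
      obtain ⟨u, hu⟩ := exists_Cv.1 ht
      obtain ⟨S, hS⟩ := lim_resJ (charFn (∅ : Set ℕ)) t
      refine ⟨Nat.pair t (max u S), fun s => ?_⟩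
      simp only [Nat.unpair_pair]
      have h1 := hS (max u S) (le_max_right _ _)
      rw [res_empty] at h1
      refine ⟨?_, fun hs => ?_⟩
      · rw [h1]
        exact hu.mono (le_max_left _ _)
      · have h2 := hS s ((le_max_right _ _).trans hs)
        rw [res_empty] at h2
        rw [h1, h2]
    · rintro ⟨p, hp⟩
      obtain ⟨S, hS⟩ := lim_resJ (charFn (∅ : Set ℕ)) p.unpair.1
      have h1 := hS (max S p.unpair.2) (le_max_left _ _)
      rw [res_empty] at h1
      have h2 := (hp (max S p.unpair.2)).2 (le_max_right _ _)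
      have h3 := (hp 0).1
      refine ⟨p.unpair.1, exists_Cv.2 ⟨p.unpair.2, ?_⟩⟩
      rw [← h1, h2]
      exact h3

theorem high_of_dominant {A f : ℕ → ℕ} (hf : TuringReducible (f : ℕ →. ℕ) (A : ℕ →. ℕ))
    (hd : Dominant f) :
    TuringReducible (charFn (jump (charFn (jump (charFn (∅ : Set ℕ))))) : ℕ →. ℕ)
      (charFn (jump A) : ℕ →. ℕ) := by
  classical
  obtain ⟨Q, hQ, hE⟩ := sigma2
  obtain ⟨Φ, hΦ, mΦ, sΦ⟩ := approx_of_reducible hf
  have sΦ' : ∀ n y, y = f n ↔ ∃ t, Φ n (res A t) = some y := by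
    intro n y
    rw [← sΦ]
    simp
  have hP1 : ComputablePred fun x : (ℕ × List ℕ) × ℕ =>
      Φ x.2.unpair.1 x.1.2 = some x.2.unpair.2 ∧
        ∀ s ≤ max x.2.unpair.2 x.1.1.unpair.2, Q x.1.1.unpair.1 x.2.unpair.1 s := by
    have c1 : Computable fun x : (ℕ × List ℕ) × ℕ => x.2.unpair.1 :=
      Computable.fst.comp (Computable.unpair.comp Computable.snd)
    have c2 : Computable fun x : (ℕ × List ℕ) × ℕ => x.2.unpair.2 :=
      Computable.snd.comp (Computable.unpair.comp Computable.snd)
    have c3 : Computable fun x : (ℕ × List ℕ) × ℕ => x.1.1.unpair.1 :=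
      Computable.fst.comp (Computable.unpair.comp (Computable.fst.comp Computable.fst))
    have c4 : Computable fun x : (ℕ × List ℕ) × ℕ => x.1.1.unpair.2 :=
      Computable.snd.comp (Computable.unpair.comp (Computable.fst.comp Computable.fst))
    refine p_and (p_eq (hΦ.comp c1 (Computable.snd.comp Computable.fst))
      (Computable.option_some.comp c2)) (p_all_le (c_max c2 c4) ?_)
    exact p_comp (p := fun x : (ℕ × ℕ) × ℕ => Q x.1.1 x.1.2 x.2) hQ
      (f := fun x : ((ℕ × List ℕ) × ℕ) × ℕ => ((x.1.1.1.unpair.1, x.1.2.unpair.1), x.2))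
      (Computable.pair (Computable.pair (c3.comp Computable.fst) (c1.comp Computable.fst))
        Computable.snd)
  have hP2 : ComputablePred fun x : (ℕ × List ℕ) × ℕ =>
      ¬ Q x.1.1.unpair.1 x.1.1.unpair.2 x.2 := by
    have c3 : Computable fun x : (ℕ × List ℕ) × ℕ => x.1.1.unpair.1 :=
      Computable.fst.comp (Computable.unpair.comp (Computable.fst.comp Computable.fst))
    have c4 : Computable fun x : (ℕ × List ℕ) × ℕ => x.1.1.unpair.2 :=
      Computable.snd.comp (Computable.unpair.comp (Computable.fst.comp Computable.fst))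
    exact p_not (p_comp (p := fun x : (ℕ × ℕ) × ℕ => Q x.1.1 x.1.2 x.2) hQ
      (f := fun x : (ℕ × List ℕ) × ℕ => ((x.1.1.unpair.1, x.1.1.unpair.2), x.2))
      (Computable.pair (Computable.pair c3 c4) Computable.snd))
  obtain ⟨g1, hg1, hg1'⟩ := smn (P := fun (x : ℕ × List ℕ) (q : ℕ) =>
    Φ q.unpair.1 x.2 = some q.unpair.2 ∧
      ∀ s ≤ max q.unpair.2 x.1.unpair.2, Q x.1.unpair.1 q.unpair.1 s) hP1
  obtain ⟨g2, hg2, hg2'⟩ := smn (P := fun (x : ℕ × List ℕ) (s : ℕ) =>
    ¬ Q x.1.unpair.1 x.1.unpair.2 s) hP2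
  have e1 : ∀ e k, g1 (Nat.pair e k) ∈ jump A ↔ ∃ p, ∀ s ≤ max (f p) k, Q e p s := by
    intro e k
    rw [hg1' A]
    simp only [Nat.unpair_pair]
    constructor
    · rintro ⟨t, q, hq, h⟩
      have := (sΦ' _ _).2 ⟨t, hq⟩
      rw [this] at h
      exact ⟨_, h⟩
    · rintro ⟨p, hp⟩
      obtain ⟨t, ht⟩ := (sΦ' p (f p)).1 rfl
      exact ⟨t, Nat.pair p (f p), by simpa using ht, by simpa using hp⟩
  have e2 : ∀ e k, g2 (Nat.pair e k) ∈ jump A ↔ ∃ s, ¬ Q e k s := by
    intro e k
    rw [hg2' A]
    simp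
  have key1 : ∀ e k, g1 (Nat.pair e k) ∉ jump A →
      e ∉ jump (charFn (jump (charFn (∅ : Set ℕ)))) := by
    intro e k h hc
    obtain ⟨p, hp⟩ := (hE e).1 hc
    exact h ((e1 e k).2 ⟨p, fun s _ => hp s⟩)
  have key2 : ∀ e k, g2 (Nat.pair e k) ∉ jump A →
      e ∈ jump (charFn (jump (charFn (∅ : Set ℕ)))) := by
    intro e k h
    rw [e2] at h
    push Not at h
    exact (hE e).2 ⟨k, h⟩
  have key3 : ∀ e, ∃ k, g1 (Nat.pair e k) ∉ jump A ∨ g2 (Nat.pair e k) ∉ jump A := by
    intro e
    by_cases he : e ∈ jump (charFn (jump (charFn (∅ : Set ℕ))))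
    · obtain ⟨p, hp⟩ := (hE e).1 he
      refine ⟨p, Or.inr ?_⟩
      rw [e2]
      push Not
      exact hp
    · have h1 : ∀ p, ∃ s, ¬ Q e p s := by
        intro p
        by_contra hc
        push Not at hc
        exact he ((hE e).2 ⟨p, hc⟩)
      obtain ⟨g, hg, hg'⟩ := exists_computable_choice (R := fun p s => ¬ Q e p s)
        (p_not (p_comp (p := fun x : (ℕ × ℕ) × ℕ => Q x.1.1 x.1.2 x.2) hQ
          (f := fun x : ℕ × ℕ => ((e, x.1), x.2))
          (Computable.pair (Computable.pair (Computable.const e) Computable.fst)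
            Computable.snd))) h1
      obtain ⟨N, hN⟩ := Filter.eventually_atTop.1 (hd g hg)
      have h2 : ∃ k, ∀ p < N, g p ≤ k :=
        ⟨(Finset.range N).sup g, fun p hp => Finset.le_sup (Finset.mem_range.2 hp)⟩
      obtain ⟨k, hk⟩ := h2
      refine ⟨k, Or.inl ?_⟩
      rw [e1]
      push Not
      intro p
      refine ⟨g p, ?_, (hg' p).1⟩
      by_cases hp : p < N
      · exact le_max_of_le_right (hk p hp)
      · exact le_max_of_le_left (hN p (by omega))
  have hP3 : ComputablePred fun x : ℕ × List ℕ =>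
      ∃ k < x.2.length, x.2[g1 (Nat.pair x.1 k)]? = some 0 := by
    refine p_ex_lt (c_length Computable.snd) ?_
    exact p_eq (c_get? (Computable.snd.comp Computable.fst)
      (hg1.comp (Primrec₂.natPair.to_comp.comp (Computable.fst.comp Computable.fst)
        Computable.snd))) (Computable.const _)
  have hP4 : ComputablePred fun x : ℕ × List ℕ =>
      ∃ k < x.2.length, x.2[g2 (Nat.pair x.1 k)]? = some 0 := by
    refine p_ex_lt (c_length Computable.snd) ?_
    exact p_eq (c_get? (Computable.snd.comp Computable.fst)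
      (hg2.comp (Primrec₂.natPair.to_comp.comp (Computable.fst.comp Computable.fst)
        Computable.snd))) (Computable.const _)
  have hget : ∀ (t i : ℕ), (res (charFn (jump A)) t)[i]? = some 0 → i ∉ jump A := by
    intro t i h
    rw [res_get?] at h
    by_cases hi : i < t
    · simp only [hi, if_true, Option.some.injEq] at h
      exact charFn_eq_zero.1 h
    · simp [hi] at h
  refine reducible_of_approx (charFn (jump A)) _
    (fun x => if ∃ k < x.2.length, x.2[g1 (Nat.pair x.1 k)]? = some 0 then some 0 else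
      if ∃ k < x.2.length, x.2[g2 (Nat.pair x.1 k)]? = some 0 then some 1 else none)
    (c_ite hP3 (Computable.const _) (c_ite hP4 (Computable.const _) (Computable.const _))) ?_ ?_
  · intro n t y h
    dsimp only at h
    split_ifs at h with h1 h2
    · obtain ⟨k, -, hk⟩ := h1
      rw [charFn_eq_zero.2 (key1 n k (hget _ _ hk))]
      simpa using h.symm
    · obtain ⟨k, -, hk⟩ := h2
      rw [charFn_eq_one.2 (key2 n k (hget _ _ hk))]
      simpa using h.symm
  · intro n
    obtain ⟨k, hk⟩ := key3 n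
    rcases hk with hk | hk
    · refine ⟨max k (g1 (Nat.pair n k)) + 1, ?_⟩
      have h1 : ∃ k' < (res (charFn (jump A)) (max k (g1 (Nat.pair n k)) + 1)).length,
          (res (charFn (jump A)) (max k (g1 (Nat.pair n k)) + 1))[g1 (Nat.pair n k')]? =
            some 0 := by
        refine ⟨k, by rw [res_length]; omega, ?_⟩
        rw [res_get?, if_pos (by omega), charFn_eq_zero.2 hk]
      dsimp only
      rw [if_pos h1]
      rfl
    · refine ⟨max k (g2 (Nat.pair n k)) + 1, ?_⟩
      have h1 : ∃ k' < (res (charFn (jump A)) (max k (g2 (Nat.pair n k)) + 1)).length,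
          (res (charFn (jump A)) (max k (g2 (Nat.pair n k)) + 1))[g2 (Nat.pair n k')]? =
            some 0 := by
        refine ⟨k, by rw [res_length]; omega, ?_⟩
        rw [res_get?, if_pos (by omega), charFn_eq_zero.2 hk]
      dsimp only
      split_ifs
      · rfl
      · rfl

theorem dominant_of_high {A : ℕ → ℕ}
    (hA : TuringReducible (charFn (jump (charFn (jump (charFn (∅ : Set ℕ))))) : ℕ →. ℕ)
      (charFn (jump A) : ℕ →. ℕ)) :
    ∃ f : ℕ → ℕ, TuringReducible (f : ℕ →. ℕ) (A : ℕ →. ℕ) ∧ Dominant f := by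
  classical
  obtain ⟨Φ, hΦ, mΦ, sΦ⟩ := approx_of_reducible hA
  have sΦ' : ∀ n y, y = charFn (jump (charFn (jump (charFn (∅ : Set ℕ))))) n ↔
      ∃ t, Φ n (res (charFn (jump A)) t) = some y := by
    intro n y
    rw [← sΦ]
    simp
  -- totality
  obtain ⟨j, hj, hj'⟩ := smn (P := fun (x : ℕ × List ℕ) (k : ℕ) =>
    Cv x.1.unpair.1 k x.1.unpair.2)
    (p_Cv (Computable.fst.comp (Computable.unpair.comp (Computable.fst.comp Computable.fst)))
      Computable.snd
      (Computable.snd.comp (Computable.unpair.comp (Computable.fst.comp Computable.fst))))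
  have ej : ∀ e n, j (Nat.pair e n) ∈ jump (charFn (∅ : Set ℕ)) ↔ ∃ k, Cv e k n := by
    intro e n
    rw [hj' (charFn (∅ : Set ℕ))]
    simp
  obtain ⟨h, hh, hh'⟩ := smn (P := fun (x : ℕ × List ℕ) (n : ℕ) =>
    x.2[j (Nat.pair x.1 n)]? = some 0)
    (p_eq (c_get? (Computable.snd.comp Computable.fst) (hj.comp (Primrec₂.natPair.to_comp.comp
      (Computable.fst.comp Computable.fst) Computable.snd))) (Computable.const _))
  have eh : ∀ e, h e ∈ jump (charFn (jump (charFn (∅ : Set ℕ)))) ↔ ∃ n, ∀ k, ¬ Cv e k n := by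
    intro e
    rw [hh' (charFn (jump (charFn (∅ : Set ℕ))))]
    constructor
    · rintro ⟨t, n, hn⟩
      dsimp only at hn
      rw [res_get?] at hn
      by_cases hi : j (Nat.pair e n) < t
      · simp only [hi, if_true, Option.some.injEq] at hn
        rw [charFn_eq_zero, ej] at hn
        push Not at hn
        exact ⟨n, hn⟩
      · simp [hi] at hn
    · rintro ⟨n, hn⟩
      refine ⟨j (Nat.pair e n) + 1, n, ?_⟩
      dsimp only
      rw [res_get?, if_pos (by omega), charFn_eq_zero.2]
      rw [ej]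
      push Not
      exact hn
  -- approximation to non-totality
  obtain ⟨G, hG, hGdef⟩ : ∃ G : ℕ → List ℕ → Prop,
      (ComputablePred fun x : ℕ × List ℕ => G x.1 x.2) ∧
      ∀ e σ, G e σ ↔ ∃ t ≤ σ.length, Φ (h e) (resJ σ t) = some 1 ∧
        ∀ t' < t, Φ (h e) (resJ σ t') = none := by
    refine ⟨fun e σ => ∃ t ≤ σ.length, Φ (h e) (resJ σ t) = some 1 ∧
        ∀ t' < t, Φ (h e) (resJ σ t') = none, ?_, fun _ _ => Iff.rfl⟩
    refine p_ex_le (c_length Computable.snd) (p_and (p_eq ?_ (Computable.const _)) ?_)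
    · exact hΦ.comp (hh.comp (Computable.fst.comp Computable.fst))
        (c_resJ Computable.snd (Computable.snd.comp Computable.fst))
    · refine p_all_lt Computable.snd (p_eq ?_ (Computable.const _))
      exact hΦ.comp (hh.comp (Computable.fst.comp (Computable.fst.comp Computable.fst)))
        (c_resJ Computable.snd (Computable.snd.comp (Computable.fst.comp Computable.fst)))
  have limG : ∀ e, ∃ S, ∀ s, S ≤ s →
      (G e (res A s) ↔ h e ∈ jump (charFn (jump (charFn (∅ : Set ℕ))))) := by
    intro e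
    have hex := (sΦ' (h e) _).1 rfl
    have hex' : ∃ t, Φ (h e) (res (charFn (jump A)) t) ≠ none := by
      obtain ⟨t, ht⟩ := hex
      exact ⟨t, by rw [ht]; simp⟩
    -- stage where all approximations are right up to the least t
    have hS : ∃ S, ∀ s, S ≤ s → ∀ t ≤ Nat.find hex',
        resJ (res A s) t = res (charFn (jump A)) t := by
      generalize Nat.find hex' = t0
      induction t0 with
      | zero =>
        exact ⟨0, fun s _ t ht => by
          have : t = 0 := by omega
          subst this; rfl⟩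
      | succ t0 ih =>
        obtain ⟨S, hS⟩ := ih
        obtain ⟨S', hS'⟩ := lim_resJ A (t0 + 1)
        refine ⟨max S S', fun s hs t ht => ?_⟩
        rcases Nat.lt_or_ge t (t0 + 1) with h1 | h1
        · exact hS s (by omega) t (by omega)
        · have : t = t0 + 1 := by omega
          subst this
          exact hS' s (by omega)
    obtain ⟨S, hS⟩ := hS
    refine ⟨max S (Nat.find hex'), fun s hs => ?_⟩
    have hlt : ∀ t < Nat.find hex', Φ (h e) (resJ (res A s) t) = none := by
      intro t ht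
      rw [hS s (by omega) t (by omega)]
      simpa using Nat.find_min hex' ht
    have hat : Φ (h e) (resJ (res A s) (Nat.find hex')) =
        some (charFn (jump (charFn (jump (charFn (∅ : Set ℕ))))) (h e)) := by
      rw [hS s (by omega) _ le_rfl]
      obtain ⟨y, hy⟩ := Option.ne_none_iff_exists'.1 (Nat.find_spec hex')
      rw [hy, (sΦ' (h e) y).2 ⟨_, hy⟩]
    rw [hGdef, res_length]
    constructor
    · rintro ⟨t, -, ht, ht'⟩
      have h1 : ¬ t < Nat.find hex' := by
        intro hc
        rw [hlt t hc] at ht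
        exact absurd ht (by simp)
      have h2 : ¬ Nat.find hex' < t := by
        intro hc
        rw [ht' _ hc] at hat
        exact absurd hat (by simp)
      have h3 : t = Nat.find hex' := by omega
      rw [h3, hat] at ht
      exact charFn_eq_one.1 (Option.some.inj ht)
    · intro hE
      exact ⟨Nat.find hex', by omega, by rw [hat, charFn_eq_one.2 hE], hlt⟩
  -- the predicate
  obtain ⟨D, hD, hDdef⟩ : ∃ D : ℕ → List ℕ → Prop,
      (ComputablePred fun x : ℕ × List ℕ => D x.1 x.2) ∧
      ∀ n σ, D n σ ↔ ∀ e ≤ n, ∃ s ≤ σ.length, n ≤ s ∧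
        ((∃ y ≤ σ.length, Nat.Partrec.Code.evaln s
          (Denumerable.ofNat Nat.Partrec.Code e) n = some y) ∨ G e (σ.take s)) := by
    refine ⟨fun n σ => ∀ e ≤ n, ∃ s ≤ σ.length, n ≤ s ∧
        ((∃ y ≤ σ.length, Nat.Partrec.Code.evaln s
          (Denumerable.ofNat Nat.Partrec.Code e) n = some y) ∨ G e (σ.take s)), ?_,
        fun _ _ => Iff.rfl⟩
    refine p_all_le Computable.fst (p_ex_le (c_length (Computable.snd.comp Computable.fst))
      (p_and (p_le (Computable.fst.comp (Computable.fst.comp Computable.fst)) Computable.snd)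
        (p_or (p_ex_le (c_length (Computable.snd.comp (Computable.fst.comp Computable.fst)))
          (p_eq (c_evaln ?_ ?_ ?_) (Computable.option_some.comp Computable.snd))) ?_)))
    · exact Computable.snd.comp (Computable.fst.comp Computable.fst)
    · exact Computable.snd.comp Computable.fst
    · exact Computable.fst.comp (Computable.fst.comp (Computable.fst.comp Computable.fst))
    · exact p_comp hG (f := fun x : ((ℕ × List ℕ) × ℕ) × ℕ => (x.1.2, x.1.1.2.take x.2))
        (Computable.pair (Computable.snd.comp Computable.fst)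
          (c_take (Computable.snd.comp (Computable.fst.comp Computable.fst)) Computable.snd))
  have hDA : ∀ n m, D n (res A m) ↔ ∀ e ≤ n, ∃ s ≤ m, n ≤ s ∧
        ((∃ y ≤ m, Nat.Partrec.Code.evaln s
          (Denumerable.ofNat Nat.Partrec.Code e) n = some y) ∨ G e (res A s)) := by
    intro n m
    rw [hDdef, res_length]
    refine forall_congr' fun e => imp_congr_right fun _ => exists_congr fun s =>
      and_congr_right fun hs => ?_
    rw [res_take A hs]
  have comp1 : ∀ n e, ∃ m, ∃ s ≤ m, n ≤ s ∧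
        ((∃ y ≤ m, Nat.Partrec.Code.evaln s
          (Denumerable.ofNat Nat.Partrec.Code e) n = some y) ∨ G e (res A s)) := by
    intro n e
    by_cases he : h e ∈ jump (charFn (jump (charFn (∅ : Set ℕ))))
    · obtain ⟨S, hS⟩ := limG e
      exact ⟨max n S, max n S, le_rfl, le_max_left _ _, Or.inr ((hS _ (le_max_right _ _)).2 he)⟩
    · rw [eh] at he
      push Not at he
      obtain ⟨k, hk⟩ := he n
      have hk' := hk.mono (le_max_left k n)
      unfold Cv at hk'
      obtain ⟨y, hy⟩ := Option.isSome_iff_exists.1 hk'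
      exact ⟨max (max k n) y, max k n, le_max_left _ _, le_max_right _ _,
        Or.inl ⟨y, le_max_right _ _, hy⟩⟩
  have htot : ∀ n, ∃ m, D n (res A m) := by
    intro n
    choose m hm using comp1 n
    refine ⟨(Finset.range (n + 1)).sup m, ?_⟩
    rw [hDA]
    intro e he
    have h1 : m e ≤ (Finset.range (n + 1)).sup m :=
      Finset.le_sup (Finset.mem_range.2 (by omega))
    obtain ⟨s, hs, hns, hor⟩ := hm e
    refine ⟨s, hs.trans h1, hns, ?_⟩
    rcases hor with ⟨y, hy, hy'⟩ | hor
    · exact Or.inl ⟨y, hy.trans h1, hy'⟩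
    · exact Or.inr hor
  refine ⟨fun n => Nat.find (htot n), ?_, ?_⟩
  · have hP : ComputablePred fun x : ℕ × List ℕ => D x.1 x.2 ∧
        ∀ m < x.2.length, ¬ D x.1 (x.2.take m) := by
      refine p_and hD (p_all_lt (c_length Computable.snd) (p_not ?_))
      exact p_comp hD (f := fun x : (ℕ × List ℕ) × ℕ => (x.1.1, x.1.2.take x.2))
        (Computable.pair (Computable.fst.comp Computable.fst)
          (c_take (Computable.snd.comp Computable.fst) Computable.snd))
    refine reducible_of_approx A _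
      (fun x => if D x.1 x.2 ∧ ∀ m < x.2.length, ¬ D x.1 (x.2.take m) then some x.2.length
        else none)
      (c_ite hP (Computable.option_some.comp (c_length Computable.snd)) (Computable.const _))
      ?_ ?_
    · intro n t y hy
      dsimp only at hy
      split_ifs at hy with h1
      obtain ⟨h1, h2⟩ := h1
      rw [res_length] at h2 hy
      have h3 : Nat.find (htot n) = t := by
        rw [Nat.find_eq_iff]
        refine ⟨h1, fun m hm => ?_⟩
        have := h2 m hm
        rwa [res_take A hm.le] at this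
      rw [h3]
      simpa using hy.symm
    · intro n
      refine ⟨Nat.find (htot n), ?_⟩
      have h1 : D n (res A (Nat.find (htot n))) ∧ ∀ m < (res A (Nat.find (htot n))).length,
          ¬ D n ((res A (Nat.find (htot n))).take m) := by
        refine ⟨Nat.find_spec (htot n), fun m hm => ?_⟩
        rw [res_length] at hm
        rw [res_take A hm.le]
        exact Nat.find_min (htot n) hm
      dsimp only
      rw [if_pos h1]
      rfl
  · intro g hg
    obtain ⟨c, hc⟩ := Nat.Partrec.Code.exists_code.1 (Partrec.nat_iff.1 hg)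
    have hev : ∀ n, (Denumerable.ofNat Nat.Partrec.Code (encode c)).eval n = Part.some (g n) := by
      intro n
      rw [Denumerable.ofNat_encode, hc]
      rfl
    have hne : h (encode c) ∉ jump (charFn (jump (charFn (∅ : Set ℕ)))) := by
      rw [eh]
      push Not
      intro n
      rw [← exists_Cv, hev]
      trivial
    obtain ⟨S, hS⟩ := limG (encode c)
    refine Filter.eventually_atTop.2 ⟨max S (encode c), fun n hn => ?_⟩
    have h1 := Nat.find_spec (htot n)
    rw [hDA] at h1
    obtain ⟨s, -, hns, hor⟩ := h1 (encode c) (by omega)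
    rcases hor with ⟨y, hy, hy'⟩ | hor
    · have h2 := Nat.Partrec.Code.evaln_sound (Option.mem_def.2 hy')
      rw [hev, Part.mem_some_iff] at h2
      dsimp only
      omega
    · exact absurd ((hS s (by omega)).1 hor) hne

end High

theorem high_iff_dominant (A : ℕ → ℕ) :
    TuringReducible (charFn (jump (charFn (jump (charFn (∅ : Set ℕ))))) : ℕ →. ℕ)
      (charFn (jump A) : ℕ →. ℕ) ↔
      ∃ f : ℕ → ℕ, TuringReducible (f : ℕ →. ℕ) (A : ℕ →. ℕ) ∧ Dominant f :=
  ⟨High.dominant_of_high, fun ⟨_, hf, hd⟩ => High.high_of_dominant hf hd⟩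

theorem jump_mono {A B : ℕ → ℕ} (h : TuringReducible (A : ℕ →. ℕ) (B : ℕ →. ℕ)) :
    TuringReducible (charFn (jump A) : ℕ →. ℕ) (charFn (jump B) : ℕ →. ℕ) := by
  classical
  obtain ⟨Φ, hΦ, mΦ, sΦ⟩ := approx_of_reducible h
  have sΦ' : ∀ n y, y = A n ↔ ∃ t, Φ n (res B t) = some y := by
    intro n y
    rw [← sΦ]
    simp
  obtain ⟨g, hg, hg'⟩ := High.smn (P := fun (x : ℕ × List ℕ) (q : ℕ) =>
    (∀ n < q.unpair.1, (Φ n x.2).isSome = true) ∧
      High.Cv x.1 q.unpair.2 (encode (res (fun n => (Φ n x.2).getD 0) q.unpair.1))) (by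
    have c1 : Computable fun x : (ℕ × List ℕ) × ℕ => x.2.unpair.1 :=
      Computable.fst.comp (Computable.unpair.comp Computable.snd)
    have c2 : Computable fun x : (ℕ × List ℕ) × ℕ => x.2.unpair.2 :=
      Computable.snd.comp (Computable.unpair.comp Computable.snd)
    have c3 : Computable₂ fun (x : (ℕ × List ℕ) × ℕ) (n : ℕ) => Φ n x.1.2 :=
      hΦ.comp Computable.snd (Computable.snd.comp (Computable.fst.comp Computable.fst))
    refine p_and (p_all_lt c1 (p_bool (Primrec.option_isSome.to_comp.comp c3)))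
      (High.p_Cv (Computable.fst.comp Computable.fst) c2 (Computable.encode.comp ?_))
    unfold res
    exact c_map (c_range c1) (h := fun (x : (ℕ × List ℕ) × ℕ) n => (Φ n x.1.2).getD 0)
      (Computable.option_getD c3 (Computable.const 0)))
  have key : ∀ i, g i ∈ jump B ↔ i ∈ jump A := by
    intro i
    rw [hg' B]
    dsimp only
    have hres : ∀ s t, (∀ n < t, (Φ n (res B s)).isSome = true) →
        res (fun n => (Φ n (res B s)).getD 0) t = res A t := by
      intro s t ht
      unfold res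
      refine List.map_congr_left fun n hn => ?_
      obtain ⟨y, hy⟩ := Option.isSome_iff_exists.1 (ht n (List.mem_range.1 hn))
      rw [← (sΦ' n y).2 ⟨s, hy⟩]
      exact congrArg (fun o => Option.getD o 0) hy
    constructor
    · rintro ⟨s, q, h1, h2⟩
      rw [hres s _ h1] at h2
      exact ⟨q.unpair.1, High.exists_Cv.2 ⟨_, h2⟩⟩
    · rintro ⟨t, ht⟩
      obtain ⟨u, hu⟩ := High.exists_Cv.1 ht
      have h1 : ∃ s, ∀ n < t, (Φ n (res B s)).isSome = true := by
        clear ht hu
        induction t with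
        | zero => exact ⟨0, fun n hn => absurd hn (by omega)⟩
        | succ t ih =>
          obtain ⟨s, hs⟩ := ih
          obtain ⟨s', hs'⟩ := (sΦ' t (A t)).1 rfl
          refine ⟨max s s', fun n hn => ?_⟩
          rcases Nat.lt_succ_iff_lt_or_eq.1 hn with hn | rfl
          · obtain ⟨y, hy⟩ := Option.isSome_iff_exists.1 (hs n hn)
            rw [mono_res mΦ (le_max_left s s') hy]; rfl
          · rw [mono_res mΦ (le_max_right s s') hs']; rfl
      obtain ⟨s, hs⟩ := h1
      refine ⟨s, Nat.pair t u, ?_⟩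
      simp only [Nat.unpair_pair]
      exact ⟨hs, by rw [hres s t hs]; exact hu⟩
  rw [recursiveIn_singleton_iff]
  refine (RA.comp RA.oracle (RA.of_computable hg)).of_eq fun n => ?_
  by_cases hn : n ∈ jump A
  · rw [High.charFn_eq_one.2 hn, High.charFn_eq_one.2 ((key n).2 hn)]
  · rw [High.charFn_eq_zero.2 hn, High.charFn_eq_zero.2 (fun hc => hn ((key n).1 hc))]

theorem re_le_jump (C : Set ℕ) (h : REPred (· ∈ C)) :
    TuringReducible (charFn C : ℕ →. ℕ) (charFn (jump (charFn (∅ : Set ℕ))) : ℕ →. ℕ) := by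
  obtain ⟨g, hg, hg'⟩ := High.smn_re (R := fun x : ℕ × List ℕ => x.1 ∈ C)
    (h.comp Computable.fst)
  have key : ∀ n, g n ∈ jump (charFn (∅ : Set ℕ)) ↔ n ∈ C := by
    intro n
    rw [hg' (charFn (∅ : Set ℕ))]
    exact ⟨fun ⟨_, h⟩ => h, fun h => ⟨0, h⟩⟩
  rw [recursiveIn_singleton_iff]
  refine (RA.comp RA.oracle (RA.of_computable hg)).of_eq fun n => ?_
  by_cases hn : n ∈ C
  · rw [High.charFn_eq_one.2 hn, High.charFn_eq_one.2 ((key n).2 hn)]
  · rw [High.charFn_eq_zero.2 hn, High.charFn_eq_zero.2 (fun hc => hn ((key n).1 hc))]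

end Pool.Agent.Lib.MP_3eaa21_lc
end

section

section

/-! If `L(P)*` is finite and not complemented then `Ext(P)` computes a dominant function. -/

namespace Pool.Agent.Lib.MP_3eaa21_lc

open Encodable Set

open Classical in
/-- number of elements of `p` in `[a, b)` -/
noncomputable def num (p : ℕ → Prop) (a b : ℕ) : ℕ := Nat.count (fun i => a ≤ i ∧ p i) b

open Classical in
theorem num_succ (p : ℕ → Prop) (a b : ℕ) :
    num p a (b + 1) = num p a b + if a ≤ b ∧ p b then 1 else 0 := by
  unfold num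
  rw [Nat.count_succ]

theorem num_zero (p : ℕ → Prop) (a : ℕ) : num p a 0 = 0 := by
  unfold num
  simp

theorem num_of_le (p : ℕ → Prop) {a b : ℕ} (h : b ≤ a) : num p a b = 0 := by
  induction b with
  | zero => exact num_zero p a
  | succ b ih => rw [num_succ, ih (by omega), if_neg (by omega)]

theorem num_mono_right (p : ℕ → Prop) {a b c : ℕ} (h : b ≤ c) : num p a b ≤ num p a c := by
  induction c, h using Nat.le_induction with
  | base => exact le_rfl
  | succ c _ ih => rw [num_succ]; omega

theorem num_mono_pred {p q : ℕ → Prop} {a b : ℕ} (h : ∀ i, a ≤ i → i < b → p i → q i) :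
    num p a b ≤ num q a b := by
  induction b with
  | zero => rw [num_zero, num_zero]
  | succ b ih =>
    have ih' := ih (fun i h1 h2 h3 => h i h1 (by omega) h3)
    rw [num_succ, num_succ]
    by_cases h1 : a ≤ b ∧ p b
    · rw [if_pos h1, if_pos ⟨h1.1, h b h1.1 (by omega) h1.2⟩]
      omega
    · rw [if_neg h1]; omega

theorem num_congr {p q : ℕ → Prop} {a b : ℕ} (h : ∀ i, a ≤ i → i < b → (p i ↔ q i)) :
    num p a b = num q a b :=
  le_antisymm (num_mono_pred fun i h1 h2 h3 => (h i h1 h2).1 h3)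
    (num_mono_pred fun i h1 h2 h3 => (h i h1 h2).2 h3)

theorem num_add (p : ℕ → Prop) {a b c : ℕ} (h1 : a ≤ b) (h2 : b ≤ c) :
    num p a c = num p a b + num p b c := by
  induction c, h2 using Nat.le_induction with
  | base => rw [num_of_le p le_rfl]; omega
  | succ c hc ih =>
    rw [num_succ, num_succ, ih]
    by_cases h : p c
    · rw [if_pos ⟨by omega, h⟩, if_pos ⟨hc, h⟩]; omega
    · rw [if_neg (fun x => h x.2), if_neg (fun x => h x.2)]; omega

theorem num_anti_left (p : ℕ → Prop) {a a' b : ℕ} (h : a ≤ a') : num p a' b ≤ num p a b := by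
  rcases Nat.lt_or_ge b a' with h1 | h1
  · rw [num_of_le p h1.le]; omega
  · rw [num_add p h h1]; omega

theorem exists_num_eq (p : ℕ → Prop) {a b j : ℕ} (h : j + 1 ≤ num p a b) :
    ∃ i, a ≤ i ∧ i < b ∧ p i ∧ num p a i = j := by
  induction b with
  | zero => rw [num_zero] at h; omega
  | succ b ih =>
    by_cases h1 : j + 1 ≤ num p a b
    · obtain ⟨i, h2, h3, h4⟩ := ih h1
      exact ⟨i, h2, by omega, h4⟩
    · rw [num_succ] at h
      by_cases h2 : a ≤ b ∧ p b
      · rw [if_pos h2] at h
        exact ⟨b, h2.1, by omega, h2.2, by omega⟩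
      · rw [if_neg h2] at h; omega

theorem exists_num_ge {p : ℕ → Prop} (h : {i | p i}.Infinite) (a k : ℕ) :
    ∃ b, k ≤ num p a b := by
  induction k with
  | zero => exact ⟨0, Nat.zero_le _⟩
  | succ k ih =>
    obtain ⟨b, hb⟩ := ih
    obtain ⟨i, hi, hi'⟩ := h.exists_gt (max a b)
    refine ⟨i + 1, ?_⟩
    rw [num_succ, if_pos ⟨by omega, hi⟩]
    have := num_mono_right p (a := a) (show b ≤ i by omega)
    omega

theorem c_num {α : Type*} [Primcodable α] {p : α → ℕ → Prop} {a b : α → ℕ}
    (hp : ComputablePred fun x : α × ℕ => p x.1 x.2) (ha : Computable a) (hb : Computable b) :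
    Computable fun x => num (p x) (a x) (b x) := by
  classical
  have h1 : ComputablePred fun x : α × ℕ => (a x.1 ≤ x.2 ∧ p x.1 x.2) :=
    p_and (p_le (ha.comp Computable.fst) Computable.snd) hp
  refine (c_count (p := fun x i => a x ≤ i ∧ p x i) h1 hb).of_eq (fun x => ?_)
  unfold num
  congr

section main

variable {P : Set (ℕ → Bool)} {T : Set (List Bool)}

/-- minimal strings outside `T` -/
def Smin (T : Set (List Bool)) (s : List Bool) : Prop := s ∉ T ∧ ∀ m < s.length, s.take m ∈ T

theorem smin_pred (hT : ComputablePred (· ∈ T)) : ComputablePred (Smin T) := by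
  have e1 : Computable (fun y : List Bool × ℕ => y.1.take y.2) :=
    c_take Computable.fst Computable.snd
  exact p_and (p_not hT) (p_all_lt (p := fun (s : List Bool) m => s.take m ∈ T)
    (c_length Computable.id) (p_comp hT e1))

theorem smin_unique {x : ℕ → Bool} {m n : ℕ} (h1 : Smin T (pre x m)) (h2 : Smin T (pre x n)) :
    m = n := by
  rcases lt_trichotomy m n with h | h | h
  · have := h2.2 m (by rw [pre_length]; exact h)
    rw [pre_take _ h.le] at this
    exact absurd this h1.1
  · exact h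
  · have := h1.2 n (by rw [pre_length]; exact h)
    rw [pre_take _ h.le] at this
    exact absurd this h2.1

theorem exists_smin {x : ℕ → Bool} (h : x ∉ paths T) : ∃ n, Smin T (pre x n) := by
  classical
  have hex : ∃ n, pre x n ∉ T := by
    simpa [paths] using h
  refine ⟨Nat.find hex, Nat.find_spec hex, fun m hm => ?_⟩
  rw [pre_length] at hm
  rw [pre_take _ hm.le]
  have := Nat.find_min hex hm
  simpa using this

theorem mem_ext_iff' {P : Set (ℕ → Bool)} {s : List Bool} :
    s ∈ Ext P ↔ ∃ x ∈ P, pre x s.length = s := Iff.rfl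

/-- If only finitely many minimal strings outside `T` are extendible in `P` then `[T]` has a
complement in `P`. -/
theorem exists_compl (hP : IsPi01 P) (hfin : {s | Smin T s ∧ s ∈ Ext P}.Finite) :
    ∃ R : Set (ℕ → Bool), IsPi01 R ∧ R ⊆ P ∧ paths T ∩ R = ∅ ∧ P ⊆ paths T ∪ R := by
  classical
  let LI : List (List Bool) := hfin.toFinset.toList
  have hLI : ∀ s, s ∈ LI ↔ Smin T s ∧ s ∈ Ext P := by
    intro s; simp [LI]
  obtain ⟨N, hN⟩ : ∃ N, ∀ s ∈ LI, s.length ≤ N := by
    generalize LI = l
    induction l with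
    | nil => exact ⟨0, by simp⟩
    | cons a l ih =>
      obtain ⟨N, hN⟩ := ih
      refine ⟨max N a.length, fun s hs => ?_⟩
      rcases List.mem_cons.1 hs with rfl | hs
      · exact le_max_right _ _
      · exact le_trans (hN s hs) (le_max_left _ _)
  let W : Set (List Bool) := {τ | τ.length = N ∧ ∀ s ∈ LI, s ≠ τ.take s.length}
  have hW : REPred (· ∈ W) := by
    have e1 : ComputablePred fun τ : List Bool => τ.length = N :=
      p_eq (c_length Computable.id) (Computable.const N)
    have e2 : ComputablePred fun y : List Bool × List Bool => y.2 ≠ y.1.take y.2.length :=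
      p_not (p_eq Computable.snd (c_take Computable.fst (c_length Computable.snd)))
    exact (p_and e1 (p_all (p := fun (τ : List Bool) s => s ≠ τ.take s.length)
      (Computable.const LI) e2)).to_re
  refine ⟨{x | x ∈ P ∧ ∀ n, pre x n ∉ W}, hP.minus hW, fun x hx => hx.1, ?_, ?_⟩
  · rw [Set.eq_empty_iff_forall_notMem]
    rintro x ⟨hx, -, hx2⟩
    have h1 := hx2 N
    have h2 : ∃ s ∈ LI, s = (pre x N).take s.length := by
      by_contra hc
      push Not at hc
      exact h1 ⟨pre_length _ _, hc⟩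
    obtain ⟨s, hs, hs'⟩ := h2
    rw [pre_take _ (hN s hs)] at hs'
    have h3 := ((hLI s).1 hs).1.1
    rw [hs'] at h3
    exact h3 (hx _)
  · intro x hx
    by_cases hxQ : x ∈ paths T
    · exact Or.inl hxQ
    · right
      refine ⟨hx, fun n hn => ?_⟩
      obtain ⟨m, hm⟩ := exists_smin hxQ
      have hmem : pre x m ∈ LI := (hLI _).2 ⟨hm, ⟨x, hx, by rw [pre_length]⟩⟩
      obtain ⟨h1, h2⟩ := hn
      have h3 := h2 _ hmem
      rw [pre_length] at h1 h3
      have h4 := hN _ hmem
      rw [pre_length] at h4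
      rw [pre_take _ (by omega)] at h3
      exact h3 rfl

/-- codes of the extendible minimal strings -/
def Jset (T : Set (List Bool)) (P : Set (ℕ → Bool)) (n : ℕ) : Prop :=
  ∃ s, Smin T s ∧ s ∈ Ext P ∧ encode s = n

theorem jset_infinite (h : {s | Smin T s ∧ s ∈ Ext P}.Infinite) : {n | Jset T P n}.Infinite := by
  have h1 := h.image (f := fun s : List Bool => encode s) (encode_injective.injOn)
  refine h1.mono ?_
  rintro n ⟨s, ⟨h2, h3⟩, rfl⟩
  exact ⟨s, h2, h3, rfl⟩

/-- the classes `R_j` -/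
theorem chain_step (hP : IsPi01 P) (hT : ComputablePred (· ∈ T)) {st : ℕ → ℕ}
    (hst : Computable st) (j : ℕ) :
    IsPi01 {x | x ∈ P ∧ ∀ n, pre x n ∉
      {σ : List Bool | Smin T σ ∧ num (Jset T P) (st (encode σ)) (encode σ) ≤ j}} := by
  classical
  refine hP.minus ?_
  obtain ⟨St, hSt, hmono, hspec⟩ := exists_stage (re_not_ext hP)
  -- stage approximation of `Jset`
  let Js : ℕ → ℕ → Prop := fun s n => ∃ σ ∈ (decode₂ (List Bool) n).toList, Smin T σ ∧ ¬ St s σ
  have hJs : ComputablePred fun x : ℕ × ℕ => Js x.1 x.2 := by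
    have e1 : Computable (fun x : ℕ × ℕ => (decode₂ (List Bool) x.2).toList) :=
      Primrec.optionToList.to_comp.comp (Primrec.decode₂.to_comp.comp Computable.snd)
    have e2 : ComputablePred fun y : (ℕ × ℕ) × List Bool => Smin T y.2 :=
      p_comp (smin_pred hT) Computable.snd
    have e3 : ComputablePred fun y : (ℕ × ℕ) × List Bool => ¬ St y.1.1 y.2 :=
      p_not (p_comp hSt (f := fun y : (ℕ × ℕ) × List Bool => (y.1.1, y.2))
        (Computable.pair (Computable.fst.comp Computable.fst) Computable.snd))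
    exact p_ex (p := fun (x : ℕ × ℕ) σ => Smin T σ ∧ ¬ St x.1 σ) e1 (p_and e2 e3)
  have hJ1 : ∀ s n, Jset T P n → Js s n := by
    rintro s n ⟨σ, h1, h2, rfl⟩
    refine ⟨σ, by simp, h1, fun hc => ?_⟩
    exact ((hspec σ).2 ⟨s, hc⟩) h2
  have hJ2 : ∀ s t n, s ≤ t → Js t n → Js s n := by
    rintro s t n hst ⟨σ, h1, h2, h3⟩
    exact ⟨σ, h1, h2, fun hc => h3 (hmono _ _ _ hst hc)⟩
  have hJ3 : ∀ b, ∃ s, ∀ i < b, Js s i → Jset T P i := by
    intro b
    induction b with
    | zero => exact ⟨0, fun i hi => absurd hi (by omega)⟩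
    | succ b ih =>
      obtain ⟨s, hs⟩ := ih
      by_cases hb : Jset T P b
      · refine ⟨s, fun i hi h => ?_⟩
        rcases Nat.lt_succ_iff_lt_or_eq.1 hi with hi | rfl
        · exact hs i hi h
        · exact hb
      · have : ∃ t, ¬ Js t b := by
          by_contra hc
          push Not at hc
          obtain ⟨σ, h1, h2, -⟩ := hc 0
          rw [Option.mem_toList] at h1
          have hσ : encode σ = b := mem_decode₂.1 h1
          apply hb
          refine ⟨σ, h2, ?_, hσ⟩
          by_contra hne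
          obtain ⟨u, hu⟩ := (hspec σ).1 hne
          obtain ⟨τ, h3, -, h5⟩ := hc u
          rw [Option.mem_toList] at h3
          have hτ : encode τ = b := mem_decode₂.1 h3
          have : τ = σ := encode_injective (hτ.trans hσ.symm)
          subst this
          exact h5 hu
        obtain ⟨t, ht⟩ := this
        refine ⟨max s t, fun i hi h => ?_⟩
        rcases Nat.lt_succ_iff_lt_or_eq.1 hi with hi | rfl
        · exact hs i hi (hJ2 _ _ _ (le_max_left _ _) h)
        · exact absurd (hJ2 _ _ _ (le_max_right _ _) h) ht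
  refine re_of_stage (fun σ s => Smin T σ ∧ num (Js s) (st (encode σ)) (encode σ) ≤ j) ?_ ?_
  · have e1 : ComputablePred fun x : List Bool × ℕ => Smin T x.1 :=
      p_comp (smin_pred hT) Computable.fst
    have e2 : ComputablePred fun y : (List Bool × ℕ) × ℕ => Js y.1.2 y.2 :=
      p_comp hJs (f := fun y : (List Bool × ℕ) × ℕ => (y.1.2, y.2))
        (Computable.pair (Computable.snd.comp Computable.fst) Computable.snd)
    have e3 : Computable (fun x : List Bool × ℕ => encode x.1) :=
      Computable.encode.comp Computable.fst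
    exact p_and e1 (p_le (c_num (p := fun (x : List Bool × ℕ) i => Js x.2 i) e2
      (hst.comp e3) e3) (Computable.const j))
  · intro σ
    constructor
    · rintro ⟨h1, h2⟩
      obtain ⟨s, hs⟩ := hJ3 (encode σ)
      refine ⟨s, h1, le_trans (num_mono_pred fun i _ h3 h4 => hs i h3 h4) h2⟩
    · rintro ⟨s, h1, h2⟩
      exact ⟨h1, le_trans (num_mono_pred fun i _ _ h4 => hJ1 s i h4) h2⟩

/-- The main counting lemma. -/
theorem count_bound {P : Pi01Class} [Finite (LStar P)] (hT : ComputablePred (· ∈ T))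
    {h : ℕ → ℕ} (hcomp : Computable h) (hmono : StrictMono h) :
    ∃ m₀, ∀ m ≥ m₀, num (Jset T P.1) (h m) (h (m + 1)) ≤ Nat.card (LStar P) := by
  classical
  -- start of the interval of `z`
  have hex : ∀ z, ∃ m, z < h (m + 1) := fun z => ⟨z, lt_of_lt_of_le (Nat.lt_succ_self z) hmono.le_apply⟩
  obtain ⟨mi, hmi, hmispec⟩ := exists_computable_choice (R := fun z m => z < h (m + 1))
    (p_lt Computable.fst (hcomp.comp (Computable.succ.comp Computable.snd))) hex
  have hmieq : ∀ z m, h m ≤ z → z < h (m + 1) → mi z = m := by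
    intro z m h1 h2
    rcases lt_trichotomy (mi z) m with h3 | h3 | h3
    · have h4 := (hmispec z).1
      have h5 : h (mi z + 1) ≤ h m := hmono.monotone (by omega)
      omega
    · exact h3
    · exact absurd h2 ((hmispec z).2 m h3)
  have hst : Computable (fun z => h (mi z)) := hcomp.comp hmi
  let W : ℕ → Set (List Bool) := fun j =>
    {σ : List Bool | Smin T σ ∧ num (Jset T P.1) (h (mi (encode σ))) (encode σ) ≤ j}
  let R : ℕ → Set (ℕ → Bool) := fun j => {x | x ∈ P.1 ∧ ∀ n, pre x n ∉ W j}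
  have hR : ∀ j, IsPi01 (R j) := fun j => chain_step P.2 hT hst j
  have hRP : ∀ j, R j ⊆ P.1 := fun j x hx => hx.1
  have hanti : ∀ i j, i ≤ j → R j ⊆ R i := by
    intro i j hij x hx
    exact ⟨hx.1, fun n hn => hx.2 n ⟨hn.1, le_trans hn.2 hij⟩⟩
  have hfd : ∃ i < Nat.card (LStar P), (R i \ R (i + 1)).Finite := by
    have := Fintype.ofFinite (LStar P)
    have hcard : Fintype.card (LStar P) < Fintype.card (Fin (Nat.card (LStar P) + 1)) := by
      rw [Fintype.card_fin, Nat.card_eq_fintype_card]; omega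
    obtain ⟨a, b, hab, heq⟩ := Fintype.exists_ne_map_eq_of_card_lt
      (fun j : Fin (Nat.card (LStar P) + 1) => (LStar.mk (R j) (hR j) (hRP j) : LStar P)) hcard
    have key : ∀ a b : Fin (Nat.card (LStar P) + 1), a < b →
        (LStar.mk (R a) (hR a) (hRP a) : LStar P) = LStar.mk (R b) (hR b) (hRP b) →
        ∃ i < Nat.card (LStar P), (R i \ R (i + 1)).Finite := by
      intro a b hab heq
      have h1 := (LStar.mk_eq _ _ _ _).1 heq
      have hab' : (a : ℕ) < b := hab
      refine ⟨a, by omega, h1.subset ?_⟩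
      rintro x ⟨hx, hx'⟩
      exact Or.inl ⟨hx, fun hc => hx' (hanti _ _ (by omega) hc)⟩
    rcases lt_or_gt_of_ne hab with h1 | h1
    · exact key a b h1 heq
    · exact key b a h1 heq.symm
  obtain ⟨i, hi, hfin⟩ := hfd
  by_contra hcon
  push Not at hcon
  -- infinitely many intervals with many elements
  have hinf : {m | i + 2 ≤ num (Jset T P.1) (h m) (h (m + 1))}.Infinite := by
    rw [Set.infinite_iff_exists_gt]
    intro a
    obtain ⟨m, hm, hm'⟩ := hcon (a + 1)
    exact ⟨m, by show i + 2 ≤ _; omega, by omega⟩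
  have hchoose : ∀ m, i + 2 ≤ num (Jset T P.1) (h m) (h (m + 1)) →
      ∃ x : ℕ → Bool, x ∈ P.1 ∧ ∃ k, Smin T (pre x k) ∧ h m ≤ encode (pre x k) ∧
        encode (pre x k) < h (m + 1) ∧
        num (Jset T P.1) (h m) (encode (pre x k)) = i + 1 := by
    intro m hm
    obtain ⟨n, h1, h2, ⟨s, h3, h4, rfl⟩, h5⟩ := exists_num_eq _ (show i + 1 + 1 ≤ _ from hm)
    obtain ⟨x, hx, hxs⟩ := h4
    refine ⟨x, hx, s.length, ?_⟩
    rw [hxs]
    exact ⟨h3, h1, h2, h5⟩
  choose! X hXP K hK1 hK2 hK3 hK4 using hchoose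
  refine Set.infinite_of_injOn_mapsTo (f := X) ?_ ?_ hinf hfin
  · intro m hm m' hm' hXX
    have h1 := hK1 m hm
    have h2 := hK1 m' hm'
    rw [← hXX] at h2
    have h3 := smin_unique h1 h2
    have h4 := hmieq _ _ (hK2 m hm) (hK3 m hm)
    have h5 := hmieq _ _ (hK2 m' hm') (hK3 m' hm')
    rw [← hXX, ← h3] at h5
    rw [← h4, ← h5]
  · intro m hm
    refine ⟨⟨hXP m hm, ?_⟩, ?_⟩
    · rintro n ⟨h1, h2⟩
      have h3 := smin_unique h1 (hK1 m hm)
      rw [h3, hmieq _ _ (hK2 m hm) (hK3 m hm), hK4 m hm] at h2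
      omega
    · rintro ⟨-, h1⟩
      refine h1 (K m) ⟨hK1 m hm, ?_⟩
      rw [hmieq _ _ (hK2 m hm) (hK3 m hm), hK4 m hm]

end main

/-- **Upper bound.** If `L(P)*` is finite and not a Boolean algebra then `Ext(P)` computes a
dominant function. -/
theorem exists_dominant (P : Pi01Class) (hfin : Finite (LStar P))
    (hnc : ¬ ComplementedLattice (LStar P)) :
    ∃ f : ℕ → ℕ, TuringReducible (f : ℕ →. ℕ) (charFn (Ext P.1) : ℕ →. ℕ) ∧ Dominant f := by
  classical
  rw [complementedLattice_iff] at hnc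
  push Not at hnc
  obtain ⟨a, ha⟩ := hnc
  obtain ⟨Q, hQ, hQP, rfl⟩ := LStar.exists_mk a
  obtain ⟨T, hT, tT, rfl⟩ := id hQ
  have hinf : {s | Smin T s ∧ s ∈ Ext P.1}.Infinite := by
    intro hf
    obtain ⟨R, hR, hRP, h1, h2⟩ := exists_compl P.2 hf
    refine ha (LStar.mk R hR hRP) ⟨?_, ?_⟩
    · rw [disjoint_iff, LStar.mk_inf]
      exact LStar.mk_of_eq _ _ _ _ h1
    · rw [codisjoint_iff, LStar.mk_sup]
      exact LStar.mk_of_eq _ _ _ _ (Set.Subset.antisymm (Set.union_subset hQP hRP) h2)
  have hJinf := jset_infinite hinf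
  set J := Jset T P.1 with hJ
  set N := Nat.card (LStar P) with hN
  -- the function
  obtain ⟨f, hf, hfspec⟩ := exists_reducible_choice (charFn (Ext P.1))
    (fun n z σ => z ≤ σ.length ∧ 2 * N < num (fun i =>
      (∃ s ∈ (decode₂ (List Bool) i).toList, Smin T s) ∧ σ.getD i 0 = 1) n z) (by
      have e1 : Computable (fun y : ((ℕ × ℕ) × List ℕ) × ℕ =>
          (decode₂ (List Bool) y.2).toList) :=
        Primrec.optionToList.to_comp.comp (Primrec.decode₂.to_comp.comp Computable.snd)
      have e2 : ComputablePred fun y : (((ℕ × ℕ) × List ℕ) × ℕ) × List Bool => Smin T y.2 :=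
        p_comp (smin_pred hT) Computable.snd
      have e3 : ComputablePred fun y : ((ℕ × ℕ) × List ℕ) × ℕ =>
          ∃ s ∈ (decode₂ (List Bool) y.2).toList, Smin T s :=
        p_ex (p := fun (_ : ((ℕ × ℕ) × List ℕ) × ℕ) s => Smin T s) e1 e2
      have e4 : ComputablePred fun y : ((ℕ × ℕ) × List ℕ) × ℕ => y.1.2.getD y.2 0 = 1 :=
        p_eq (c_getD (Computable.snd.comp Computable.fst) Computable.snd) (Computable.const 1)
      exact p_and (p_le (Computable.snd.comp Computable.fst) (c_length Computable.snd))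
        (p_lt (Computable.const (2 * N)) (c_num (p := fun (x : (ℕ × ℕ) × List ℕ) i =>
          (∃ s ∈ (decode₂ (List Bool) i).toList, Smin T s) ∧ x.2.getD i 0 = 1) (p_and e3 e4)
          (Computable.fst.comp Computable.fst) (Computable.snd.comp Computable.fst)))) (by
      intro n
      obtain ⟨z, hz⟩ := exists_num_ge hJinf n (2 * N + 1)
      refine ⟨z, z, by rw [res_length], ?_⟩
      refine lt_of_lt_of_le (show 2 * N < 2 * N + 1 by omega) (le_trans hz
        (num_mono_pred fun i _ hi => ?_))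
      rintro ⟨s, h1, h2, rfl⟩
      refine ⟨⟨s, by simp, h1⟩, ?_⟩
      rw [res_getD _ hi, charFn_encode, if_pos h2])
  have hf2 : ∀ n, 2 * N < num J n (f n) := by
    intro n
    obtain ⟨t, h1, h2⟩ := hfspec n
    rw [res_length] at h1
    refine lt_of_lt_of_le h2 (num_mono_pred fun i _ hi => ?_)
    rintro ⟨⟨s, h3, h4⟩, h5⟩
    rw [Option.mem_toList] at h3
    have hs : encode s = i := mem_decode₂.1 h3
    rw [res_getD _ (by omega), ← hs, charFn_encode] at h5
    refine ⟨s, h4, ?_, hs⟩
    by_contra hc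
    rw [if_neg hc] at h5
    exact absurd h5 (by simp)
  refine ⟨f, hf, ?_⟩
  intro g hg
  -- monotone majorant
  let g' : ℕ → ℕ := fun n => Nat.rec (g 0) (fun n ih => max ih (g (n + 1))) n
  have hg'comp : Computable g' :=
    Computable.nat_rec Computable.id (Computable.const (g 0))
      (h := fun _ p => max p.2 (g (p.1 + 1)))
      (c_max (Computable.snd.comp Computable.snd)
        (hg.comp (Computable.succ.comp (Computable.fst.comp Computable.snd))))
  have hg'ge : ∀ n i, i ≤ n → g i ≤ g' n := by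
    intro n
    induction n with
    | zero => intro i hi; have : i = 0 := by omega
              subst this; exact le_rfl
    | succ n ih =>
      intro i hi
      rcases Nat.le_succ_iff.1 hi with hi | rfl
      · exact le_trans (ih i hi) (le_max_left _ _)
      · exact le_max_right _ _
  let h : ℕ → ℕ := fun n => Nat.rec 0 (fun _ ih => max ih (g' ih) + 1) n
  have hhcomp : Computable h :=
    Computable.nat_rec Computable.id (Computable.const 0)
      (h := fun _ p => max p.2 (g' p.2) + 1)
      (Computable.succ.comp (c_max (Computable.snd.comp Computable.snd)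
        (hg'comp.comp (Computable.snd.comp Computable.snd))))
  have hh0 : h 0 = 0 := rfl
  have hhs : ∀ n, h (n + 1) = max (h n) (g' (h n)) + 1 := fun n => rfl
  have hhmono : StrictMono h := strictMono_nat_of_lt_succ fun n => by rw [hhs]; omega
  obtain ⟨m₀, hm₀'⟩ := count_bound (P := P) hT hhcomp hhmono
  have hm₀ : ∀ m ≥ m₀, num J (h m) (h (m + 1)) ≤ N := hm₀'
  rw [Filter.eventually_atTop]
  refine ⟨h m₀, fun n hn => ?_⟩
  -- the interval of `n`
  have hexm : ∃ m, n < h (m + 1) := ⟨n, lt_of_lt_of_le (Nat.lt_succ_self n) hhmono.le_apply⟩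
  set m := Nat.find hexm with hm
  have hm1 : n < h (m + 1) := Nat.find_spec hexm
  have hm2 : h m ≤ n := by
    rcases Nat.eq_zero_or_pos m with h1 | h1
    · rw [h1, hh0]; omega
    · obtain ⟨m', hm'⟩ : ∃ m', m = m' + 1 := ⟨m - 1, by omega⟩
      rw [hm']
      have := Nat.find_min hexm (show m' < Nat.find hexm by omega)
      omega
  have hm3 : m₀ ≤ m := by
    by_contra hc
    push Not at hc
    have hle : m + 1 ≤ m₀ := hc
    have : h (m + 1) ≤ h m₀ := hhmono.monotone hle
    omega
  have h1 : num J n (h (m + 2)) ≤ 2 * N := by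
    have e1 := num_anti_left J (b := h (m + 2)) hm2
    have e2 := num_add J (hhmono.monotone (show m ≤ m + 1 by omega))
      (hhmono.monotone (show m + 1 ≤ m + 2 by omega))
    have e3 := hm₀ m hm3
    have e4 := hm₀ (m + 1) (by omega)
    have e5 : m + 1 + 1 = m + 2 := rfl
    rw [e5] at e4
    omega
  have h2 : h (m + 2) < f n := by
    by_contra hc
    push Not at hc
    have := num_mono_right J (a := n) hc
    have := hf2 n
    omega
  have h3 : g n ≤ g' (h (m + 1)) := hg'ge _ _ hm1.le
  have h4 := hhs (m + 1)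
  have h5 : m + 1 + 1 = m + 2 := rfl
  rw [h5] at h4
  omega

end Pool.Agent.Lib.MP_3eaa21_lc
end

section

/-! Martin's theorem: every c.e. set computing a dominant function is Turing equivalent to a
maximal set. -/

namespace Pool.Agent.Lib.MP_3eaa21_lc

open Encodable

/-- Every c.e. set has a computable enumeration without repetitions (with pauses). -/
theorem exists_enum {C : Set ℕ} (hC : REPred (· ∈ C)) : ∃ c : ℕ → Option ℕ, Computable c ∧
    (∀ s t i, c s = some i → c t = some i → s = t) ∧ ∀ i, i ∈ C ↔ ∃ s, c s = some i := by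
  classical
  obtain ⟨St, hSt, -, hC'⟩ := exists_stage hC
  let new : ℕ → Prop := fun s => St s.unpair.2 s.unpair.1 ∧
    ∀ t < s, t.unpair.1 = s.unpair.1 → ¬ St t.unpair.2 t.unpair.1
  have e1 : Computable (fun s : ℕ => (s.unpair.2, s.unpair.1)) :=
    Computable.pair (Computable.snd.comp Computable.unpair)
      (Computable.fst.comp Computable.unpair)
  have hS1 : ComputablePred fun s : ℕ => St s.unpair.2 s.unpair.1 := p_comp hSt e1
  have hnew : ComputablePred new := by
    refine p_and hS1 ?_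
    refine p_all_lt (p := fun s t => t.unpair.1 = s.unpair.1 → ¬ St t.unpair.2 t.unpair.1)
      Computable.id ?_
    exact p_imp (p_eq (Computable.fst.comp (Computable.unpair.comp Computable.snd))
      (Computable.fst.comp (Computable.unpair.comp Computable.fst)))
      (p_not (p_comp hS1 Computable.snd))
  refine ⟨fun s => if new s then some s.unpair.1 else none, ?_, ?_, ?_⟩
  · exact c_ite hnew (Computable.option_some.comp (Computable.fst.comp Computable.unpair))
      (Computable.const none)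
  · intro s t i hs ht
    simp only at hs ht
    by_cases h1 : new s
    · by_cases h2 : new t
      · rw [if_pos h1] at hs
        rw [if_pos h2] at ht
        have hs' := Option.some.inj hs
        have ht' := Option.some.inj ht
        rcases lt_trichotomy s t with h | h | h
        · exact absurd h1.1 (h2.2 s h (by rw [hs', ht']))
        · exact h
        · exact absurd h2.1 (h1.2 t h (by rw [hs', ht']))
      · rw [if_neg h2] at ht; exact absurd ht (by simp)
    · rw [if_neg h1] at hs; exact absurd hs (by simp)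
  · intro i
    constructor
    · intro hi
      obtain ⟨u, hu⟩ := (hC' i).1 hi
      have hex : ∃ s : ℕ, s.unpair.1 = i ∧ St s.unpair.2 s.unpair.1 :=
        ⟨Nat.pair i u, by simpa using hu⟩
      refine ⟨Nat.find hex, ?_⟩
      have h1 := Nat.find_spec hex
      have hn : new (Nat.find hex) := by
        refine ⟨h1.2, fun t ht hte hc => ?_⟩
        exact Nat.find_min hex ht ⟨hte.trans h1.1, hc⟩
      simp only [if_pos hn, h1.1]
    · rintro ⟨s, hs⟩
      simp only at hs
      by_cases h1 : new s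
      · rw [if_pos h1] at hs
        rw [← Option.some.inj hs]
        exact (hC' _).2 ⟨_, h1.1⟩
      · rw [if_neg h1] at hs; exact absurd hs (by simp)

namespace Reduction

open Classical in
/-- characteristic function of the part enumerated before stage `s` -/
noncomputable def chi (c : ℕ → Option ℕ) (s i : ℕ) : ℕ := if ∃ t < s, c t = some i then 1 else 0

theorem chi_pred {c : ℕ → Option ℕ} (hc : Computable c) :
    ComputablePred fun x : ℕ × ℕ => ∃ t < x.1, c t = some x.2 :=
  p_ex_lt (p := fun (x : ℕ × ℕ) t => c t = some x.2) Computable.fst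
    (p_eq (hc.comp Computable.snd) (Computable.option_some.comp (Computable.snd.comp Computable.fst)))

theorem chi_comp {c : ℕ → Option ℕ} (hc : Computable c) :
    Computable fun x : ℕ × ℕ => chi c x.1 x.2 := by
  classical
  exact c_ite (chi_pred hc) (Computable.const 1) (Computable.const 0)

/-- the stage approximation of the initial segments of `C` -/
noncomputable def rs (c : ℕ → Option ℕ) (s t : ℕ) : List ℕ := res (chi c s) t

theorem res_chi_comp {c : ℕ → Option ℕ} (hc : Computable c) : Computable₂ (rs c) := by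
  have h : Computable₂ (fun (x : ℕ × ℕ) (i : ℕ) => chi c x.1 i) :=
    (chi_comp hc).comp (Computable.pair (Computable.fst.comp Computable.fst) Computable.snd)
  exact c_map (c_range Computable.snd) h

/-- `t` is the use of a computation of value `≤ s` at stage `s`; `r s` approximates the
oracle at stage `s` -/
def UseR (r : ℕ → ℕ → List ℕ) (Φ : ℕ → List ℕ → Option ℕ) (n s t : ℕ) : Prop :=
  (Φ n (r s t)).isSome = true ∧ (∀ t' < t, Φ n (r s t') = none) ∧ (Φ n (r s t)).getD 0 ≤ s

/-- the computation at `n` exists at stage `s` and is not destroyed at stage `s` -/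
def OKR (c : ℕ → Option ℕ) (r : ℕ → ℕ → List ℕ) (Φ : ℕ → List ℕ → Option ℕ) (s n : ℕ) : Prop :=
  ∃ t ≤ s, UseR r Φ n s t ∧ ∀ i ∈ (c s).toList, t ≤ i ∧ n < i

theorem useR_pred {r : ℕ → ℕ → List ℕ} {Φ : ℕ → List ℕ → Option ℕ} (hr : Computable₂ r)
    (hΦ : Computable₂ Φ) :
    ComputablePred fun x : (ℕ × ℕ) × ℕ => UseR r Φ x.1.1 x.1.2 x.2 := by
  have e1 : Computable (fun x : (ℕ × ℕ) × ℕ => Φ x.1.1 (r x.1.2 x.2)) :=
    hΦ.comp (Computable.fst.comp Computable.fst)
      (hr.comp (Computable.snd.comp Computable.fst) Computable.snd)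
  have e2 : Computable (fun y : ((ℕ × ℕ) × ℕ) × ℕ => Φ y.1.1.1 (r y.1.1.2 y.2)) :=
    hΦ.comp (Computable.fst.comp (Computable.fst.comp Computable.fst))
      (hr.comp (Computable.snd.comp (Computable.fst.comp Computable.fst)) Computable.snd)
  refine p_and (p_bool (Primrec.option_isSome.to_comp.comp e1)) (p_and ?_ ?_)
  · exact p_all_lt (p := fun (x : (ℕ × ℕ) × ℕ) t' => Φ x.1.1 (r x.1.2 t') = none)
      Computable.snd (p_eq e2 (Computable.const none))
  · exact p_le (Computable.option_getD e1 (Computable.const 0))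
      (Computable.snd.comp Computable.fst)

theorem okR_pred {c : ℕ → Option ℕ} {r : ℕ → ℕ → List ℕ} {Φ : ℕ → List ℕ → Option ℕ}
    (hc : Computable c) (hr : Computable₂ r) (hΦ : Computable₂ Φ) :
    ComputablePred fun x : ℕ × ℕ => OKR c r Φ x.1 x.2 := by
  have e1 : Computable (fun y : (ℕ × ℕ) × ℕ => ((y.1.2, y.1.1), y.2)) :=
    Computable.pair (Computable.pair (Computable.snd.comp Computable.fst)
      (Computable.fst.comp Computable.fst)) Computable.snd
  have e2 : ComputablePred fun y : (ℕ × ℕ) × ℕ => UseR r Φ y.1.2 y.1.1 y.2 :=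
    p_comp (useR_pred hr hΦ) e1
  have e3 : Computable (fun y : (ℕ × ℕ) × ℕ => (c y.1.1).toList) :=
    Primrec.optionToList.to_comp.comp (hc.comp (Computable.fst.comp Computable.fst))
  have e4 : ComputablePred fun y : (ℕ × ℕ) × ℕ => ∀ i ∈ (c y.1.1).toList, y.2 ≤ i ∧ y.1.2 < i :=
    p_all (p := fun (y : (ℕ × ℕ) × ℕ) i => y.2 ≤ i ∧ y.1.2 < i) e3
      (p_and (p_le (Computable.snd.comp Computable.fst) Computable.snd)
        (p_lt (Computable.snd.comp (Computable.fst.comp Computable.fst)) Computable.snd))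
  exact p_ex_le (p := fun (x : ℕ × ℕ) t => UseR r Φ x.2 x.1 t ∧
    ∀ i ∈ (c x.1).toList, t ≤ i ∧ x.2 < i) Computable.fst (p_and e2 e4)

/-- the search condition for the reduction of `M` to `C` -/
def Cond1 (r : ℕ → ℕ → List ℕ) (ch : ℕ → ℕ → ℕ) (Φ : ℕ → List ℕ → Option ℕ) (z s : ℕ)
    (σ : List ℕ) : Prop :=
  z < s ∧ z < σ.length ∧ (∀ i ≤ z, σ.getD i 0 = ch s i) ∧
    ∀ n ≤ z, ∃ t ≤ s, (t ≤ σ.length ∧ σ.take t = r s t) ∧ UseR r Φ n s t

theorem cond1_pred {r : ℕ → ℕ → List ℕ} {ch : ℕ → ℕ → ℕ} {Φ : ℕ → List ℕ → Option ℕ}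
    (hr : Computable₂ r) (hch : Computable₂ ch) (hΦ : Computable₂ Φ) :
    ComputablePred fun x : (ℕ × ℕ) × List ℕ => Cond1 r ch Φ x.1.1 x.1.2 x.2 := by
  have a1 : ComputablePred fun x : (ℕ × ℕ) × List ℕ => x.1.1 < x.1.2 :=
    p_lt (Computable.fst.comp Computable.fst) (Computable.snd.comp Computable.fst)
  have a2 : ComputablePred fun x : (ℕ × ℕ) × List ℕ => x.1.1 < x.2.length :=
    p_lt (Computable.fst.comp Computable.fst) (c_length Computable.snd)
  have a3' : Computable (fun y : ((ℕ × ℕ) × List ℕ) × ℕ => ch y.1.1.2 y.2) :=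
    hch.comp (Computable.snd.comp (Computable.fst.comp Computable.fst)) Computable.snd
  have a3'' : ComputablePred fun y : ((ℕ × ℕ) × List ℕ) × ℕ =>
      y.1.2.getD y.2 0 = ch y.1.1.2 y.2 :=
    p_eq (c_getD (Computable.snd.comp Computable.fst) Computable.snd) a3'
  have a3 : ComputablePred fun x : (ℕ × ℕ) × List ℕ =>
      ∀ i ≤ x.1.1, x.2.getD i 0 = ch x.1.2 i :=
    p_all_le (p := fun (x : (ℕ × ℕ) × List ℕ) i => x.2.getD i 0 = ch x.1.2 i)
      (Computable.fst.comp Computable.fst) a3''
  have b1 : Computable (fun w : (((ℕ × ℕ) × List ℕ) × ℕ) × ℕ => r w.1.1.1.2 w.2) :=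
    hr.comp (Computable.snd.comp (Computable.fst.comp
      (Computable.fst.comp Computable.fst))) Computable.snd
  have b2 : ComputablePred fun w : (((ℕ × ℕ) × List ℕ) × ℕ) × ℕ =>
      w.2 ≤ w.1.1.2.length ∧ w.1.1.2.take w.2 = r w.1.1.1.2 w.2 :=
    p_and (p_le Computable.snd (c_length (Computable.snd.comp
      (Computable.fst.comp Computable.fst))))
      (p_eq (c_take (Computable.snd.comp (Computable.fst.comp Computable.fst))
        Computable.snd) b1)
  have b3' : Computable (fun w : (((ℕ × ℕ) × List ℕ) × ℕ) × ℕ =>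
      ((w.1.2, w.1.1.1.2), w.2)) :=
    Computable.pair (Computable.pair (Computable.snd.comp Computable.fst)
      (Computable.snd.comp (Computable.fst.comp (Computable.fst.comp Computable.fst))))
      Computable.snd
  have b3 : ComputablePred fun w : (((ℕ × ℕ) × List ℕ) × ℕ) × ℕ =>
      UseR r Φ w.1.2 w.1.1.1.2 w.2 := p_comp (useR_pred hr hΦ) b3'
  have b4 : ComputablePred fun y : ((ℕ × ℕ) × List ℕ) × ℕ =>
      ∃ t ≤ y.1.1.2, ((t ≤ y.1.2.length ∧ y.1.2.take t = r y.1.1.2 t) ∧
        UseR r Φ y.2 y.1.1.2 t) :=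
    p_ex_le (p := fun (y : ((ℕ × ℕ) × List ℕ) × ℕ) t =>
      (t ≤ y.1.2.length ∧ y.1.2.take t = r y.1.1.2 t) ∧ UseR r Φ y.2 y.1.1.2 t)
      (Computable.snd.comp (Computable.fst.comp Computable.fst)) (p_and b2 b3)
  have b5 : ComputablePred fun x : (ℕ × ℕ) × List ℕ =>
      ∀ n ≤ x.1.1, ∃ t ≤ x.1.2, ((t ≤ x.2.length ∧ x.2.take t = r x.1.2 t) ∧
        UseR r Φ n x.1.2 t) :=
    p_all_le (p := fun (x : (ℕ × ℕ) × List ℕ) n => ∃ t ≤ x.1.2,
      ((t ≤ x.2.length ∧ x.2.take t = r x.1.2 t) ∧ UseR r Φ n x.1.2 t))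
      (Computable.fst.comp Computable.fst) b4
  exact p_and a1 (p_and a2 (p_and a3 b5))

/-- the search condition for the reduction of `C` to `M` -/
def Cond2 (Ψ : ℕ × ℕ → List ℕ) (i s : ℕ) (σ : List ℕ) : Prop :=
  i < s ∧ ∀ z ∈ Ψ (i, s), z < σ.length ∧ σ.getD z 1 = 0

theorem cond2_pred {Ψ : ℕ × ℕ → List ℕ} (hΨ : Computable Ψ) :
    ComputablePred fun x : (ℕ × ℕ) × List ℕ => Cond2 Ψ x.1.1 x.1.2 x.2 := by
  have a1 : ComputablePred fun x : (ℕ × ℕ) × List ℕ => x.1.1 < x.1.2 :=
    p_lt (Computable.fst.comp Computable.fst) (Computable.snd.comp Computable.fst)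
  have a2 : ComputablePred fun y : ((ℕ × ℕ) × List ℕ) × ℕ =>
      y.2 < y.1.2.length ∧ y.1.2.getD y.2 1 = 0 :=
    p_and (p_lt Computable.snd (c_length (Computable.snd.comp Computable.fst)))
      (p_eq (c_getD (Computable.snd.comp Computable.fst) Computable.snd) (Computable.const 0))
  have a3 : Computable (fun x : (ℕ × ℕ) × List ℕ => Ψ (x.1.1, x.1.2)) :=
    hΨ.comp (Computable.pair (Computable.fst.comp Computable.fst)
      (Computable.snd.comp Computable.fst))
  exact p_and a1 (p_all (p := fun (x : (ℕ × ℕ) × List ℕ) z =>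
    z < x.2.length ∧ x.2.getD z 1 = 0) a3 a2)

/-- `UseR` for the stage approximation of `C` -/
abbrev Use (c : ℕ → Option ℕ) (Φ : ℕ → List ℕ → Option ℕ) (n s t : ℕ) : Prop :=
  UseR (rs c) Φ n s t

/-- `OKR` for the stage approximation of `C` -/
abbrev OK (c : ℕ → Option ℕ) (Φ : ℕ → List ℕ → Option ℕ) (s n : ℕ) : Prop :=
  OKR c (rs c) Φ s n

variable {c : ℕ → Option ℕ} {Φ : ℕ → List ℕ → Option ℕ}

theorem ok_pred (hc : Computable c) (hΦ : Computable₂ Φ) :
    ComputablePred fun x : ℕ × ℕ => OK c Φ x.1 x.2 :=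
  okR_pred hc (res_chi_comp hc) hΦ

theorem chi_eq_of_agree {s s' u : ℕ} (h : ∀ i < u, chi c s i = chi c s' i) {t : ℕ} (ht : t ≤ u) :
    rs c s t = rs c s' t := by
  apply List.map_congr_left
  intro i hi
  exact h i (lt_of_lt_of_le (List.mem_range.1 hi) ht)

theorem Use.congr {n s s' t : ℕ} (h : Use c Φ n s t) (hs : s ≤ s')
    (ha : ∀ i < t, chi c s i = chi c s' i) : Use c Φ n s' t := by
  obtain ⟨h1, h2, h3⟩ := h
  have e : rs c s t = rs c s' t := chi_eq_of_agree ha le_rfl
  refine ⟨by rw [← e]; exact h1, fun t' ht' => ?_, by rw [← e]; omega⟩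
  rw [← chi_eq_of_agree ha ht'.le]
  exact h2 t' ht'

theorem chi_succ_of_ne {s i : ℕ} (h : c s ≠ some i) : chi c s i = chi c (s + 1) i := by
  classical
  unfold chi
  by_cases h1 : ∃ t < s, c t = some i
  · obtain ⟨t, ht, hti⟩ := h1
    rw [if_pos ⟨t, ht, hti⟩, if_pos ⟨t, by omega, hti⟩]
  · rw [if_neg h1, if_neg]
    rintro ⟨t, ht, hti⟩
    rcases Nat.lt_succ_iff_lt_or_eq.1 ht with ht | rfl
    · exact h1 ⟨t, ht, hti⟩
    · exact h hti

theorem charFn_agree {C : Set ℕ} (hC : ∀ i, i ∈ C ↔ ∃ s, c s = some i) (u : ℕ) :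
    ∃ s₀, ∀ s ≥ s₀, ∀ i < u, chi c s i = charFn C i := by
  classical
  induction u with
  | zero => exact ⟨0, fun s _ i hi => absurd hi (by omega)⟩
  | succ u ih =>
    obtain ⟨s₀, h⟩ := ih
    by_cases hu : u ∈ C
    · obtain ⟨t, ht⟩ := (hC u).1 hu
      refine ⟨max s₀ (t + 1), fun s hs i hi => ?_⟩
      rcases Nat.lt_succ_iff_lt_or_eq.1 hi with hi | rfl
      · exact h s (by omega) i hi
      · rw [charFn_nat, if_pos hu, chi, if_pos ⟨t, by omega, ht⟩]
    · refine ⟨s₀, fun s hs i hi => ?_⟩
      rcases Nat.lt_succ_iff_lt_or_eq.1 hi with hi | rfl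
      · exact h s (by omega) i hi
      · rw [charFn_nat, if_neg hu, chi, if_neg]
        rintro ⟨t, -, ht⟩
        exact hu ((hC i).2 ⟨t, ht⟩)

/-- if the approximation is correct at stage `s` below `u`, nothing below `u` is enumerated
later -/
theorem not_enum_of_agree {C : Set ℕ} (hC : ∀ i, i ∈ C ↔ ∃ s, c s = some i)
    (hinj : ∀ s t i, c s = some i → c t = some i → s = t) {s i : ℕ}
    (h : chi c s i = charFn C i) {t : ℕ} (ht : s ≤ t) : c t ≠ some i := by
  classical
  intro hc
  have hi : i ∈ C := (hC i).2 ⟨t, hc⟩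
  rw [charFn_nat, if_pos hi] at h
  unfold chi at h
  by_cases h1 : ∃ t' < s, c t' = some i
  · obtain ⟨t', ht', hc'⟩ := h1
    have := hinj _ _ _ hc hc'
    omega
  · rw [if_neg h1] at h
    exact absurd h (by simp)

theorem agree_later {C : Set ℕ} (hC : ∀ i, i ∈ C ↔ ∃ s, c s = some i)
    (hinj : ∀ s t i, c s = some i → c t = some i → s = t) {s i : ℕ}
    (h : chi c s i = charFn C i) {t : ℕ} (ht : s ≤ t) : chi c t i = charFn C i := by
  induction t, ht using Nat.le_induction with
  | base => exact h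
  | succ t ht ih =>
    rw [← chi_succ_of_ne (not_enum_of_agree hC hinj h ht)]
    exact ih

end Reduction

open Reduction in
/-- **Martin's theorem**: every c.e. set which computes a dominant function is Turing equivalent
to a maximal set. -/
theorem exists_maximal {C : Set ℕ} (hC : REPred (· ∈ C)) {f : ℕ → ℕ}
    (hf : TuringReducible (f : ℕ →. ℕ) (charFn C : ℕ →. ℕ)) (hdom : Dominant f) :
    ∃ M : Set ℕ, IsMaximal M ∧ deg M = deg C := by
  classical
  obtain ⟨c, hc, hinj, hCc⟩ := exists_enum hC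
  obtain ⟨Φ, hΦ, hmono, hspec⟩ := approx_of_reducible hf
  -- the true use
  have hf' : ∀ n, ∃ t, (Φ n (res (charFn C) t)).isSome = true := by
    intro n
    obtain ⟨t, ht⟩ := (hspec n (f n)).1 (Part.mem_some _)
    exact ⟨t, by rw [ht]; rfl⟩
  have hval : ∀ n t, (Φ n (res (charFn C) t)).isSome = true →
      Φ n (res (charFn C) t) = some (f n) := by
    intro n t h
    obtain ⟨y, hy⟩ := Option.isSome_iff_exists.1 h
    have h1 : y ∈ (f : ℕ →. ℕ) n := (hspec n y).2 ⟨t, hy⟩
    have : y = f n := Part.mem_some_iff.1 h1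
    rw [hy, this]
  -- permission function
  have hPex : ∀ s, ∃ n, n = s ∨ ¬ OK c Φ s n := fun s => ⟨s, Or.inl rfl⟩
  have hPcomp : ComputablePred fun x : ℕ × ℕ => x.2 = x.1 ∨ ¬ OK c Φ x.1 x.2 :=
    p_or (p_eq Computable.snd Computable.fst) (p_not (ok_pred hc hΦ))
  obtain ⟨p, hp, hpspec⟩ := exists_computable_choice
    (R := fun s n => n = s ∨ ¬ OK c Φ s n) hPcomp hPex
  have hp_le : ∀ s, p s ≤ s := by
    intro s
    by_contra hcon
    push Not at hcon
    exact (hpspec s).2 s hcon (Or.inl rfl)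
  have hp_lt : ∀ s n, n < p s → OK c Φ s n ∧ n < s := by
    intro s n hn
    have h := (hpspec s).2 n hn
    push Not at h
    exact ⟨h.2, lt_of_lt_of_le hn (hp_le s)⟩
  have hp_gt : ∀ s n, (∀ n' ≤ n, OK c Φ s n') → n < s → n < p s := by
    intro s n h hns
    by_contra hcon
    push Not at hcon
    rcases (hpspec s).1 with h1 | h1
    · omega
    · exact h1 (h _ hcon)
  -- correctness criterion for the computations
  have hOKof : ∀ s n t, t ≤ s → Use c Φ n s t → (∀ i < t, chi c s i = charFn C i) →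
      (∀ i ≤ n, chi c s i = charFn C i) → ∀ s' ≥ s, OK c Φ s' n := by
    intro s n t hts hUse hag hag' s' hs'
    have hag1 : ∀ i < t, chi c s i = chi c s' i := by
      intro i hi
      rw [hag i hi, agree_later hCc hinj (hag i hi) hs']
    refine ⟨t, by omega, Use.congr hUse hs' hag1, ?_⟩
    intro i hi
    have hci : c s' = some i := by
      rw [Option.mem_toList] at hi
      exact hi
    constructor
    · by_contra hlt
      push Not at hlt
      exact not_enum_of_agree hCc hinj (hag i hlt) hs' hci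
    · by_contra hlt
      push Not at hlt
      exact not_enum_of_agree hCc hinj (hag' i hlt) hs' hci
  -- every computation is eventually correct
  have hev : ∀ n, ∃ s₀, ∀ s ≥ s₀, ∃ t ≤ s, Use c Φ n s t ∧ (∀ i < t, chi c s i = charFn C i) ∧
      (∀ i ≤ n, chi c s i = charFn C i) ∧ t ≤ Nat.find (hf' n) := by
    intro n
    obtain ⟨s₀, h⟩ := charFn_agree hCc (max (Nat.find (hf' n)) (n + 1))
    refine ⟨max s₀ (max (Nat.find (hf' n)) (f n)), fun s hs => ⟨Nat.find (hf' n), by omega, ?_⟩⟩
    have hag : ∀ i < max (Nat.find (hf' n)) (n + 1), chi c s i = charFn C i := h s (by omega)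
    have e : ∀ t ≤ Nat.find (hf' n), rs c s t = res (charFn C) t := by
      intro t ht
      apply List.map_congr_left
      intro i hi
      rw [List.mem_range] at hi
      exact hag i (by omega)
    refine ⟨⟨?_, ?_, ?_⟩, fun i hi => hag i (by omega), fun i hi => hag i (by omega), le_rfl⟩
    · rw [e _ le_rfl]; exact Nat.find_spec (hf' n)
    · intro t' ht'
      rw [e _ ht'.le]
      have := Nat.find_min (hf' n) ht'
      simpa using this
    · rw [e _ le_rfl, hval n _ (Nat.find_spec (hf' n))]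
      simp only [Option.getD_some]
      omega
  have hev' : ∀ n, ∃ s₀, ∀ s ≥ s₀, ∀ n' ≤ n, ∃ t ≤ s, Use c Φ n' s t ∧
      (∀ i < t, chi c s i = charFn C i) ∧ (∀ i ≤ n', chi c s i = charFn C i) := by
    intro n
    induction n with
    | zero =>
      obtain ⟨s₀, h⟩ := hev 0
      refine ⟨s₀, fun s hs n' hn' => ?_⟩
      obtain ⟨t, ht, h1, h2, h3, -⟩ := h s hs
      have : n' = 0 := by omega
      subst this
      exact ⟨t, ht, h1, h2, h3⟩
    | succ n ih =>
      obtain ⟨s₀, h⟩ := ih
      obtain ⟨s₁, h'⟩ := hev (n + 1)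
      refine ⟨max s₀ s₁, fun s hs n' hn' => ?_⟩
      rcases Nat.le_succ_iff.1 hn' with hn' | rfl
      · exact h s (by omega) n' hn'
      · obtain ⟨t, ht, h1, h2, h3, -⟩ := h' s (by omega)
        exact ⟨t, ht, h1, h2, h3⟩
  have hfin : ∀ n, ∃ s₀, ∀ s ≥ s₀, n < p s := by
    intro n
    obtain ⟨s₀, h⟩ := hev' n
    refine ⟨max s₀ (n + 1), fun s hs => hp_gt s n ?_ (by omega)⟩
    intro n' hn'
    obtain ⟨t, ht, h1, h2, h3⟩ := h s (by omega) n' hn'
    exact hOKof s n' t ht h1 h2 h3 s le_rfl
  have hpc : ∀ s i, c s = some i → p s ≤ i := by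
    intro s i hsi
    by_contra hcon
    push Not at hcon
    obtain ⟨⟨t, ht, -, h⟩, -⟩ := hp_lt s i hcon
    exact absurd (h i (by rw [Option.mem_toList]; exact hsi)).2 (lt_irrefl _)
  have hdom' : ∀ g : ℕ → ℕ, Computable g → ∃ n₀, ∀ n ≥ n₀, ∃ t ≥ g n, p t ≤ n := by
    intro g hg
    have h1 := hdom (fun n => g n + 1) (Computable.succ.comp hg)
    obtain ⟨n₀, hn₀⟩ := Filter.eventually_atTop.1 h1
    refine ⟨n₀, fun n hn => ?_⟩
    by_contra hcon
    push Not at hcon
    have hok : ∀ t ≥ g n, OK c Φ t n := fun t ht => (hp_lt t n (hcon t ht)).1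
    obtain ⟨u, hu, hUse, hnot⟩ := hok (g n) le_rfl
    -- the computation at stage `g n` is preserved
    have key : ∀ t ≥ g n, (∀ i < u, chi c (g n) i = chi c t i) := by
      intro t ht
      induction t, ht using Nat.le_induction with
      | base => exact fun _ _ => rfl
      | succ t ht ih =>
        have hUse' : Use c Φ n t u := Use.congr hUse ht ih
        obtain ⟨u', hu', hUse'', hnot'⟩ := hok t ht
        have huu : u = u' := by
          rcases lt_trichotomy u u' with h | h | h
          · have := hUse''.2.1 u h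
            have h3 := hUse'.1
            rw [this] at h3
            exact absurd h3 (by simp)
          · exact h
          · have := hUse'.2.1 u' h
            have h3 := hUse''.1
            rw [this] at h3
            exact absurd h3 (by simp)
        subst huu
        intro i hi
        rw [ih i hi]
        apply chi_succ_of_ne
        intro hci
        have := (hnot' i (by rw [Option.mem_toList]; exact hci)).1
        omega
    obtain ⟨s₀, hs₀⟩ := charFn_agree hCc u
    have e : rs c (g n) u = res (charFn C) u := by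
      apply List.map_congr_left
      intro i hi
      rw [List.mem_range] at hi
      rw [key (max s₀ (g n)) (le_max_right _ _) i hi]
      exact hs₀ _ (le_max_left _ _) i hi
    have h2 := hUse.1
    have h3 := hUse.2.2
    rw [e] at h2 h3
    rw [hval n u h2] at h3
    simp only [Option.getD_some] at h3
    have h4 := hn₀ n hn
    omega
  obtain ⟨M, hMre, hMinf, hMmax, ⟨Θ, hΘ, hΘspec⟩, ⟨Ψ, hΨ, hΨ1, hΨ2⟩⟩ :=
    martin_core p c hp hc hfin hinj hpc hdom'
  refine ⟨M, ⟨hMre, hMinf, hMmax⟩, ?_⟩
  rw [deg_eq_iff]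
  constructor
  · -- `M ≤ C`
    refine reducible_of_search (charFn C) (charFn M)
      (Cond1 (rs c) (chi c) Φ)
      (cond1_pred (res_chi_comp hc) (chi_comp hc) hΦ)
      (fun z s => if Θ (z, s) = true then 1 else 0) ?_ ?_ ?_
    · exact c_ite (p_bool hΘ) (Computable.const 1) (Computable.const 0)
    · rintro z s u ⟨h1, h2, h3, h4⟩
      rw [res_length] at h2
      have hag : ∀ i ≤ z, chi c s i = charFn C i := by
        intro i hi
        have := h3 i hi
        rw [res_getD _ (by omega)] at this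
        exact this.symm
      have hpz : ∀ t ≥ s, z < p t := by
        intro t ht
        refine hp_gt t z ?_ (by omega)
        intro n hn
        obtain ⟨t', ht's, ⟨hlen, htake⟩, hUse⟩ := h4 n hn
        rw [res_length] at hlen
        rw [res_take _ hlen] at htake
        refine hOKof s n t' ht's hUse ?_ (fun i hi => hag i (by omega)) t ht
        intro i hi
        have := congrArg (fun l => l.getD i 0) htake
        simp only [res_getD _ hi] at this
        rw [rs, res_getD _ hi] at this
        exact this.symm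
      rw [charFn_nat]
      have := hΘspec z s h1 hpz
      by_cases hz : z ∈ M
      · rw [if_pos hz, if_pos (this.1 hz)]
      · rw [if_neg hz, if_neg (fun hcon => hz (this.2 hcon))]
    · intro z
      obtain ⟨s₀, h⟩ := hev' z
      set s := max s₀ (z + 1) with hs
      refine ⟨s, s + z + 1, by omega, by rw [res_length]; omega, ?_, ?_⟩
      · intro i hi
        rw [res_getD _ (by omega)]
        obtain ⟨t, ht, -, -, h3⟩ := h s (by omega) z le_rfl
        exact (h3 i hi).symm
      · intro n hn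
        obtain ⟨t, ht, h1, h2, h3⟩ := h s (by omega) n hn
        refine ⟨t, ht, ⟨by rw [res_length]; omega, ?_⟩, h1⟩
        rw [res_take _ (by omega)]
        apply List.map_congr_left
        intro i hi
        rw [List.mem_range] at hi
        exact (h2 i hi).symm
  · -- `C ≤ M`
    refine reducible_of_search (charFn M) (charFn C) (Cond2 Ψ) (cond2_pred hΨ)
      (fun i s => chi c (s + 1) i) ?_ ?_ ?_
    · exact (chi_comp hc).comp (Computable.pair (Computable.succ.comp Computable.snd)
        Computable.fst)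
    · rintro i s t ⟨h1, h2⟩
      have hM : ∀ z ∈ Ψ (i, s), z ∉ M := by
        intro z hz
        obtain ⟨h3, h4⟩ := h2 z hz
        rw [res_length] at h3
        rw [res_getD _ h3] at h4
        exact (charFn_eq_zero_iff M z).1 h4
      have hno := hΨ2 i s h1 hM
      rw [charFn_nat, chi]
      by_cases hi : i ∈ C
      · obtain ⟨t', ht'⟩ := (hCc i).1 hi
        have : t' < s + 1 := by
          by_contra hcon
          exact hno t' (by omega) ht'
        rw [if_pos hi, if_pos ⟨t', this, ht'⟩]
      · rw [if_neg hi, if_neg]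
        rintro ⟨t', -, ht'⟩
        exact hi ((hCc i).2 ⟨t', ht'⟩)
    · intro i
      obtain ⟨s, hs, h⟩ := hΨ1 i
      have hmax : ∃ t, ∀ z ∈ Ψ (i, s), z < t := by
        generalize Ψ (i, s) = l
        induction l with
        | nil => exact ⟨0, by simp⟩
        | cons a l ih =>
          obtain ⟨t, ht⟩ := ih
          refine ⟨max t (a + 1), ?_⟩
          intro z hz
          rcases List.mem_cons.1 hz with rfl | hz
          · omega
          · have := ht z hz; omega
      obtain ⟨t, ht⟩ := hmax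
      refine ⟨s, t, hs, fun z hz => ⟨by rw [res_length]; exact ht z hz, ?_⟩⟩
      rw [res_getD _ (ht z hz)]
      exact (charFn_eq_zero_iff M z).2 (h z hz)

end Pool.Agent.Lib.MP_3eaa21_lc
end

section

/-! The determination of `D`. -/

namespace Pool.Agent.Lib.MP_3eaa21_lc

open Encodable Set

/-- `D` is the set of c.e. degrees which compute a dominant function. -/
theorem D_eq_dominant : D = {d | ∃ C : Set ℕ, REPred (· ∈ C) ∧ deg C = d ∧
    ∃ f : ℕ → ℕ, TuringReducible (f : ℕ →. ℕ) (charFn C : ℕ →. ℕ) ∧ Dominant f} := by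
  ext d
  constructor
  · rintro ⟨P, hfin, hnc, rfl⟩
    obtain ⟨C, hC, hdeg⟩ := ext_ce_degree P.2
    obtain ⟨f, hf, hdom⟩ := exists_dominant P hfin hnc
    refine ⟨C, hC, hdeg, f, ?_, hdom⟩
    exact hf.trans ((deg_eq_iff _ _).1 hdeg).2
  · rintro ⟨C, hC, rfl, f, hf, hdom⟩
    obtain ⟨M, hM, hdeg⟩ := exists_maximal hC hf hdom
    rw [← hdeg]
    exact deg_maximal_mem_D hM

/-- for c.e. sets: `C' ≡ 0''` iff `C` computes a dominant function -/
theorem high_ce {C : Set ℕ} (hC : REPred (· ∈ C)) :
    deg (jump (charFn C)) = deg (jump (charFn (jump (charFn (∅ : Set ℕ))))) ↔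
      ∃ f : ℕ → ℕ, TuringReducible (f : ℕ →. ℕ) (charFn C : ℕ →. ℕ) ∧ Dominant f := by
  rw [deg_eq_iff, ← high_iff_dominant]
  refine ⟨fun h => h.2, fun h => ⟨jump_mono (re_le_jump C hC), h⟩⟩

/-- `D` is the set of high c.e. degrees. -/
theorem D_eq_high : D = {d | ∃ C : Set ℕ, REPred (· ∈ C) ∧ deg C = d ∧ IsHigh C} := by
  rw [D_eq_dominant]
  ext d
  constructor
  · rintro ⟨C, hC, hd, hf⟩
    exact ⟨C, hC, hd, (high_ce hC).2 hf⟩
  · rintro ⟨C, hC, hd, hf⟩
    exact ⟨C, hC, hd, (high_ce hC).1 hf⟩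

end Pool.Agent.Lib.MP_3eaa21_lc
end
end
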