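import Pool.Agent.Lib.MP_3eaa21_lc.Defs

/-! Finite approximation characterisation of Turing reducibility to a total function. -/

namespace Pool.Agent.Lib.MP_3eaa21_lc

open Encodable

@[simp] theorem res_length (A : ℕ → ℕ) (t : ℕ) : (res A t).length = t := by simp [res]

theorem res_succ (A : ℕ → ℕ) (t : ℕ) : res A (t + 1) = res A t ++ [A t] := by
  simp [res, List.range_succ]

theorem res_prefix (A : ℕ → ℕ) {t u : ℕ} (h : t ≤ u) : res A t <+: res A u := by
  induction u, h using Nat.le_induction with
  | base => exact List.prefix_rfl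
  | succ u _ ih => rw [res_succ]; exact ih.trans (List.prefix_append _ _)

theorem res_get? (A : ℕ → ℕ) (t n : ℕ) : (res A t)[n]? = if n < t then some (A n) else none := by
  by_cases h : n < t <;> simp [res, h]

section upper

variable {A : ℕ → ℕ}

/-- total functions recursive in `A` -/
def RA (A : ℕ → ℕ) (f : ℕ → ℕ) : Prop := Nat.RecursiveIn {(A : ℕ →. ℕ)} (f : ℕ →. ℕ)

theorem RA.of_computable {f : ℕ → ℕ} (hf : Computable f) : RA A f :=
  Nat.Partrec.recursiveIn (Partrec.nat_iff.1 hf)

theorem RA.oracle : RA A A := Nat.RecursiveIn.oracle _ (by simp)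

theorem RA.of_eq {f g : ℕ → ℕ} (hf : RA A f) (h : ∀ n, f n = g n) : RA A g := by
  have : f = g := funext h
  exact this ▸ hf

theorem RA.comp {f g : ℕ → ℕ} (hf : RA A f) (hg : RA A g) : RA A (fun n => f (g n)) := by
  refine Nat.RecursiveIn.of_eq (Nat.RecursiveIn.comp hf hg) ?_
  intro n
  exact Part.bind_some (g n) (f : ℕ →. ℕ)

theorem RA.pair {f g : ℕ → ℕ} (hf : RA A f) (hg : RA A g) :
    RA A (fun n => Nat.pair (f n) (g n)) := by
  refine Nat.RecursiveIn.of_eq (Nat.RecursiveIn.pair hf hg) ?_
  intro n
  simp [Seq.seq]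

theorem RA.prec {f h : ℕ → ℕ} (hf : RA A f) (hh : RA A h) :
    RA A (fun p => Nat.rec (f p.unpair.1) (fun y ih => h (Nat.pair p.unpair.1 (Nat.pair y ih)))
      p.unpair.2) := by
  refine Nat.RecursiveIn.of_eq (Nat.RecursiveIn.prec hf hh) ?_
  intro p
  simp only [PFun.coe_val]
  generalize p.unpair.2 = n
  induction n with
  | zero => rfl
  | succ n ih =>
    simp only [ih]
    exact Part.bind_some _ _

/-- the initial segments of `A` are computable in `A` -/
theorem RA.res : RA A (fun t => encode (res A t)) := by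
  have hH : Computable (fun m : ℕ =>
      encode ((Denumerable.ofNat (List ℕ) m.unpair.1) ++ [m.unpair.2])) :=
    Computable.encode.comp (Computable.list_concat.comp
      ((Computable.ofNat (List ℕ)).comp (Computable.fst.comp Computable.unpair))
      (Computable.snd.comp Computable.unpair))
  have h1 : RA A (fun m => m.unpair.2.unpair.2) :=
    RA.of_computable (Computable.snd.comp (Computable.unpair.comp
      (Computable.snd.comp Computable.unpair)))
  have h2 : RA A (fun m => m.unpair.2.unpair.1) :=
    RA.of_computable (Computable.fst.comp (Computable.unpair.comp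
      (Computable.snd.comp Computable.unpair)))
  have hh := (RA.of_computable (A := A) hH).comp (h1.pair (RA.oracle.comp h2))
  have h0 : RA A (fun _ => encode ([] : List ℕ)) := RA.of_computable (Computable.const _)
  have h3 := (RA.prec h0 hh).comp
    (RA.of_computable (A := A) (f := fun t => Nat.pair 0 t)
      (Primrec₂.natPair.to_comp.comp (Computable.const 0) Computable.id))
  refine h3.of_eq ?_
  intro t
  simp only [Nat.unpair_pair]
  induction t with
  | zero => simp [MP_3eaa21_lc.res]
  | succ t ih => simp only [ih, res_succ, Denumerable.ofNat_encode]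

theorem recursiveIn_singleton_iff {f : ℕ → ℕ} :
    TuringReducible (f : ℕ →. ℕ) (A : ℕ →. ℕ) ↔ RA A f := RecursiveIn.iff_nat

/-- **Upper bound.** A function with a computable finite approximation from `A` is computable
in `A`. -/
theorem reducible_of_approx (A F : ℕ → ℕ) (Φ : ℕ × List ℕ → Option ℕ) (hΦ : Computable Φ)
    (h1 : ∀ n t y, Φ (n, res A t) = some y → y = F n)
    (h2 : ∀ n, ∃ t, (Φ (n, res A t)).isSome) :
    TuringReducible (F : ℕ →. ℕ) (A : ℕ →. ℕ) := by
  rw [recursiveIn_singleton_iff]
  -- the test function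
  have hT : Computable (fun m : ℕ =>
      (Φ (m.unpair.1, Denumerable.ofNat (List ℕ) m.unpair.2)).casesOn (motive := fun _ => ℕ)
        1 (fun _ => 0)) :=
    Computable.option_casesOn (hΦ.comp (Computable.pair (Computable.fst.comp Computable.unpair)
      ((Computable.ofNat (List ℕ)).comp (Computable.snd.comp Computable.unpair))))
      (Computable.const 1) (Computable.const 0).to₂
  have hV : Computable (fun m : ℕ =>
      (Φ (m.unpair.1, Denumerable.ofNat (List ℕ) m.unpair.2)).getD 0) :=
    Computable.option_getD (hΦ.comp (Computable.pair (Computable.fst.comp Computable.unpair)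
      ((Computable.ofNat (List ℕ)).comp (Computable.snd.comp Computable.unpair))))
      (Computable.const 0)
  have hfst : RA A (fun m => m.unpair.1) := RA.of_computable (Computable.fst.comp Computable.unpair)
  have hsnd : RA A (fun m => m.unpair.2) := RA.of_computable (Computable.snd.comp Computable.unpair)
  have hT' := (RA.of_computable (A := A) hT).comp (hfst.pair (RA.res.comp hsnd))
  have hr : Nat.RecursiveIn {(A : ℕ →. ℕ)} (fun a => Nat.rfind fun n =>
      (fun m => m = 0) <$> (Part.some ((fun m : ℕ =>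
        (Φ (m.unpair.1, Denumerable.ofNat (List ℕ) m.unpair.2)).casesOn (motive := fun _ => ℕ)
        1 (fun _ => 0)) (Nat.pair (Nat.pair a n).unpair.1 (encode (MP_3eaa21_lc.res A (Nat.pair a n).unpair.2)))) : Part ℕ)) :=
    Nat.RecursiveIn.rfind hT'
  have hex : ∀ n, ∃ t, (Φ (n, MP_3eaa21_lc.res A t)).isSome := h2
  classical
  have hr' : RA A (fun n => Nat.find (hex n)) := by
    refine Nat.RecursiveIn.of_eq hr ?_
    intro n
    refine Part.eq_some_iff.2 ?_
    refine Nat.mem_rfind.2 ⟨?_, ?_⟩
    · have := Nat.find_spec (hex n)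
      obtain ⟨y, hy⟩ := Option.isSome_iff_exists.1 this
      simp [hy]
    · intro m hm
      have := Nat.find_min (hex n) hm
      have hn : Φ (n, MP_3eaa21_lc.res A m) = none := by simpa using this
      simp [hn]
  have hfin := (RA.of_computable (A := A) hV).comp
    ((RA.of_computable (A := A) (f := fun n => n) Computable.id).pair (RA.res.comp hr'))
  refine hfin.of_eq ?_
  intro n
  obtain ⟨y, hy⟩ := Option.isSome_iff_exists.1 (Nat.find_spec (hex n))
  simp only [Nat.unpair_pair, Denumerable.ofNat_encode, hy, Option.getD_some]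
  exact h1 _ _ _ hy

end upper

section lower

/-- `φ` has a computable monotone finite approximation from `A`. -/
def Approx (A : ℕ → ℕ) (φ : ℕ →. ℕ) : Prop :=
  ∃ Φ : ℕ → List ℕ → Option ℕ, Computable₂ Φ ∧
    (∀ n σ τ y, σ <+: τ → Φ n σ = some y → Φ n τ = some y) ∧
    ∀ n y, y ∈ φ n ↔ ∃ t, Φ n (res A t) = some y

theorem Approx.of_computable (A : ℕ → ℕ) {f : ℕ → ℕ} (hf : Computable f) : Approx A f := by
  refine ⟨fun n _ => some (f n), Computable.option_some.comp (hf.comp Computable.fst), ?_, ?_⟩
  · intro n σ τ y _ h; exact h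
  · intro n y
    simp [eq_comm]

theorem Approx.oracle (A : ℕ → ℕ) : Approx A (A : ℕ →. ℕ) := by
  refine ⟨fun n σ => σ[n]?, Computable.list_getElem?.comp Computable.snd Computable.fst, ?_, ?_⟩
  · intro n σ τ y hστ h
    obtain ⟨ρ, rfl⟩ := hστ
    simp only at h ⊢
    have hn : n < σ.length := by
      by_contra hc
      rw [List.getElem?_eq_none (by omega)] at h
      exact absurd h (by simp)
    rw [List.getElem?_append_left hn]
    exact h
  · intro n y
    simp only
    constructor
    · intro h
      refine ⟨n + 1, ?_⟩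
      rw [res_get?]
      have : y = A n := by simpa using h
      simp [this]
    · rintro ⟨t, ht⟩
      rw [res_get?] at ht
      by_cases hn : n < t
      · simp [hn] at ht; simp [ht]
      · simp [hn] at ht

theorem mono_res {A : ℕ → ℕ} {Φ : ℕ → List ℕ → Option ℕ}
    (hm : ∀ n σ τ y, σ <+: τ → Φ n σ = some y → Φ n τ = some y) {n t u y : ℕ} (h : t ≤ u)
    (ht : Φ n (res A t) = some y) : Φ n (res A u) = some y := hm _ _ _ _ (res_prefix A h) ht

theorem Approx.pair {A : ℕ → ℕ} {f g : ℕ →. ℕ} (hf : Approx A f) (hg : Approx A g) :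
    Approx A (fun n => Nat.pair <$> f n <*> g n) := by
  obtain ⟨F, hF, mF, sF⟩ := hf
  obtain ⟨G, hG, mG, sG⟩ := hg
  refine ⟨fun n σ => (F n σ).bind fun a => (G n σ).map fun b => Nat.pair a b, ?_, ?_, ?_⟩
  · refine Computable.option_bind hF ?_
    refine Computable.option_map (hG.comp (Computable.fst.comp Computable.fst)
      (Computable.snd.comp Computable.fst)) ?_
    exact Primrec₂.natPair.to_comp.comp (Computable.snd.comp Computable.fst) Computable.snd
  · intro n σ τ y hστ h
    simp only [Option.bind_eq_some_iff, Option.map_eq_some_iff] at h ⊢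
    obtain ⟨a, ha, b, hb, rfl⟩ := h
    exact ⟨a, mF _ _ _ _ hστ ha, b, mG _ _ _ _ hστ hb, rfl⟩
  · intro n y
    simp only [Option.bind_eq_some_iff, Option.map_eq_some_iff]
    constructor
    · intro h
      have h' : ∃ a ∈ f n, ∃ b ∈ g n, Nat.pair a b = y := by
        simpa [Seq.seq, Part.mem_bind_iff] using h
      obtain ⟨a, ha, b, hb, rfl⟩ := h'
      obtain ⟨t, ht⟩ := (sF _ _).1 ha
      obtain ⟨u, hu⟩ := (sG _ _).1 hb
      exact ⟨max t u, a, mono_res mF (le_max_left _ _) ht, b, mono_res mG (le_max_right _ _) hu, rfl⟩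
    · rintro ⟨t, a, ha, b, hb, rfl⟩
      have h1 := (sF _ _).2 ⟨t, ha⟩
      have h2 := (sG _ _).2 ⟨t, hb⟩
      have h' : ∃ a' ∈ f n, ∃ b' ∈ g n, Nat.pair a' b' = Nat.pair a b := ⟨a, h1, b, h2, rfl⟩
      simpa [Seq.seq, Part.mem_bind_iff] using h'

theorem Approx.comp {A : ℕ → ℕ} {f g : ℕ →. ℕ} (hf : Approx A f) (hg : Approx A g) :
    Approx A (fun n => g n >>= f) := by
  obtain ⟨F, hF, mF, sF⟩ := hf
  obtain ⟨G, hG, mG, sG⟩ := hg
  refine ⟨fun n σ => (G n σ).bind fun a => F a σ, ?_, ?_, ?_⟩
  · refine Computable.option_bind hG ?_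
    exact hF.comp Computable.snd (Computable.snd.comp Computable.fst)
  · intro n σ τ y hστ h
    simp only [Option.bind_eq_some_iff] at h ⊢
    obtain ⟨a, ha, hb⟩ := h
    exact ⟨a, mG _ _ _ _ hστ ha, mF _ _ _ _ hστ hb⟩
  · intro n y
    simp only [Option.bind_eq_some_iff]
    constructor
    · intro h
      obtain ⟨a, ha, hb⟩ := Part.mem_bind_iff.1 h
      obtain ⟨t, ht⟩ := (sG _ _).1 ha
      obtain ⟨u, hu⟩ := (sF _ _).1 hb
      exact ⟨max t u, a, mono_res mG (le_max_left _ _) ht, mono_res mF (le_max_right _ _) hu⟩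
    · rintro ⟨t, a, ha, hb⟩
      exact Part.mem_bind_iff.2 ⟨a, (sG _ _).2 ⟨t, ha⟩, (sF _ _).2 ⟨t, hb⟩⟩

theorem Approx.prec {A : ℕ → ℕ} {f h : ℕ →. ℕ} (hf : Approx A f) (hh : Approx A h) :
    Approx A (fun p =>
        let (a, n) := Nat.unpair p
        n.rec (f a) fun y IH => do
          let i ← IH
          h (Nat.pair a (Nat.pair y i))) := by
  obtain ⟨F, hF, mF, sF⟩ := hf
  obtain ⟨H, hH, mH, sH⟩ := hh
  refine ⟨fun p σ => Nat.rec (motive := fun _ => Option ℕ) (F p.unpair.1 σ) (fun y IH => IH.bind fun i =>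
    H (Nat.pair p.unpair.1 (Nat.pair y i)) σ) p.unpair.2, ?_, ?_, ?_⟩
  · have h1 : Computable₂ (fun (x : ℕ × List ℕ) (q : ℕ × Option ℕ) =>
        q.2.bind fun i => H (Nat.pair x.1.unpair.1 (Nat.pair q.1 i)) x.2) := by
      refine Computable.option_bind (Computable.snd.comp Computable.snd) ?_
      have e1 : Computable (fun z : ((ℕ × List ℕ) × (ℕ × Option ℕ)) × ℕ => z.1.1.1.unpair.1) :=
        Computable.fst.comp (Computable.unpair.comp
          (Computable.fst.comp (Computable.fst.comp Computable.fst)))
      have e2 : Computable (fun z : ((ℕ × List ℕ) × (ℕ × Option ℕ)) × ℕ => z.1.2.1) :=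
        Computable.fst.comp (Computable.snd.comp Computable.fst)
      have e3 : Computable (fun z : ((ℕ × List ℕ) × (ℕ × Option ℕ)) × ℕ => z.1.1.2) :=
        Computable.snd.comp (Computable.fst.comp Computable.fst)
      exact hH.comp (Primrec₂.natPair.to_comp.comp e1
        (Primrec₂.natPair.to_comp.comp e2 Computable.snd)) e3
    have h2 : Computable (fun x : ℕ × List ℕ => F x.1.unpair.1 x.2) :=
      hF.comp (Computable.fst.comp (Computable.unpair.comp Computable.fst)) Computable.snd
    have h3 : Computable (fun x : ℕ × List ℕ => x.1.unpair.2) :=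
      Computable.snd.comp (Computable.unpair.comp Computable.fst)
    have h4 := Computable.nat_rec h3 h2 h1
    exact h4.of_eq (fun x => rfl)
  · intro p σ τ y hστ
    simp only
    generalize p.unpair.2 = n
    induction n generalizing y with
    | zero => exact mF _ _ _ _ hστ
    | succ n ih =>
      intro h
      simp only [Option.bind_eq_some_iff] at h ⊢
      obtain ⟨a, ha, hb⟩ := h
      exact ⟨a, ih _ ha, mH _ _ _ _ hστ hb⟩
  · intro p y
    simp only
    generalize p.unpair.2 = n
    have mono : ∀ (n t u y : ℕ), t ≤ u → (Nat.rec (motive := fun _ => Option ℕ)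
        (F p.unpair.1 (res A t)) (fun y IH => IH.bind fun i =>
        H (Nat.pair p.unpair.1 (Nat.pair y i)) (res A t)) n) = some y →
        (Nat.rec (motive := fun _ => Option ℕ)
        (F p.unpair.1 (res A u)) (fun y IH => IH.bind fun i =>
        H (Nat.pair p.unpair.1 (Nat.pair y i)) (res A u)) n) = some y := by
      intro n t u y htu
      induction n generalizing y with
      | zero => exact mono_res mF htu
      | succ n ih =>
        intro h
        simp only [Option.bind_eq_some_iff] at h ⊢
        obtain ⟨a, ha, hb⟩ := h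
        exact ⟨a, ih _ ha, mono_res mH htu hb⟩
    induction n generalizing y with
    | zero => exact sF _ _
    | succ n ih =>
      simp only [Option.bind_eq_some_iff]
      constructor
      · intro h
        obtain ⟨a, ha, hb⟩ := Part.mem_bind_iff.1 h
        obtain ⟨t, ht⟩ := (ih _).1 ha
        obtain ⟨u, hu⟩ := (sH _ _).1 hb
        exact ⟨max t u, a, mono _ _ _ _ (le_max_left _ _) ht, mono_res mH (le_max_right _ _) hu⟩
      · rintro ⟨t, a, ha, hb⟩
        exact Part.mem_bind_iff.2 ⟨a, (ih _).2 ⟨t, ha⟩, (sH _ _).2 ⟨t, hb⟩⟩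

/-- auxiliary search state: `none` failed, `some 0` still searching, `some (n+1)` found `n` -/
def srch (G : ℕ → Option ℕ) (k : ℕ) : Option ℕ :=
  Nat.rec (motive := fun _ => Option ℕ) (some 0) (fun k r => r.bind fun q =>
    if q = 0 then (G k).map fun v => if v = 0 then k + 1 else 0 else some q) k

theorem srch_zero (G : ℕ → Option ℕ) : srch G 0 = some 0 := rfl

theorem srch_succ (G : ℕ → Option ℕ) (k : ℕ) : srch G (k + 1) = (srch G k).bind fun q =>
    if q = 0 then (G k).map fun v => if v = 0 then k + 1 else 0 else some q := rfl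

theorem srch_eq_zero (G : ℕ → Option ℕ) (k : ℕ) :
    srch G k = some 0 ↔ ∀ m < k, ∃ v, v ≠ 0 ∧ G m = some v := by
  induction k with
  | zero => simp [srch_zero]
  | succ k ih =>
    rw [srch_succ]
    simp only [Option.bind_eq_some_iff]
    constructor
    · rintro ⟨q, hq, h⟩ m hm
      by_cases hq0 : q = 0
      · subst hq0
        simp only [if_true, Option.map_eq_some_iff] at h
        obtain ⟨v, hv, hv'⟩ := h
        have hv0 : v ≠ 0 := by rintro rfl; simp at hv'
        rcases Nat.lt_succ_iff_lt_or_eq.1 hm with hm | rfl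
        · exact (ih.1 hq) m hm
        · exact ⟨v, hv0, hv⟩
      · simp [hq0] at h
    · intro h
      refine ⟨0, ih.2 fun m hm => h m (by omega), ?_⟩
      obtain ⟨v, hv0, hv⟩ := h k (by omega)
      simp [hv, hv0]

theorem srch_eq_succ (G : ℕ → Option ℕ) (k n : ℕ) :
    srch G k = some (n + 1) ↔ n < k ∧ G n = some 0 ∧ ∀ m < n, ∃ v, v ≠ 0 ∧ G m = some v := by
  induction k with
  | zero => simp [srch_zero]
  | succ k ih =>
    rw [srch_succ]
    simp only [Option.bind_eq_some_iff]
    constructor
    · rintro ⟨q, hq, h⟩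
      by_cases hq0 : q = 0
      · subst hq0
        simp only [if_true, Option.map_eq_some_iff] at h
        obtain ⟨v, hv, hv'⟩ := h
        by_cases hv0 : v = 0
        · subst hv0
          simp only [if_true] at hv'
          have : n = k := by omega
          subst this
          exact ⟨by omega, hv, (srch_eq_zero G n).1 hq⟩
        · simp [hv0] at hv'
      · simp only [hq0, if_false, Option.some.injEq] at h
        subst h
        obtain ⟨h1, h2⟩ := ih.1 hq
        exact ⟨by omega, h2⟩
    · rintro ⟨h1, h2, h3⟩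
      rcases Nat.lt_succ_iff_lt_or_eq.1 h1 with h1 | rfl
      · exact ⟨n + 1, ih.2 ⟨h1, h2, h3⟩, by simp⟩
      · exact ⟨0, (srch_eq_zero G n).2 h3, by simp [h2]⟩

theorem Approx.rfind {A : ℕ → ℕ} {f : ℕ →. ℕ} (hf : Approx A f) :
    Approx A (fun a => Nat.rfind fun n => (fun m => m = 0) <$> f (Nat.pair a n)) := by
  obtain ⟨F, hF, mF, sF⟩ := hf
  refine ⟨fun a σ => (srch (fun k => F (Nat.pair a k) σ) σ.length).bind fun q =>
    if q = 0 then none else some (q - 1), ?_, ?_, ?_⟩
  · have e : Computable₂ (fun (a : ℕ) (σ : List ℕ) =>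
        srch (fun k => F (Nat.pair a k) σ) σ.length) := by
      have e1 : Computable (fun z : ((ℕ × List ℕ) × (ℕ × Option ℕ)) × ℕ =>
          F (Nat.pair z.1.1.1 z.1.2.1) z.1.1.2) :=
        hF.comp (Primrec₂.natPair.to_comp.comp
          (Computable.fst.comp (Computable.fst.comp Computable.fst))
          (Computable.fst.comp (Computable.snd.comp Computable.fst)))
          (Computable.snd.comp (Computable.fst.comp Computable.fst))
      have e2 : Computable₂ (fun (z : ((ℕ × List ℕ) × (ℕ × Option ℕ)) × ℕ) (v : ℕ) =>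
          if v = 0 then z.1.2.1 + 1 else 0) :=
        c_ite (p_eq Computable.snd (Computable.const 0))
          (Computable.succ.comp (Computable.fst.comp (Computable.snd.comp
            (Computable.fst.comp Computable.fst)))) (Computable.const 0)
      have e3 : Computable₂ (fun (x : ℕ × List ℕ) (y : ℕ × Option ℕ) => y.2.bind fun q =>
          if q = 0 then (F (Nat.pair x.1 y.1) x.2).map fun v => if v = 0 then y.1 + 1 else 0
          else some q) := by
        refine Computable.option_bind (Computable.snd.comp Computable.snd) ?_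
        exact c_ite (p_eq Computable.snd (Computable.const 0)) (Computable.option_map e1 e2)
          (Computable.option_some.comp Computable.snd)
      exact Computable.nat_rec (Computable.list_length.comp Computable.snd)
        (Computable.const (some 0)) e3
    refine Computable.option_bind e ?_
    exact c_ite (p_eq Computable.snd (Computable.const 0)) (Computable.const none)
      (Computable.option_some.comp (Computable.pred.comp Computable.snd))
  · intro a σ τ y hστ h
    simp only [Option.bind_eq_some_iff] at h ⊢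
    obtain ⟨q, hq, h⟩ := h
    rcases q with _ | q
    · simp at h
    · refine ⟨q + 1, ?_, h⟩
      rw [srch_eq_succ] at hq ⊢
      obtain ⟨h1, h2, h3⟩ := hq
      refine ⟨lt_of_lt_of_le h1 hστ.length_le, mF _ _ _ _ hστ h2, ?_⟩
      intro m hm
      obtain ⟨v, hv, hv'⟩ := h3 m hm
      exact ⟨v, hv, mF _ _ _ _ hστ hv'⟩
  · intro a y
    simp only [Option.bind_eq_some_iff]
    refine Nat.mem_rfind.trans ?_
    constructor
    · rintro ⟨h1, h2⟩
      have h1' : 0 ∈ f (Nat.pair a y) := by
        have h1' : ∃ v ∈ f (Nat.pair a y), v = 0 := by simpa using h1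
        obtain ⟨v, hv, rfl⟩ := h1'
        exact hv
      have h2' : ∀ m < y, ∃ v ∈ f (Nat.pair a m), v ≠ 0 := by
        intro m hm
        have := h2 hm
        simpa using this
      obtain ⟨t, ht⟩ := (sF _ _).1 h1'
      have h3 : ∀ m < y, ∃ v u, v ≠ 0 ∧ F (Nat.pair a m) (res A u) = some v := by
        intro m hm
        obtain ⟨v, hv, hv0⟩ := h2' m hm
        obtain ⟨u, hu⟩ := (sF _ _).1 hv
        exact ⟨v, u, hv0, hu⟩
      have h4 : ∀ z ≤ y, ∃ u, ∀ m < z, ∃ v, v ≠ 0 ∧ F (Nat.pair a m) (res A u) = some v := by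
        intro z
        induction z with
        | zero => intro _; exact ⟨0, fun m hm => absurd hm (by omega)⟩
        | succ z ih =>
          intro hz
          obtain ⟨u, hu⟩ := ih (by omega)
          obtain ⟨v, u', hv0, hv⟩ := h3 z (by omega)
          refine ⟨max u u', fun m hm => ?_⟩
          rcases Nat.lt_succ_iff_lt_or_eq.1 hm with hm | rfl
          · obtain ⟨w, hw0, hw⟩ := hu m hm
            exact ⟨w, hw0, mono_res mF (le_max_left _ _) hw⟩
          · exact ⟨v, hv0, mono_res mF (le_max_right _ _) hv⟩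
      obtain ⟨u, hu⟩ := h4 y le_rfl
      refine ⟨max (max t u) (y + 1), y + 1, ?_, by simp⟩
      rw [srch_eq_succ]
      refine ⟨by simp only [res_length]; omega, mono_res mF (by omega) ht, ?_⟩
      intro m hm
      obtain ⟨v, hv0, hv⟩ := hu m hm
      exact ⟨v, hv0, mono_res mF (by omega) hv⟩
    · rintro ⟨t, q, hq, h⟩
      rcases q with _ | q
      · simp at h
      · simp only [Nat.add_eq_zero_iff, one_ne_zero, and_false, if_false, Nat.add_sub_cancel,
          Option.some.injEq] at h
        subst h
        rw [srch_eq_succ] at hq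
        obtain ⟨h1, h2, h3⟩ := hq
        have h2' := (sF _ _).2 ⟨t, h2⟩
        refine ⟨by simpa using h2', ?_⟩
        intro m hm
        obtain ⟨v, hv0, hv⟩ := h3 m hm
        have := (sF _ _).2 ⟨t, hv⟩
        have h5 : ∃ v ∈ f (Nat.pair a m), v ≠ 0 := ⟨v, this, hv0⟩
        simpa using h5

/-- **Normal form.** -/
theorem approx_of_reducible {A : ℕ → ℕ} {φ : ℕ →. ℕ} (h : TuringReducible φ (A : ℕ →. ℕ)) :
    Approx A φ := by
  have h' : Nat.RecursiveIn {(A : ℕ →. ℕ)} φ := RecursiveIn.iff_nat.1 h
  induction h' with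
  | zero => exact Approx.of_computable A (f := fun _ => 0) (Computable.const 0)
  | succ => exact Approx.of_computable A Computable.succ
  | left => exact Approx.of_computable A (Computable.fst.comp Computable.unpair)
  | right => exact Approx.of_computable A (Computable.snd.comp Computable.unpair)
  | oracle g hg =>
    rw [Set.mem_singleton_iff] at hg
    subst hg
    exact Approx.oracle A
  | pair h1 h2 ih1 ih2 =>
    exact Approx.pair (ih1 (RecursiveIn.iff_nat.2 h1)) (ih2 (RecursiveIn.iff_nat.2 h2))
  | comp h1 h2 ih1 ih2 =>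
    exact Approx.comp (ih1 (RecursiveIn.iff_nat.2 h1)) (ih2 (RecursiveIn.iff_nat.2 h2))
  | prec h1 h2 ih1 ih2 =>
    exact Approx.prec (ih1 (RecursiveIn.iff_nat.2 h1)) (ih2 (RecursiveIn.iff_nat.2 h2))
  | rfind h1 ih1 => exact Approx.rfind (ih1 (RecursiveIn.iff_nat.2 h1))

end lower

end Pool.Agent.Lib.MP_3eaa21_lc
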